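import Pool.Agent.Lib.MP_9afdc0_co.Defs

namespace Pool.Agent.Lib.MP_9afdc0_co

open Finset

variable {n r : ℕ}

open Classical in
/-- The finite set of `r`-cliques. -/
noncomputable def cl (G : SimpleGraph (Fin n)) (r : ℕ) : Finset (Finset (Fin n)) :=
  univ.filter fun K => G.IsNClique r K

theorem mem_cl {G : SimpleGraph (Fin n)} {K : Finset (Fin n)} : K ∈ cl G r ↔ G.IsNClique r K := by
  simp [cl]

theorem ncard_eq (G : SimpleGraph (Fin n)) : {K | G.IsNClique r K}.ncard = (cl G r).card := by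
  rw [← Set.ncard_coe_finset]
  congr 1
  ext K
  simp [mem_cl]

theorem bdd (r n : ℕ) : BddAbove {k | ∃ (G : SimpleGraph (Fin n)) (c : Sym2 (Fin n) → ℕ),
    IsProper G c ∧ (∀ K, G.IsNClique r K → ¬ IsRainbow c K) ∧
      k = {K | G.IsNClique r K}.ncard} := by
  refine ⟨Fintype.card (Finset (Fin n)), ?_⟩
  rintro k ⟨G, c, -, -, rfl⟩
  rw [ncard_eq]
  exact card_le_univ _

theorem le_ex {G : SimpleGraph (Fin n)} {c : Sym2 (Fin n) → ℕ} (hp : IsProper G c)
    (hr : ∀ K, G.IsNClique r K → ¬ IsRainbow c K) : (cl G r).card ≤ exRainbow r n :=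
  le_csSup (bdd r n) ⟨G, c, hp, hr, (ncard_eq G).symm⟩

theorem ex_le {B : ℕ} (h : ∀ (G : SimpleGraph (Fin n)) (c : Sym2 (Fin n) → ℕ), IsProper G c →
    (∀ K, G.IsNClique r K → ¬ IsRainbow c K) → (cl G r).card ≤ B) : exRainbow r n ≤ B := by
  refine csSup_le' ?_
  rintro k ⟨G, c, hp, hr, rfl⟩
  rw [ncard_eq]
  exact h G c hp hr

/-- A clique that is not rainbow has two disjoint edges of the same colour. -/
theorem exists_four {G : SimpleGraph (Fin n)} {c : Sym2 (Fin n) → ℕ} (hp : IsProper G c)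
    {K : Finset (Fin n)} (hK : G.IsClique (K : Set (Fin n))) (h : ¬ IsRainbow c K) :
    ∃ a ∈ K, ∃ b ∈ K, ∃ x ∈ K, ∃ y ∈ K, a ≠ b ∧ x ≠ y ∧ a ≠ x ∧ a ≠ y ∧ b ≠ x ∧ b ≠ y ∧
      c s(a, b) = c s(x, y) := by
  unfold IsRainbow at h
  push Not at h
  obtain ⟨a, ha, b, hb, x, hx, y, hy, hab, hxy, hc, hne⟩ := h
  refine ⟨a, ha, b, hb, x, hx, y, hy, hab, hxy, ?_, ?_, ?_, ?_, hc⟩
  · rintro rfl
    exact hp a b y (hK ha hb hab) (hK ha hy hxy) (fun e => hne (e ▸ rfl)) hc
  · rintro rfl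
    exact hp a b x (hK ha hb hab) (hK ha hx hxy.symm) (fun e => hne (e ▸ Sym2.eq_swap))
      (hc.trans (congrArg c Sym2.eq_swap))
  · rintro rfl
    exact hp b a y (hK hb ha hab.symm) (hK hb hy hxy) (fun e => hne (e ▸ Sym2.eq_swap))
      ((congrArg c Sym2.eq_swap).trans hc)
  · rintro rfl
    exact hp b a x (hK hb ha hab.symm) (hK hb hx hxy.symm) (fun e => hne (e ▸ rfl))
      ((congrArg c Sym2.eq_swap).trans (hc.trans (congrArg c Sym2.eq_swap)))

theorem not_rainbow {c : Sym2 (Fin n) → ℕ} {K : Finset (Fin n)} {a b x y : Fin n} (ha : a ∈ K)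
    (hb : b ∈ K) (hx : x ∈ K) (hy : y ∈ K) (hab : a ≠ b) (hxy : x ≠ y) (hax : a ≠ x) (hay : a ≠ y)
    (hc : c s(a, b) = c s(x, y)) : ¬ IsRainbow c K := fun h => by
  rcases Sym2.eq_iff.1 (h a ha b hb x hx y hy hab hxy hc) with h1 | h1
  · exact hax h1.1
  · exact hay h1.1

/-- An injective numbering of the pairs. -/
noncomputable def enc (e : Sym2 (Fin n)) : ℕ := (Fintype.equivFin _ e).1

theorem enc_inj {e e' : Sym2 (Fin n)} (h : enc e = enc e') : e = e' :=
  (Fintype.equivFin _).injective (Fin.ext h)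

theorem sq_le (hn : 4 ≤ n) : n ^ 2 ≤ 64 * exRainbow 4 n := by
  classical
  let G : SimpleGraph (Fin n) :=
    { Adj := fun x y => x ≠ y ∧ (x.1 % 2 = y.1 % 2 → x.1 / 4 = y.1 / 4)
      symm := ⟨fun x y h => ⟨h.1.symm, fun e => (h.2 e.symm).symm⟩⟩
      loopless := ⟨fun x h => h.1 rfl⟩ }
  let c : Sym2 (Fin n) → ℕ := fun e =>
    if ∀ x ∈ e, ∀ y ∈ e, x.1 % 2 = y.1 % 2 then 0 else enc e + 1
  have hc0 : ∀ x y : Fin n, x.1 % 2 = y.1 % 2 → c s(x, y) = 0 := fun x y h =>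
    if_pos fun a ha b hb => by
      rcases Sym2.mem_iff.1 ha with rfl | rfl <;> rcases Sym2.mem_iff.1 hb with rfl | rfl <;> omega
  have hc1 : ∀ x y : Fin n, x.1 % 2 ≠ y.1 % 2 → c s(x, y) = enc s(x, y) + 1 := fun x y h =>
    if_neg fun h' => h (h' x (Sym2.mem_mk_left _ _) y (Sym2.mem_mk_right _ _))
  have hp : IsProper G c := by
    intro u v w huv huw hvw h
    have h1 : u.1 ≠ v.1 := fun e => huv.1 (Fin.ext e)
    have h2 : u.1 ≠ w.1 := fun e => huw.1 (Fin.ext e)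
    have h3 : v.1 ≠ w.1 := fun e => hvw (Fin.ext e)
    by_cases e1 : u.1 % 2 = v.1 % 2 <;> by_cases e2 : u.1 % 2 = w.1 % 2
    · have := huv.2 e1
      have := huw.2 e2
      omega
    · rw [hc0 _ _ e1, hc1 _ _ e2] at h
      omega
    · rw [hc1 _ _ e1, hc0 _ _ e2] at h
      omega
    · rw [hc1 _ _ e1, hc1 _ _ e2] at h
      exact hvw (Sym2.congr_right.1 (enc_inj (Nat.add_right_cancel h)))
  have hr : ∀ K, G.IsNClique 4 K → ¬ IsRainbow c K := by
    intro K hK
    have key : ∀ j : ℕ, (K.filter fun x => x.1 % 2 = j).card ≤ 2 := by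
      intro j
      by_contra hlt
      obtain ⟨a, ha, b, hb, d, hd, hab, had, hbd⟩ := two_lt_card.1 (not_le.1 hlt)
      rw [mem_filter] at ha hb hd
      have h1 := (hK.1 ha.1 hb.1 hab).2 (ha.2.trans hb.2.symm)
      have h2 := (hK.1 ha.1 hd.1 had).2 (ha.2.trans hd.2.symm)
      have h3 : a.1 ≠ b.1 := fun e => hab (Fin.ext e)
      have h4 : a.1 ≠ d.1 := fun e => had (Fin.ext e)
      have h5 : b.1 ≠ d.1 := fun e => hbd (Fin.ext e)
      omega
    have h1 := card_filter_add_card_filter_not (s := K) fun x => x.1 % 2 = 0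
    have h2 : (K.filter fun x => ¬ x.1 % 2 = 0) = K.filter fun x => x.1 % 2 = 1 :=
      filter_congr fun x _ => by omega
    rw [h2, hK.2] at h1
    have h3 := key 0
    have h4 := key 1
    obtain ⟨a, ha, b, hb, hab⟩ := one_lt_card.1 (show 1 < (K.filter fun x => x.1 % 2 = 0).card by omega)
    obtain ⟨x, hx, y, hy, hxy⟩ := one_lt_card.1 (show 1 < (K.filter fun x => x.1 % 2 = 1).card by omega)
    rw [mem_filter] at ha hb hx hy
    refine not_rainbow ha.1 hb.1 hx.1 hy.1 hab hxy ?_ ?_ ?_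
    · rintro rfl; omega
    · rintro rfl; omega
    · rw [hc0 _ _ (by omega), hc0 _ _ (by omega)]
  have hn0 : 0 < n := by omega
  let p : ℕ → Fin n := fun k => ⟨k % n, Nat.mod_lt _ hn0⟩
  have hpv : ∀ k, k < n → (p k).1 = k := fun k hk => Nat.mod_eq_of_lt hk
  let F : ℕ × ℕ → Finset (Fin n) := fun q =>
    {p (4 * q.1), p (4 * q.1 + 2), p (4 * q.2 + 1), p (4 * q.2 + 3)}
  have hF : ((range (n / 4)) ×ˢ (range (n / 4))).card ≤ (cl G 4).card := by
    refine card_le_card_of_injOn F (fun q hq => ?_) (fun q hq q' hq' e => ?_)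
    · simp only [coe_product, coe_range, Set.mem_prod, Set.mem_Iio] at hq
      have e1 := hpv (4 * q.1) (by omega)
      have e2 := hpv (4 * q.1 + 2) (by omega)
      have e3 := hpv (4 * q.2 + 1) (by omega)
      have e4 := hpv (4 * q.2 + 3) (by omega)
      rw [mem_coe, mem_cl]
      constructor
      · intro x hx y hy hxy
        refine ⟨hxy, ?_⟩
        simp only [F, coe_insert, coe_singleton, Set.mem_insert_iff, Set.mem_singleton_iff] at hx hy
        rcases hx with rfl | rfl | rfl | rfl <;> rcases hy with rfl | rfl | rfl | rfl <;> omega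
      · rw [card_eq_four]
        refine ⟨_, _, _, _, ?_, ?_, ?_, ?_, ?_, ?_, rfl⟩ <;> (intro e; have := congrArg Fin.val e; omega)
    · simp only [coe_product, coe_range, Set.mem_prod, Set.mem_Iio] at hq hq'
      have e1 := hpv (4 * q.1) (by omega)
      have e3 := hpv (4 * q.2 + 1) (by omega)
      have f1 := hpv (4 * q'.1) (by omega)
      have f2 := hpv (4 * q'.1 + 2) (by omega)
      have f3 := hpv (4 * q'.2 + 1) (by omega)
      have f4 := hpv (4 * q'.2 + 3) (by omega)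
      have h1 : p (4 * q.1) ∈ F q' := e ▸ by simp [F]
      have h2 : p (4 * q.2 + 1) ∈ F q' := e ▸ by simp [F]
      simp only [F, mem_insert, mem_singleton, Fin.ext_iff] at h1 h2
      exact Prod.ext (by omega) (by omega)
  have h1 := hF.trans (le_ex hp hr)
  rw [card_product, card_range] at h1
  have h2 : n ≤ 8 * (n / 4) := by omega
  calc n ^ 2 ≤ (8 * (n / 4)) ^ 2 := Nat.pow_le_pow_left h2 2
    _ = 64 * (n / 4 * (n / 4)) := by ring
    _ ≤ _ := Nat.mul_le_mul_left _ h1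

end Pool.Agent.Lib.MP_9afdc0_co
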