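import Mathlib

namespace Pool.Agent.Lib.MP_9afdc0_co

variable {V : Type}

/-- The colouring `c` is proper on the edges of `G`: two different edges with a common end get
different colours. -/
def IsProper (G : SimpleGraph V) (c : Sym2 V → ℕ) : Prop :=
  ∀ u v w, G.Adj u v → G.Adj u w → v ≠ w → c s(u, v) ≠ c s(u, w)

/-- The pairs of different vertices of `K` get pairwise different colours. -/
def IsRainbow (c : Sym2 V → ℕ) (K : Finset V) : Prop :=
  ∀ a ∈ K, ∀ b ∈ K, ∀ x ∈ K, ∀ y ∈ K, a ≠ b → x ≠ y → c s(a, b) = c s(x, y) → s(a, b) = s(x, y)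

/-- The largest number of `r`-cliques in a properly edge-coloured graph on `n` vertices without a
rainbow `r`-clique. -/
noncomputable def exRainbow (r n : ℕ) : ℕ :=
  sSup {k | ∃ (G : SimpleGraph (Fin n)) (c : Sym2 (Fin n) → ℕ), IsProper G c ∧
    (∀ K, G.IsNClique r K → ¬ IsRainbow c K) ∧ k = {K | G.IsNClique r K}.ncard}

end Pool.Agent.Lib.MP_9afdc0_co
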