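import Pool.Agent.Lib.MP_9afdc0_co.Basic

namespace Pool.Agent.Lib.MP_9afdc0_co

open Finset

variable {n r : ℕ}

/-- Some set of at most half of the vertices carries a fixed share of the cliques. -/
theorem exists_half (G : SimpleGraph (Fin n)) (hr : 1 ≤ r) (hn : 4 * r ≤ n) :
    ∃ S : Finset (Fin n), 2 * S.card ≤ n ∧
      (cl G r).card ≤ 2 ^ (4 * r) * ((cl G r).filter fun K => K ⊆ S).card := by
  classical
  let T : Finset ℕ → Finset (Fin n) := fun B => univ.filter fun x => x.1 % (4 * r) ∈ B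
  let P : Finset (Finset ℕ) := (range (4 * r)).powerset.filter fun B => B.card ≤ r
  have hP : P.Nonempty := ⟨∅, by simp [P]⟩
  obtain ⟨B, hB, hmax⟩ := exists_max_image P (fun B => ((cl G r).filter fun K => K ⊆ T B).card) hP
  refine ⟨T B, ?_, ?_⟩
  · have h1 : (T B).card ≤ (B ×ˢ range (n / (4 * r) + 1)).card := by
      refine card_le_card_of_injOn (fun x => (x.1 % (4 * r), x.1 / (4 * r))) (fun x hx => ?_)
        (fun x _ y _ e => ?_)
      · rw [mem_coe, mem_product, mem_range]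
        exact ⟨(mem_filter.1 hx).2, Nat.lt_succ_of_le (Nat.div_le_div_right x.2.le)⟩
      · have e1 := congrArg Prod.fst e
        have e2 := congrArg Prod.snd e
        simp only at e1 e2
        apply Fin.ext
        rw [← Nat.div_add_mod x.1 (4 * r), ← Nat.div_add_mod y.1 (4 * r), e1, e2]
    rw [card_product, card_range] at h1
    have h2 : B.card * (n / (4 * r) + 1) ≤ r * (n / (4 * r) + 1) :=
      Nat.mul_le_mul_right _ (mem_filter.1 hB).2
    have h3 := Nat.mul_div_le n (4 * r)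
    nlinarith
  · have h1 : cl G r ⊆ P.biUnion fun B => (cl G r).filter fun K => K ⊆ T B := by
      intro K hK
      refine mem_biUnion.2 ⟨K.image fun x => x.1 % (4 * r), ?_, mem_filter.2 ⟨hK, fun x hx => ?_⟩⟩
      · refine mem_filter.2 ⟨mem_powerset.2 fun j hj => ?_, card_image_le.trans (mem_cl.1 hK).2.le⟩
        obtain ⟨x, -, rfl⟩ := mem_image.1 hj
        exact mem_range.2 (Nat.mod_lt _ (by omega))
      · exact mem_filter.2 ⟨mem_univ _, mem_image_of_mem _ hx⟩
    refine (card_le_card h1).trans ((card_biUnion_le_card_mul _ _ _ hmax).trans ?_)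
    refine Nat.mul_le_mul_right _ ((card_filter_le _ _).trans ?_)
    rw [card_powerset, card_range]

theorem join_step (hr : 1 ≤ r) (hn : 4 * r ≤ n) :
    n * exRainbow r n ≤ 2 ^ (4 * r + 1) * exRainbow (r + 1) n := by
  classical
  have hn0 : 0 < n := by omega
  suffices h : exRainbow r n ≤ 2 ^ (4 * r + 1) * exRainbow (r + 1) n / n from
    (Nat.mul_le_mul_left n h).trans (Nat.mul_div_le _ _)
  refine ex_le fun G c hp hrb => ?_
  rw [Nat.le_div_iff_mul_le hn0]
  obtain ⟨S, hS, hc⟩ := exists_half G hr hn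
  let G' : SimpleGraph (Fin n) :=
    { Adj := fun a b => (a ∈ S ∧ b ∈ S ∧ G.Adj a b) ∨ (a ∈ S ∧ b ∉ S) ∨ (a ∉ S ∧ b ∈ S)
      symm := ⟨fun a b h => by
        rcases h with h | h | h
        · exact Or.inl ⟨h.2.1, h.1, h.2.2.symm⟩
        · exact Or.inr (Or.inr h.symm)
        · exact Or.inr (Or.inl h.symm)⟩
      loopless := ⟨fun a h => by
        rcases h with h | h | h
        · exact G.irrefl h.2.2
        · exact h.2 h.1
        · exact h.1 h.2⟩ }
  let c' : Sym2 (Fin n) → ℕ := fun e => if ∀ x ∈ e, x ∈ S then 2 * c e else 2 * enc e + 1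
  have hc0 : ∀ a b, a ∈ S → b ∈ S → c' s(a, b) = 2 * c s(a, b) := fun a b ha hb =>
    if_pos fun x hx => by rcases Sym2.mem_iff.1 hx with rfl | rfl <;> assumption
  have hc1 : ∀ a b, ¬ (a ∈ S ∧ b ∈ S) → c' s(a, b) = 2 * enc s(a, b) + 1 := fun a b h =>
    if_neg fun h' => h ⟨h' a (Sym2.mem_mk_left _ _), h' b (Sym2.mem_mk_right _ _)⟩
  have hadj : ∀ a b, a ∈ S → b ∈ S → G'.Adj a b → G.Adj a b := by
    rintro a b ha hb (h | h | h)
    · exact h.2.2
    · exact absurd hb h.2
    · exact absurd ha h.1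
  have hp' : IsProper G' c' := by
    intro u v w huv huw hvw h
    by_cases e1 : u ∈ S ∧ v ∈ S <;> by_cases e2 : u ∈ S ∧ w ∈ S
    · rw [hc0 _ _ e1.1 e1.2, hc0 _ _ e2.1 e2.2] at h
      exact hp u v w (hadj _ _ e1.1 e1.2 huv) (hadj _ _ e2.1 e2.2 huw) hvw (by omega)
    · rw [hc0 _ _ e1.1 e1.2, hc1 _ _ e2] at h
      omega
    · rw [hc1 _ _ e1, hc0 _ _ e2.1 e2.2] at h
      omega
    · rw [hc1 _ _ e1, hc1 _ _ e2] at h
      have h' : enc s(u, v) = enc s(u, w) := by omega
      exact hvw (Sym2.congr_right.1 (enc_inj h'))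
  have hr' : ∀ K, G'.IsNClique (r + 1) K → ¬ IsRainbow c' K := by
    intro K hK hrain
    have h1 : (K.filter fun x => ¬ x ∈ S).card ≤ 1 := by
      refine card_le_one.2 fun a ha b hb => ?_
      rw [mem_filter] at ha hb
      by_contra hab
      rcases hK.1 ha.1 hb.1 hab with h | h | h
      · exact ha.2 h.1
      · exact ha.2 h.1
      · exact hb.2 h.2
    have h2 := card_filter_add_card_filter_not (s := K) fun x => x ∈ S
    rw [hK.2] at h2
    obtain ⟨L, hL, hLc⟩ := exists_subset_card_eq (s := K.filter fun x => x ∈ S) (n := r) (by omega)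
    have hm : ∀ x ∈ L, x ∈ K ∧ x ∈ S := fun x hx => mem_filter.1 (hL hx)
    refine hrb L ⟨fun a ha b hb hab => hadj a b (hm a ha).2 (hm b hb).2
      (hK.1 (hm a ha).1 (hm b hb).1 hab), hLc⟩ fun a ha b hb x hx y hy hab hxy e => ?_
    refine hrain a (hm a ha).1 b (hm b hb).1 x (hm x hx).1 y (hm y hy).1 hab hxy ?_
    rw [hc0 _ _ (hm a ha).2 (hm b hb).2, hc0 _ _ (hm x hx).2 (hm y hy).2, e]
  have h3 : (((cl G r).filter fun K => K ⊆ S) ×ˢ Sᶜ).card ≤ (cl G' (r + 1)).card := by
    refine card_le_card_of_injOn (fun q => insert q.2 q.1) (fun q hq => ?_)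
      (fun q hq q' hq' e => ?_)
    · rw [mem_coe, mem_product, mem_filter, mem_cl, mem_compl] at hq
      rw [mem_coe, mem_cl]
      have h4 : G'.IsNClique r q.1 := ⟨fun a ha b hb hab =>
        Or.inl ⟨hq.1.2 ha, hq.1.2 hb, hq.1.1.1 ha hb hab⟩, hq.1.1.2⟩
      exact h4.insert fun b hb => Or.inr (Or.inr ⟨hq.2, hq.1.2 hb⟩)
    · rw [mem_coe, mem_product, mem_filter, mem_compl] at hq hq'
      simp only at e
      have h4 : q.2 = q'.2 := by
        have : q.2 ∈ insert q'.2 q'.1 := e ▸ mem_insert_self _ _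
        exact (mem_insert.1 this).resolve_right fun h => hq.2 (hq'.1.2 h)
      refine Prod.ext ?_ h4
      rw [← erase_insert (s := q.1) (a := q.2) fun h => hq.2 (hq.1.2 h), e, h4,
        erase_insert fun h => hq'.2 (hq'.1.2 h)]
  have h4 := h3.trans (le_ex hp' hr')
  rw [card_product, card_compl, Fintype.card_fin] at h4
  have h5 : n ≤ 2 * (n - S.card) := by omega
  calc (cl G r).card * n
      ≤ 2 ^ (4 * r) * ((cl G r).filter fun K => K ⊆ S).card * (2 * (n - S.card)) :=
        Nat.mul_le_mul hc h5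
    _ = 2 ^ (4 * r + 1) * (((cl G r).filter fun K => K ⊆ S).card * (n - S.card)) := by ring
    _ ≤ _ := Nat.mul_le_mul_left _ h4

end Pool.Agent.Lib.MP_9afdc0_co
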