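import Mathlib

/-! Averaging over the cells of a partition, weights on quadruples. -/

namespace Pool.Agent.Lib.MP_9afdc0_co

open Finset

variable {V : Type} [Fintype V]

open Classical in
/-- The averaging matrix of a partition. -/
noncomputable def av (r : Setoid V) : Matrix V V ℝ :=
  Matrix.of fun a b => if r a b then (((univ.filter fun x => r a x).card : ℝ))⁻¹ else 0

/-- The number of cells, as a trace. -/
noncomputable def tr (r : Setoid V) : ℝ := ∑ a, av r a a

/-- The sum of the squares of the entries. -/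
def fro (H : Matrix V V ℝ) : ℝ := ∑ a, ∑ b, H a b ^ 2

/-- A sum over four variables. -/
def S4 (f : V → V → V → V → ℝ) : ℝ := ∑ a, ∑ b, ∑ c, ∑ d, f a b c d

/-- Symmetric weights on quadruples whose sums over one variable are at most one. -/
structure Wt (Y : V → V → V → V → ℝ) : Prop where
  pos : ∀ a b c d, 0 ≤ Y a b c d
  s1 : ∀ a b c d, Y a b c d = Y b a c d
  s2 : ∀ a b c d, Y a b c d = Y a c b d
  s3 : ∀ a b c d, Y a b c d = Y a b d c
  row : ∀ a b c, ∑ d, Y a b c d ≤ 1

/-- The average of a weight over quadruples of cells. -/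
noncomputable def sm (r : Setoid V) (X : V → V → V → V → ℝ) (a b c d : V) : ℝ :=
  S4 fun a' b' c' d' => av r a a' * av r b b' * av r c c' * av r d d' * X a' b' c' d'

/-- The normalised pair marginal. -/
noncomputable def mg (X : V → V → V → V → ℝ) : Matrix V V ℝ :=
  Matrix.of fun a b => (∑ c, ∑ d, X a b c d) / Fintype.card V

/-- Entries between zero and one. -/
def Ut (H : Matrix V V ℝ) : Prop := ∀ a b, 0 ≤ H a b ∧ H a b ≤ 1

theorem av_pos (r : Setoid V) (a b : V) : 0 ≤ av r a b := by
  simp only [av, Matrix.of_apply]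
  split_ifs <;> positivity

open Classical in
theorem lla_cell (r : Setoid V) {a a' : V} (h : r a a') :
    (univ.filter fun x => r a x) = univ.filter fun x => r a' x :=
  filter_congr fun _ _ => ⟨fun h' => r.trans (r.symm h) h', fun h' => r.trans h h'⟩

open Classical in
theorem lla_card (r : Setoid V) (a : V) : (0 : ℝ) < (univ.filter fun x => r a x).card :=
  Nat.cast_pos.2 (card_pos.2 ⟨a, mem_filter.2 ⟨mem_univ _, r.refl a⟩⟩)

theorem av_congr (r : Setoid V) {a a' : V} (h : r a a') (b : V) : av r a b = av r a' b := by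
  simp only [av, Matrix.of_apply]
  rw [lla_cell r h]
  by_cases e : r a b
  · rw [if_pos e, if_pos (r.trans (r.symm h) e)]
  · rw [if_neg e, if_neg fun h' => e (r.trans h h')]

theorem av_symm (r : Setoid V) (a b : V) : av r a b = av r b a := by
  simp only [av, Matrix.of_apply]
  by_cases h : r a b
  · rw [if_pos h, if_pos (r.symm h), lla_cell r h]
  · rw [if_neg h, if_neg fun h' => h (r.symm h')]

theorem av_row (r : Setoid V) (a : V) : ∑ b, av r a b = 1 := by
  simp only [av, Matrix.of_apply]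
  rw [← sum_filter, sum_const, nsmul_eq_mul, mul_inv_cancel₀ (lla_card r a).ne']

theorem av_col (r : Setoid V) (b : V) : ∑ a, av r a b = 1 := by
  rw [← av_row r b]
  exact sum_congr rfl fun a _ => av_symm r a b

theorem av_le (r : Setoid V) (a b : V) : av r a b ≤ av r a a := by
  simp only [av, Matrix.of_apply]
  rw [if_pos (r.refl a)]
  split_ifs
  · exact le_rfl
  · positivity

theorem av_zero (r : Setoid V) {a b : V} (h : ¬ r a b) : av r a b = 0 := by
  simp only [av, Matrix.of_apply]
  rw [if_neg h]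

theorem av_fix (r : Setoid V) {u : V → ℝ} (h : ∀ a b, r a b → u a = u b) (a : V) :
    ∑ b, av r a b * u b = u a := by
  rw [← one_mul (u a), ← av_row r a, sum_mul]
  refine sum_congr rfl fun b _ => ?_
  by_cases e : r a b
  · rw [h a b e]
  · rw [av_zero r e, zero_mul, zero_mul]

theorem av_mul {r r' : Setoid V} (h : r' ≤ r) : av r' * av r = av r := by
  ext a b
  rw [Matrix.mul_apply]
  exact av_fix r' (u := fun x => av r x b) (fun x y e => av_congr r (h e) b) a

theorem mul_av {r r' : Setoid V} (h : r' ≤ r) : av r * av r' = av r := by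
  ext a b
  have e := congrFun (congrFun (av_mul h) b) a
  rw [Matrix.mul_apply] at e ⊢
  rw [av_symm r a b, ← e]
  exact sum_congr rfl fun c _ => by rw [mul_comm, av_symm r a c, av_symm r' c b]

theorem tr_top [Nonempty V] : tr (⊤ : Setoid V) = 1 := by
  obtain ⟨a⟩ := ‹Nonempty V›
  rw [← av_row (⊤ : Setoid V) a]
  exact sum_congr rfl fun b _ => av_congr ⊤ trivial b

theorem tr_pos (r : Setoid V) : 0 ≤ tr r := sum_nonneg fun a _ => av_pos r a a

open Classical in
theorem lla_sum (r : Setoid V) (u : V → ℝ) :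
    ∑ b, u b = ∑ a, av r a a * ∑ b ∈ univ.filter fun x => r a x, u b := by
  have e : ∀ a, av r a a * ∑ b ∈ univ.filter fun x => r a x, u b = ∑ b, av r a b * u b := by
    intro a
    rw [sum_filter, mul_sum]
    refine sum_congr rfl fun b _ => ?_
    by_cases h : r a b
    · rw [if_pos h, av_symm r a b, ← av_congr r h a]
    · rw [if_neg h, av_zero r h, mul_zero, zero_mul]
  simp only [e]
  rw [sum_comm]
  simp only [← sum_mul, av_col, one_mul]

theorem tr_inf (r : Setoid V) {L : Type} (l : V → L) (s : Finset L) (h : ∀ a, l a ∈ s) :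
    tr (r ⊓ Setoid.ker l) ≤ s.card * tr r := by
  classical
  rw [tr, lla_sum r, tr, mul_sum]
  refine sum_le_sum fun a _ => ?_
  rw [mul_comm (s.card : ℝ)]
  refine mul_le_mul_of_nonneg_left ?_ (av_pos r a a)
  rw [← sum_fiberwise_of_maps_to (g := l) (t := s) fun b _ => h b]
  refine (sum_le_card_nsmul _ _ 1 fun y _ => ?_).trans_eq (by rw [nsmul_eq_mul, mul_one])
  rcases (filter (fun b => l b = y) (univ.filter fun x => r a x)).eq_empty_or_nonempty with e |
    ⟨b, hb⟩
  · rw [e, sum_empty]
    exact zero_le_one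
  · rw [← av_col (r ⊓ Setoid.ker l) b]
    refine le_trans (sum_le_sum fun c hc => ?_)
      (sum_le_sum_of_subset_of_nonneg (subset_univ _) fun c _ _ => av_pos _ c b)
    simp only [mem_filter, mem_univ, true_and] at hb hc
    have e : (r ⊓ Setoid.ker l) c b :=
      Setoid.inf_iff_and.2 ⟨r.trans (r.symm hc.1) hb.1, hc.2.trans hb.2.symm⟩
    rw [av_symm _ c b, ← av_congr _ e c]

open Classical in
theorem card_le_tr (r : Setoid V) (F : Finset V) {N : ℝ}
    (h : ∀ a, ((F.filter fun x => r a x).card : ℝ) ≤ N) : (F.card : ℝ) ≤ N * tr r := by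
  have e : (F.card : ℝ) = ∑ b, if b ∈ F then (1 : ℝ) else 0 := by simp
  rw [e, lla_sum r, tr, mul_sum]
  refine sum_le_sum fun a _ => ?_
  rw [mul_comm N]
  refine mul_le_mul_of_nonneg_left (le_trans (le_of_eq ?_) (h a)) (av_pos r a a)
  rw [← sum_filter, sum_const, nsmul_eq_mul, mul_one, filter_comm, filter_mem_eq_inter, univ_inter]

theorem Ut.left (r : Setoid V) {H : Matrix V V ℝ} (h : Ut H) : Ut (av r * H) := by
  intro a b
  rw [Matrix.mul_apply]
  refine ⟨sum_nonneg fun c _ => mul_nonneg (av_pos r a c) (h c b).1, ?_⟩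
  rw [← av_row r a]
  exact sum_le_sum fun c _ => mul_le_of_le_one_right (av_pos r a c) (h c b).2

theorem Ut.right (r : Setoid V) {H : Matrix V V ℝ} (h : Ut H) : Ut (H * av r) := by
  intro a b
  rw [Matrix.mul_apply]
  refine ⟨sum_nonneg fun c _ => mul_nonneg (h a c).1 (av_pos r c b), ?_⟩
  rw [← av_col r b]
  exact sum_le_sum fun c _ => mul_le_of_le_one_left (av_pos r c b) (h a c).2

theorem Ut.fro_le {H : Matrix V V ℝ} (h : Ut H) : fro H ≤ (Fintype.card V : ℝ) ^ 2 := by
  refine (sum_le_sum fun a _ => sum_le_sum fun b _ =>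
    pow_le_one₀ (h a b).1 (h a b).2).trans_eq ?_
  simp [sq]

theorem pair_left (r : Setoid V) (H K : Matrix V V ℝ) :
    ∑ a, ∑ b, (av r * H) a b * K a b = ∑ a, ∑ b, H a b * (av r * K) a b := by
  rw [sum_comm, sum_comm (f := fun a b => H a b * _)]
  refine sum_congr rfl fun b _ => ?_
  simp only [Matrix.mul_apply, sum_mul, mul_sum]
  rw [sum_comm]
  refine sum_congr rfl fun a _ => sum_congr rfl fun c _ => ?_
  rw [av_symm r c a]
  ring

theorem pair_right (r : Setoid V) (H K : Matrix V V ℝ) :
    ∑ a, ∑ b, (H * av r) a b * K a b = ∑ a, ∑ b, H a b * (K * av r) a b := by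
  refine sum_congr rfl fun a _ => ?_
  simp only [Matrix.mul_apply, sum_mul, mul_sum]
  rw [sum_comm]
  refine sum_congr rfl fun b _ => sum_congr rfl fun c _ => ?_
  rw [av_symm r c b]
  ring

theorem lla_pyth {A B : Matrix V V ℝ} (h : ∑ a, ∑ b, A a b * B a b = ∑ a, ∑ b, B a b * B a b) :
    fro A = fro B + fro (A - B) := by
  have e : ∀ a b, (A - B) a b ^ 2 = A a b ^ 2 + B a b * B a b - 2 * (A a b * B a b) := by
    intro a b
    rw [Matrix.sub_apply]
    ring
  simp only [fro, e, sum_sub_distrib, sum_add_distrib, ← mul_sum, h]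
  simp only [sq]
  ring

theorem fro_pos (H : Matrix V V ℝ) : 0 ≤ fro H :=
  sum_nonneg fun _ _ => sum_nonneg fun _ _ => sq_nonneg _

theorem fro_left {r r' : Setoid V} (h : r' ≤ r) (H : Matrix V V ℝ) :
    fro (av r' * H) = fro (av r * H) + fro (av r' * (H - av r * H)) := by
  rw [Matrix.mul_sub, ← Matrix.mul_assoc, av_mul h]
  apply lla_pyth
  rw [pair_left, pair_left, ← Matrix.mul_assoc, ← Matrix.mul_assoc, av_mul h, av_mul le_rfl]

theorem fro_right {r r' : Setoid V} (h : r' ≤ r) (H : Matrix V V ℝ) :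
    fro (H * av r) ≤ fro (H * av r') := by
  rw [lla_pyth (A := H * av r') (B := H * av r)]
  · exact le_add_of_nonneg_right (fro_pos _)
  · rw [pair_right, pair_right, Matrix.mul_assoc, Matrix.mul_assoc, mul_av h, mul_av le_rfl]

theorem S4_1 (f : V → V → V → V → ℝ) : S4 f = S4 fun a b c d => f b a c d := sum_comm

theorem S4_2 (f : V → V → V → V → ℝ) : S4 f = S4 fun a b c d => f a c b d := sum_congr rfl fun _ _ => sum_comm

theorem S4_3 (f : V → V → V → V → ℝ) : S4 f = S4 fun a b c d => f a b d c := sum_congr rfl fun _ _ => sum_congr rfl fun _ _ => sum_comm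

theorem S4_mono {f g : V → V → V → V → ℝ} (h : ∀ a b c d, f a b c d ≤ g a b c d) :
    S4 f ≤ S4 g :=
  sum_le_sum fun a _ => sum_le_sum fun b _ => sum_le_sum fun c _ => sum_le_sum fun d _ => h a b c d

theorem S4_congr {f g : V → V → V → V → ℝ} (h : ∀ a b c d, f a b c d = g a b c d) :
    S4 f = S4 g :=
  le_antisymm (S4_mono fun a b c d => (h a b c d).le) (S4_mono fun a b c d => (h a b c d).ge)

theorem S4_sum (f : V → V → V → V → V → ℝ) :
    ∑ e, S4 (f e) = S4 fun a b c d => ∑ e, f e a b c d := by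
  unfold S4
  rw [sum_comm]
  refine sum_congr rfl fun a _ => ?_
  rw [sum_comm]
  refine sum_congr rfl fun b _ => ?_
  rw [sum_comm]
  exact sum_congr rfl fun c _ => sum_comm

theorem lla_three {X : V → V → V → V → ℝ} (h : Wt X) (r : Setoid V) (a b c : V) :
    (S4 fun a' b' c' d' => av r a a' * av r b b' * av r c c' * X a' b' c' d') ≤ 1 := by
  unfold S4
  simp only [← mul_sum]
  refine (sum_le_sum fun a' _ => sum_le_sum fun b' _ => sum_le_sum fun c' _ =>
    mul_le_of_le_one_right (mul_nonneg (mul_nonneg (av_pos r a a') (av_pos r b b'))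
      (av_pos r c c')) (h.row a' b' c')).trans_eq ?_
  simp only [← mul_sum, av_row, mul_one]

theorem Wt.sm {X : V → V → V → V → ℝ} (h : Wt X) (r : Setoid V) : Wt (sm r X) := by
  refine ⟨fun a b c d => ?_, fun a b c d => ?_, fun a b c d => ?_, fun a b c d => ?_,
    fun a b c => ?_⟩
  · exact sum_nonneg fun a' _ => sum_nonneg fun b' _ => sum_nonneg fun c' _ =>
      sum_nonneg fun d' _ => mul_nonneg (mul_nonneg (mul_nonneg (mul_nonneg (av_pos _ _ _)
        (av_pos _ _ _)) (av_pos _ _ _)) (av_pos _ _ _)) (h.pos _ _ _ _)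
  · refine (S4_1 _).trans (S4_congr fun a' b' c' d' => ?_)
    rw [h.s1 a' b']
    ring
  · refine (S4_2 _).trans (S4_congr fun a' b' c' d' => ?_)
    rw [h.s2 a' b']
    ring
  · refine (S4_3 _).trans (S4_congr fun a' b' c' d' => ?_)
    rw [h.s3 a' b' c']
    ring
  · refine le_trans (le_of_eq ?_) (lla_three h r a b c)
    refine (S4_sum fun d a' b' c' d' =>
      av r a a' * av r b b' * av r c c' * av r d d' * X a' b' c' d').trans
      (S4_congr fun a' b' c' d' => ?_)
    rw [← sum_mul, ← mul_sum, av_col, mul_one]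

theorem sm_congr (r : Setoid V) (X : V → V → V → V → ℝ) {a a' : V} (h : r a a') (b c d : V) :
    sm r X a b c d = sm r X a' b c d := S4_congr fun a'' _ _ _ => by rw [av_congr r h a'']

theorem Wt.sm_le {X : V → V → V → V → ℝ} (h : Wt X) (r : Setoid V) (a b c d : V) :
    Pool.Agent.Lib.MP_9afdc0_co.sm r X a b c d ≤ av r d d := by
  refine le_trans ?_ (mul_le_of_le_one_right (av_pos r d d) (lla_three h r a b c))
  unfold S4
  simp only [mul_sum]
  refine S4_mono fun a' b' c' d' => ?_
  have := mul_le_mul_of_nonneg_left (av_le r d d') (mul_nonneg (mul_nonneg (mul_nonneg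
    (av_pos r a a') (av_pos r b b')) (av_pos r c c')) (h.pos a' b' c' d'))
  linarith

theorem sm_mg (r : Setoid V) (X : V → V → V → V → ℝ) (a b : V) :
    ∑ c, ∑ d, sm r X a b c d = Fintype.card V * (av r * mg X * av r) a b := by
  have hn : (Fintype.card V : ℝ) ≠ 0 := Nat.cast_ne_zero.2 (Fintype.card_pos_iff.2 ⟨a⟩).ne'
  have e : ∀ c, ∑ d, sm r X a b c d =
      S4 fun a' b' c' d' => av r a a' * av r b b' * av r c c' * X a' b' c' d' := fun c =>
    (S4_sum fun d a' b' c' d' =>
      av r a a' * av r b b' * av r c c' * av r d d' * X a' b' c' d').trans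
      (S4_congr fun a' b' c' d' => by rw [← sum_mul, ← mul_sum, av_col, mul_one])
  simp only [e]
  rw [S4_sum fun c a' b' c' d' => av r a a' * av r b b' * av r c c' * X a' b' c' d']
  simp only [← sum_mul, ← mul_sum, av_col, mul_one, S4, Matrix.mul_apply, mg, Matrix.of_apply]
  simp only [sum_mul, mul_sum]
  rw [sum_comm]
  refine sum_congr rfl fun b' _ => sum_congr rfl fun a' _ => ?_
  simp only [← mul_sum]
  rw [av_symm r b' b]
  field_simp

theorem Wt.ut {X : V → V → V → V → ℝ} (h : Wt X) : Ut (mg X) := by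
  intro a b
  have hn : (0 : ℝ) < Fintype.card V := Nat.cast_pos.2 (Fintype.card_pos_iff.2 ⟨a⟩)
  simp only [mg, Matrix.of_apply]
  refine ⟨div_nonneg (sum_nonneg fun c _ => sum_nonneg fun d _ => h.pos a b c d) hn.le, ?_⟩
  rw [div_le_one hn]
  refine (sum_le_sum fun c _ => h.row a b c).trans_eq ?_
  simp

theorem Wt.symm {X : V → V → V → V → ℝ} (h : Wt X) (a b : V) : mg X a b = mg X b a := by
  simp only [mg, Matrix.of_apply, h.s1 a b]

end Pool.Agent.Lib.MP_9afdc0_co
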