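import Pool.Agent.Lib.MP_9afdc0_co.LlA

/-! The cluster lemma. -/

namespace Pool.Agent.Lib.MP_9afdc0_co

open Finset

variable {V : Type} [Fintype V]

/-- Kernels with bounded row sums, column sums and entries. -/
structure Ker (ρ : V → ℝ) (k : V → V → ℝ) : Prop where
  row : ∀ c, ∑ d, |k c d| ≤ 1
  col : ∀ d, ∑ c, |k c d| ≤ 1
  ent : ∀ c d, |k c d| ≤ ρ d

theorem llb_abs (k k' : V → V → ℝ) (d d' : V) :
    |∑ c, k c d * k' c d'| ≤ ∑ c, |k c d| * |k' c d'| :=
  (abs_sum_le_sum_abs _ _).trans_eq (sum_congr rfl fun _ _ => abs_mul _ _)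

theorem Ker.mul {ρ : V → ℝ} {k k' : V → V → ℝ} (h : Ker ρ k) (h' : Ker ρ k') :
    Ker ρ fun d d' => ∑ c, k c d * k' c d' := by
  refine ⟨fun d => ?_, fun d' => ?_, fun d d' => ?_⟩
  · refine (sum_le_sum fun d' _ => llb_abs k k' d d').trans ?_
    rw [sum_comm]
    refine (sum_le_sum fun c _ => ?_).trans (h.col d)
    rw [← mul_sum]
    exact mul_le_of_le_one_right (abs_nonneg _) (h'.row c)
  · refine (sum_le_sum fun d _ => llb_abs k k' d d').trans ?_
    rw [sum_comm]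
    refine (sum_le_sum fun c _ => ?_).trans (h'.col d')
    rw [← sum_mul]
    exact mul_le_of_le_one_left (abs_nonneg _) (h.row c)
  · refine (llb_abs k k' d d').trans ((sum_le_sum fun c _ =>
      mul_le_mul_of_nonneg_left (h'.ent c d') (abs_nonneg _)).trans ?_)
    rw [← sum_mul]
    exact mul_le_of_le_one_left ((abs_nonneg _).trans (h'.ent d' d')) (h.col d)

theorem llb_cs {x x' : V → ℝ} {ν : ℝ} (hν : 0 ≤ ν) (h : ∑ c, x c ^ 2 ≤ ν)
    (h' : ∑ c, x' c ^ 2 ≤ ν) : |∑ c, x c * x' c| ≤ ν := by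
  refine abs_le_of_sq_le_sq ((sum_mul_sq_le_sq_mul_sq univ x x').trans ?_) hν
  rw [sq ν]
  exact mul_le_mul h h' (sum_nonneg fun _ _ => sq_nonneg _) hν

theorem llb_base {ρ : V → ℝ} (hρ : ∀ d, 0 ≤ ρ d) {ι : Type} (F : Finset ι) {ν : ℝ} (hν : 0 < ν)
    (B : Type) [Fintype B] (p η θ : ℝ) (k : B → V → V → ℝ) (g : ι → B → ℝ)
    (x z : ι → V → ℝ) (hp : 0 ≤ p) (hB : p * Fintype.card B ≤ 1) (hθ : 0 ≤ θ)
    (hk : ∀ b, Ker ρ (k b)) (hg : ∀ f ∈ F, p * ∑ b, g f b ^ 2 ≤ 1)
    (hη : ∀ f ∈ F, ∀ f' ∈ F, f ≠ f' → |p * ∑ b, g f b * g f' b| ≤ η)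
    (hx : ∀ f ∈ F, ∑ c, x f c ^ 2 ≤ ν) (hz : ∀ f ∈ F, ∑ d, z f d ^ 2 ≤ ν)
    (hU : ∀ f ∈ F, θ * ν ≤ ∑ c, ∑ d, x f c * z f d * (p * ∑ b, g f b * k b c d)) :
    (F.card * θ) ^ 2 ≤ (∑ d, ρ d) * (F.card + F.card ^ 2 * |η|) := by
  classical
  let K : B × V × V → ℝ := fun e => k e.1 e.2.1 e.2.2
  let u : ι → B × V × V → ℝ := fun f e => g f e.1 * (x f e.2.1 * z f e.2.2)
  have h1 : F.card * θ * ν ≤ p * ∑ e, K e * ∑ f ∈ F, u f e := by
    have e1 : ∑ f ∈ F, ∑ c, ∑ d, x f c * z f d * (p * ∑ b, g f b * k b c d) =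
        p * ∑ e, K e * ∑ f ∈ F, u f e := by
      simp only [mul_sum]
      rw [sum_comm (s := univ) (t := F)]
      refine sum_congr rfl fun f _ => ?_
      simp only [Fintype.sum_prod_type, K, u]
      rw [sum_comm (s := (univ : Finset B))]
      refine sum_congr rfl fun c _ => ?_
      rw [sum_comm (s := (univ : Finset B))]
      exact sum_congr rfl fun d _ => sum_congr rfl fun b _ => by ring
    rw [← e1, mul_assoc, ← nsmul_eq_mul]
    exact card_nsmul_le_sum _ _ _ hU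
  have h2 : p * ∑ e, K e ^ 2 ≤ ∑ d, ρ d := by
    have e1 : ∀ b, ∑ e : V × V, K (b, e) ^ 2 ≤ ∑ d, ρ d := fun b => by
      rw [Fintype.sum_prod_type, sum_comm]
      refine sum_le_sum fun d _ => ?_
      refine (sum_le_sum fun c _ => (?_ : _ ≤ |k b c d| * ρ d)).trans ?_
      · rw [← sq_abs, sq]
        exact mul_le_mul_of_nonneg_left ((hk b).ent c d) (abs_nonneg _)
      · rw [← sum_mul]
        exact mul_le_of_le_one_left (hρ d) ((hk b).col d)
    rw [Fintype.sum_prod_type]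
    refine (mul_le_mul_of_nonneg_left (sum_le_card_nsmul _ _ _ fun b _ => e1 b) hp).trans ?_
    rw [card_univ, nsmul_eq_mul, ← mul_assoc]
    exact mul_le_of_le_one_left (sum_nonneg fun d _ => hρ d) hB
  have h3 : p * ∑ e, (∑ f ∈ F, u f e) ^ 2 ≤ (F.card + F.card ^ 2 * |η|) * ν ^ 2 := by
    have e1 : ∀ f f', p * ∑ e, u f e * u f' e =
        (p * ∑ b, g f b * g f' b) * ((∑ c, x f c * x f' c) * ∑ d, z f d * z f' d) := by
      intro f f'
      rw [mul_assoc, sum_mul_sum, sum_mul]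
      simp only [Fintype.sum_prod_type, u, mul_sum]
      exact sum_congr rfl fun b _ => sum_congr rfl fun c _ => sum_congr rfl fun d _ => by ring
    have e2 : ∀ f ∈ F, ∀ f' ∈ F, p * ∑ e, u f e * u f' e ≤
        ((if f = f' then 1 else 0) + |η|) * ν ^ 2 := by
      intro f hf f' hf'
      rw [e1]
      refine (le_abs_self _).trans ?_
      rw [abs_mul, abs_mul (∑ c, x f c * x f' c), sq ν]
      refine mul_le_mul ?_ (mul_le_mul (llb_cs hν.le (hx f hf) (hx f' hf'))
        (llb_cs hν.le (hz f hf) (hz f' hf')) (abs_nonneg _) hν.le) (by positivity)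
        (by positivity)
      split_ifs with h
      · subst h
        rw [abs_of_nonneg (mul_nonneg hp (sum_nonneg fun _ _ => mul_self_nonneg _))]
        have := hg f hf
        simp only [sq] at this
        linarith [abs_nonneg η]
      · linarith [hη f hf f' hf' h, le_abs_self η]
    have e3 : p * ∑ e, (∑ f ∈ F, u f e) ^ 2 = ∑ f ∈ F, ∑ f' ∈ F, p * ∑ e, u f e * u f' e := by
      simp only [← mul_sum]
      simp only [sq, sum_mul_sum]
      rw [sum_comm]
      exact congrArg _ (sum_congr rfl fun f _ => sum_comm)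
    rw [e3]
    refine (sum_le_sum fun f hf => sum_le_sum fun f' hf' => e2 f hf f' hf').trans_eq ?_
    simp only [← sum_mul, sum_add_distrib, sum_ite_eq, sum_const, nsmul_eq_mul]
    rw [sum_congr rfl fun f hf => if_pos hf, sum_const, nsmul_eq_mul]
    ring
  have h4 := sum_mul_sq_le_sq_mul_sq univ K fun e => ∑ f ∈ F, u f e
  have h5 : (F.card * θ * ν) ^ 2 ≤ (∑ d, ρ d) * ((F.card + F.card ^ 2 * |η|) * ν ^ 2) := by
    refine (pow_le_pow_left₀ (by positivity) h1 2).trans ?_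
    refine le_trans ?_ (mul_le_mul h2 h3 (mul_nonneg hp (sum_nonneg fun _ _ => sq_nonneg _))
      (sum_nonneg fun d _ => hρ d))
    rw [mul_pow, mul_mul_mul_comm, ← sq]
    exact mul_le_mul_of_nonneg_left h4 (sq_nonneg p)
  rw [mul_pow, ← mul_assoc] at h5
  exact le_of_mul_le_mul_right h5 (by positivity)

/-- Almost orthogonal vectors that all give a large operator are few. -/
theorem few {ρ : V → ℝ} (hρ : ∀ d, 0 ≤ ρ d) {ι : Type} (F : Finset ι) {ν : ℝ} (hν : 0 < ν)
    (j : ℕ) :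
    ∀ (B : Type) [Fintype B] (p η θ : ℝ) (k : B → V → V → ℝ) (g : ι → B → ℝ)
      (x z : ι → V → ℝ), 0 ≤ p → p * Fintype.card B ≤ 1 → 0 ≤ θ → (∀ b, Ker ρ (k b)) →
      (∀ f ∈ F, p * ∑ b, g f b ^ 2 ≤ 1) →
      (∀ f ∈ F, ∀ f' ∈ F, f ≠ f' → |p * ∑ b, g f b * g f' b| ≤ η) →
      (∀ f ∈ F, ∑ c, x f c ^ 2 ≤ ν) → (∀ f ∈ F, ∑ d, z f d ^ 2 ≤ ν) →
      (∀ f ∈ F, θ * ν ≤ ∑ c, ∑ d, x f c * z f d * (p * ∑ b, g f b * k b c d)) →
      (F.card * θ ^ 2 ^ j) ^ 2 ≤ (∑ d, ρ d) * (F.card + F.card ^ 2 * |η| ^ 2 ^ j) := by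
  induction j with
  | zero =>
    intro B _ p η θ k g x z hp hB hθ hk hg hη hx hz hU
    simpa only [pow_zero, pow_one] using llb_base hρ F hν B p η θ k g x z hp hB hθ hk hg hη hx hz hU
  | succ j ih =>
    intro B _ p η θ k g x z hp hB hθ hk hg hη hx hz hU
    have e1 : ∀ f f', p ^ 2 * ∑ e : B × B, g f e.1 * g f e.2 * (g f' e.1 * g f' e.2) =
        (p * ∑ b, g f b * g f' b) ^ 2 := by
      intro f f'
      rw [mul_pow, sq (∑ b, g f b * g f' b), sum_mul_sum, Fintype.sum_prod_type]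
      exact congrArg _ (sum_congr rfl fun b _ => sum_congr rfl fun b' _ => by ring)
    have h := ih (B × B) (p ^ 2) (η ^ 2) (θ ^ 2) (fun e d d' => ∑ c, k e.1 c d * k e.2 c d')
      (fun f e => g f e.1 * g f e.2) z z (sq_nonneg p) ?_ (sq_nonneg θ)
      (fun e => (hk e.1).mul (hk e.2)) (fun f hf => ?_) (fun f hf f' hf' hne => ?_) hz hz
      fun f hf => ?_
    · rwa [abs_pow, ← pow_mul, ← pow_mul, ← pow_succ'] at h
    · rw [Fintype.card_prod, Nat.cast_mul, ← sq, ← mul_pow]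
      exact pow_le_one₀ (by positivity) hB
    · simp only [sq (g f _ * g f _)]
      rw [e1]
      refine pow_le_one₀ (mul_nonneg hp (sum_nonneg fun _ _ => mul_self_nonneg _)) ?_
      simpa only [sq] using hg f hf
    · rw [e1, abs_pow]
      exact pow_le_pow_left₀ (abs_nonneg _) (hη f hf f' hf' hne) 2
    · let w : V → ℝ := fun c => ∑ d, z f d * (p * ∑ b, g f b * k b c d)
      have e2 : ∑ d, ∑ d', z f d * z f d' * (p ^ 2 * ∑ e : B × B, g f e.1 * g f e.2 *
          ∑ c, k e.1 c d * k e.2 c d') = ∑ c, w c ^ 2 := by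
        simp only [w, sq, sum_mul_sum]
        rw [sum_comm (s := (univ : Finset V)) (f := fun c d => ∑ d', z f d *
          (p * ∑ b, g f b * k b c d) * (z f d' * (p * ∑ b, g f b * k b c d')))]
        refine sum_congr rfl fun d _ => ?_
        rw [sum_comm (s := (univ : Finset V)) (f := fun c d' => z f d *
          (p * ∑ b, g f b * k b c d) * (z f d' * (p * ∑ b, g f b * k b c d')))]
        refine sum_congr rfl fun d' _ => ?_
        have e3 : ∀ c, z f d * (p * ∑ b, g f b * k b c d) * (z f d' * (p * ∑ b, g f b * k b c d')) =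
            z f d * z f d' * (p * p * ∑ e : B × B, g f e.1 * g f e.2 * (k e.1 c d * k e.2 c d')) :=
          fun c => by
            rw [Fintype.sum_prod_type, mul_mul_mul_comm, mul_mul_mul_comm p, sum_mul_sum]
            exact congrArg _ (congrArg _ (sum_congr rfl fun b _ => sum_congr rfl fun b' _ => by
              ring))
        simp only [e3, ← mul_sum]
        rw [sum_comm]
        simp only [← mul_sum]
      have h1 : θ * ν ≤ ∑ c, x f c * w c := by
        refine (hU f hf).trans_eq (sum_congr rfl fun c _ => ?_)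
        simp only [w, mul_sum, mul_assoc]
      have h2 := (pow_le_pow_left₀ (by positivity) h1 2).trans
        ((sum_mul_sq_le_sq_mul_sq univ (x f) w).trans (mul_le_mul_of_nonneg_right (hx f hf)
          (sum_nonneg fun _ _ => sq_nonneg _)))
      rw [e2]
      refine le_of_mul_le_mul_left (le_of_eq_of_le ?_ h2) hν
      ring

/-- The form with one distinguished pair function. -/
def JJ (Y : V → V → V → V → ℝ) (g x z : V → V → ℝ) (R : V → V → V → ℝ) : ℝ :=
  S4 fun a b c d => Y a b c d * g a b * x a c * z a d * R b c d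

theorem llb_sq {u : V → ℝ} (h : ∀ a, |u a| ≤ 1) : ∑ a, u a ^ 2 ≤ Fintype.card V := by
  refine (sum_le_card_nsmul _ _ 1 fun a _ => ?_).trans_eq (by simp)
  exact (sq_le_one_iff_abs_le_one _).2 (h a)

theorem llb_num {N t θ : ℝ} {m : ℕ} (hN : 0 ≤ N) (ht0 : 0 ≤ t) (h0 : 0 < θ) (ht : 2 * t ≤ 2 ^ m)
    (h : (N * θ ^ m) ^ 2 ≤ t * (N + N ^ 2 * |θ ^ 2 / 2| ^ m)) : N ≤ 2 * t / θ ^ (2 * m) := by
  rw [abs_of_nonneg (by positivity), div_pow, mul_pow, ← pow_mul, ← pow_mul, mul_comm m] at h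
  obtain ⟨s, hs⟩ : ∃ s, s = θ ^ (2 * m) := ⟨_, rfl⟩
  rw [← hs] at h ⊢
  have ps : 0 < s := hs ▸ by positivity
  have h1 : t * (N ^ 2 * (s / 2 ^ m)) ≤ N ^ 2 * s / 2 := by
    rw [← mul_div_assoc, ← mul_div_assoc, div_le_div_iff₀ (by positivity) (by positivity)]
    nlinarith [mul_le_mul_of_nonneg_left ht (show 0 ≤ N ^ 2 * s by positivity)]
  rw [le_div_iff₀ ps]
  rcases hN.eq_or_lt with rfl | hN
  · simpa using ht0
  · exact le_of_mul_le_mul_left (by nlinarith) hN

theorem cluster [Nonempty V] {Y : V → V → V → V → ℝ} (hY : Wt Y) (r : Setoid V)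
    (hm : ∀ a a', r a a' → ∀ b c d, Y a b c d = Y a' b c d)
    (hρ : ∀ a b c d, Y a b c d ≤ av r d d) {g x z : V → V → ℝ} {R : V → V → V → ℝ}
    (hg : ∀ a b, |g a b| ≤ 1) (hx : ∀ a b, |x a b| ≤ 1) (hz : ∀ a b, |z a b| ≤ 1)
    (hR : ∀ a b c, |R a b c| ≤ 1) {θ : ℝ} (h0 : 0 < θ) {j : ℕ} (ht : 2 * tr r ≤ 2 ^ 2 ^ j)
    (hJ : 2 * θ * (Fintype.card V : ℝ) ^ 3 ≤ JJ Y g x z R) :
    ∃ (s : Finset (V → ℝ)) (ψ : V → V → ℝ), (∀ a, ψ a ∈ s) ∧
      (s.card : ℝ) ≤ 4 * tr r ^ 2 / θ ^ (2 * 2 ^ j) + 1 ∧ (∀ a b, |ψ a b| ≤ 1) ∧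
      θ ^ 3 / 2 * (Fintype.card V : ℝ) ^ 2 ≤ ∑ a, ∑ b, g a b * ψ a b := by
  classical
  obtain ⟨n, hn⟩ : ∃ n : ℝ, n = Fintype.card V := ⟨_, rfl⟩
  have pn : 0 < n := hn ▸ Nat.cast_pos.2 Fintype.card_pos
  rw [← hn] at hJ ⊢
  let L : V → ℝ := fun a => ∑ b, ∑ c, ∑ d, Y a b c d * g a b * x a c * z a d * R b c d
  have hL : ∀ a, L a ≤ n * ∑ b, |g a b| := fun a => by
    rw [mul_sum]
    refine sum_le_sum fun b _ => (sum_le_card_nsmul _ _ |g a b| fun c _ => ?_).trans_eq
      (by rw [card_univ, nsmul_eq_mul, hn])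
    refine (sum_le_sum fun d _ => (?_ : _ ≤ |g a b| * Y a b c d)).trans ?_
    · refine (le_abs_self _).trans ?_
      rw [abs_mul, abs_mul, abs_mul, abs_mul, abs_of_nonneg (hY.pos a b c d), mul_comm (Y a b c d)]
      have := hY.pos a b c d
      exact (mul_le_of_le_one_right (by positivity) (hR b c d)).trans
        ((mul_le_of_le_one_right (by positivity) (hz a d)).trans
          (mul_le_of_le_one_right (by positivity) (hx a c)))
    · rw [← mul_sum]
      exact mul_le_of_le_one_right (abs_nonneg _) (hY.row a b c)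
  have hL2 : ∀ a, L a ≤ n ^ 2 := fun a => by
    refine (hL a).trans ?_
    rw [sq]
    refine mul_le_mul_of_nonneg_left ((sum_le_card_nsmul _ _ 1 fun b _ => hg a b).trans_eq ?_) pn.le
    rw [card_univ, nsmul_eq_mul, mul_one, hn]
  let T : Finset V := univ.filter fun a => θ * n ^ 2 ≤ L a
  have hT : θ * n ≤ T.card := by
    have h1 : ∑ a, L a ≤ ∑ a, ((if θ * n ^ 2 ≤ L a then n ^ 2 else 0) + θ * n ^ 2) := by
      refine sum_le_sum fun a _ => ?_
      split_ifs with h
      · exact (hL2 a).trans (le_add_of_nonneg_right (by positivity))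
      · rw [zero_add]
        exact (not_le.1 h).le
    rw [sum_add_distrib, ← sum_filter, sum_const, sum_const, card_univ, nsmul_eq_mul,
      nsmul_eq_mul, ← hn] at h1
    have h2 : 2 * θ * n ^ 3 ≤ ∑ a, L a := hJ
    refine le_of_mul_le_mul_right ?_ (show 0 < n ^ 2 by positivity)
    nlinarith
  let P : Finset V → Prop := fun F => F ⊆ T ∧ ∀ f ∈ F, ∀ f' ∈ F, r f f' → f ≠ f' →
    |∑ b, g f b * g f' b| ≤ θ ^ 2 / 2 * n
  obtain ⟨F, hF, hmax⟩ := exists_max_image (univ.filter P) card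
    ⟨∅, mem_filter.2 ⟨mem_univ _, empty_subset _, by simp⟩⟩
  replace hF : P F := (mem_filter.1 hF).2
  have hc : ∀ a ∈ T, ∃ f ∈ F, θ ^ 2 / 2 * n ≤ |∑ b, g a b * g f b| := by
    intro a ha
    by_cases haF : a ∈ F
    · refine ⟨a, haF, le_trans ?_ (le_abs_self _)⟩
      have h1 : θ * n ≤ ∑ b, |g a b| * 1 := by
        simp only [mul_one]
        refine le_of_mul_le_mul_left (le_of_eq_of_le ?_ ((mem_filter.1 ha).2.trans (hL a))) pn
        ring
      have h2 := (pow_le_pow_left₀ (by positivity) h1 2).trans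
        (sum_mul_sq_le_sq_mul_sq univ (fun b => |g a b|) fun _ => (1 : ℝ))
      simp only [sq_abs, one_pow, sum_const, card_univ, nsmul_eq_mul, mul_one, ← hn] at h2
      simp only [← sq]
      refine le_of_mul_le_mul_right ?_ pn
      nlinarith [mul_pos h0 pn]
    · by_contra hne
      push Not at hne
      have h1 : P (insert a F) := by
        refine ⟨insert_subset ha hF.1, fun f hf f' hf' h1 h2 => ?_⟩
        rcases mem_insert.1 hf with e | e <;> rcases mem_insert.1 hf' with e' | e'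
        · exact absurd (e.trans e'.symm) h2
        · exact e ▸ (hne f' e').le
        · simp only [mul_comm (g f _)]
          exact e' ▸ (hne f e).le
        · exact hF.2 f e f' e' h1 h2
      have h2 := hmax _ (mem_filter.2 ⟨mem_univ _, h1⟩)
      rw [card_insert_of_notMem haF] at h2
      omega
  have hN : (F.card : ℝ) ≤ 2 * tr r / θ ^ (2 * 2 ^ j) * tr r := by
    refine card_le_tr r F fun a => llb_num (Nat.cast_nonneg _) (tr_pos r) h0 ht ?_
    refine few (ρ := fun d => av r d d) (fun d => av_pos r d d) _ pn j V n⁻¹ (θ ^ 2 / 2) θ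
      (fun b c d => Y a b c d * R b c d) g x z (by positivity)
      (by rw [← hn, inv_mul_cancel₀ pn.ne']) h0.le (fun b => ?_) (fun f _ => ?_)
      (fun f hf f' hf' hne => ?_) (fun f _ => hn ▸ llb_sq (hx f)) (fun f _ => hn ▸ llb_sq (hz f))
      fun f hf => ?_
    · have h1 : ∀ c d, |Y a b c d * R b c d| ≤ Y a b c d := fun c d => by
        rw [abs_mul, abs_of_nonneg (hY.pos a b c d)]
        exact mul_le_of_le_one_right (hY.pos a b c d) (hR b c d)
      exact ⟨fun c => (sum_le_sum fun d _ => h1 c d).trans (hY.row a b c),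
        fun d => (sum_le_sum fun c _ => (h1 c d).trans_eq (hY.s3 a b c d)).trans (hY.row a b d),
        fun c d => (h1 c d).trans (hρ a b c d)⟩
    · rw [inv_mul_le_iff₀ pn, mul_one]
      exact hn ▸ llb_sq (hg f)
    · rw [mem_filter] at hf hf'
      rw [abs_mul, abs_of_nonneg (inv_nonneg.2 pn.le), inv_mul_le_iff₀ pn, mul_comm n]
      exact hF.2 f hf.1 f' hf'.1 (r.trans (r.symm hf.2) hf'.2) hne
    · rw [mem_filter] at hf
      have h1 : ∑ c, ∑ d, x f c * z f d * (n⁻¹ * ∑ b, g f b * (Y a b c d * R b c d)) =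
          n⁻¹ * L f := by
        simp only [L, mul_sum]
        rw [sum_comm (s := (univ : Finset V)) (f := fun b c => ∑ d, n⁻¹ *
          (Y f b c d * g f b * x f c * z f d * R b c d))]
        refine sum_congr rfl fun c _ => ?_
        rw [sum_comm]
        refine sum_congr rfl fun b _ => sum_congr rfl fun d _ => ?_
        rw [hm a f hf.2]
        ring
      rw [h1, le_inv_mul_iff₀ pn]
      refine le_of_eq_of_le ?_ (mem_filter.1 (hF.1 hf.1)).2
      ring
  have hψ : ∀ a, ∃ u : V → ℝ, u ∈ insert 0 (F.image g ∪ F.image fun f => -g f) ∧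
      (∀ b, |u b| ≤ 1) ∧ (if a ∈ T then θ ^ 2 / 2 * n else 0) ≤ ∑ b, g a b * u b := by
    intro a
    split_ifs with ha
    · obtain ⟨f, hf, h⟩ := hc a ha
      rcases le_abs.1 h with h | h
      · exact ⟨g f, mem_insert_of_mem (mem_union_left _ (mem_image_of_mem _ hf)), hg f, h⟩
      · refine ⟨-g f, mem_insert_of_mem (mem_union_right _ (mem_image_of_mem _ hf)),
          fun b => by simpa using hg f b, h.trans_eq ?_⟩
        simp only [Pi.neg_apply, mul_neg, sum_neg_distrib]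
    · exact ⟨0, mem_insert_self _ _, by simp, by simp⟩
  choose ψ h1 h2 h3 using hψ
  refine ⟨_, ψ, h1, ?_, h2, le_trans ?_ (sum_le_sum fun a _ => h3 a)⟩
  · have h4 : (insert 0 (F.image g ∪ F.image fun f => -g f)).card ≤ F.card + F.card + 1 :=
      (card_insert_le _ _).trans (Nat.succ_le_succ ((card_union_le _ _).trans
        (add_le_add card_image_le card_image_le)))
    have h5 := (Nat.cast_le (α := ℝ)).2 h4
    push_cast at h5
    refine h5.trans (add_le_add ((add_le_add hN hN).trans_eq ?_) le_rfl)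
    ring
  · rw [sum_ite_mem, univ_inter, sum_const, nsmul_eq_mul]
    refine le_of_eq_of_le ?_ (mul_le_mul_of_nonneg_right hT (by positivity))
    ring

end Pool.Agent.Lib.MP_9afdc0_co
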