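import Pool.Agent.Lib.MP_9afdc0_co.LlB

/-! One round of refinement and the counting lemma. -/

namespace Pool.Agent.Lib.MP_9afdc0_co

open Finset

variable {V : Type} [Fintype V]

/-- The partition is regular for the weight. -/
def Reg (Y : V → V → V → V → ℝ) (M : Matrix V V ℝ) (θ : ℝ) (r : Setoid V) : Prop :=
  ∀ H : Matrix V V ℝ, H = M ∨ H = M * av r → ∀ (x z : V → V → ℝ) (R : V → V → V → ℝ),
    (∀ a b, |x a b| ≤ 1) → (∀ a b, |z a b| ≤ 1) → (∀ a b c, |R a b c| ≤ 1) →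
      JJ Y (H - av r * H) x z R ≤ 2 * θ * (Fintype.card V : ℝ) ^ 3

/-- The weighted clique form. -/
def QQ (Y : V → V → V → V → ℝ) (A B C D E F : V → V → ℝ) : ℝ :=
  S4 fun a b c d => Y a b c d * A a b * B a c * C a d * D b c * E b d * F c d

/-- The energy. -/
noncomputable def En (M : Matrix V V ℝ) (r : Setoid V) : ℝ :=
  fro (av r * M) + fro (av r * M * av r)

omit [Fintype V] in
theorem Ut.abs {H : Matrix V V ℝ} (h : Ut H) (a b : V) : |H a b| ≤ 1 :=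
  abs_le.2 ⟨by linarith [(h a b).1], (h a b).2⟩

theorem llc_gain [Nonempty V] {r : Setoid V} {g : Matrix V V ℝ} {ψ : V → V → ℝ} {θ : ℝ}
    (h0 : 0 < θ) (hr : ∀ a b, r a b → ψ a = ψ b) (h1 : ∀ a b, |ψ a b| ≤ 1)
    (h : θ ^ 3 / 2 * (Fintype.card V : ℝ) ^ 2 ≤ ∑ a, ∑ b, g a b * ψ a b) :
    θ ^ 6 / 4 * (Fintype.card V : ℝ) ^ 2 ≤ fro (av r * g) := by
  have hn : (0 : ℝ) < Fintype.card V := Nat.cast_pos.2 Fintype.card_pos
  have e : ∑ a, ∑ b, g a b * ψ a b = ∑ a, ∑ b, (av r * g) a b * ψ a b := by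
    refine Eq.trans ?_ (pair_left r g (Matrix.of ψ)).symm
    refine sum_congr rfl fun a _ => sum_congr rfl fun b _ => ?_
    rw [Matrix.mul_apply]
    exact congrArg _ (av_fix r (u := fun x => ψ x b) (fun x y e => congrFun (hr x y e) b) a).symm
  rw [e, ← Fintype.sum_prod_type'] at h
  have c := sum_mul_sq_le_sq_mul_sq univ (fun p : V × V => (av r * g) p.1 p.2)
    fun p : V × V => ψ p.1 p.2
  have c1 : ∑ p : V × V, ψ p.1 p.2 ^ 2 ≤ (Fintype.card V : ℝ) ^ 2 := by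
    refine (sum_le_sum fun p _ => (sq_le_one_iff_abs_le_one _).2 (h1 p.1 p.2)).trans_eq ?_
    simp [sq]
  have c2 : ∑ p : V × V, (av r * g) p.1 p.2 ^ 2 = fro (av r * g) :=
    Fintype.sum_prod_type' fun a b => (av r * g) a b ^ 2
  rw [c2] at c
  have c3 := (pow_le_pow_left₀ (by positivity) h 2).trans
    (c.trans (mul_le_mul_of_nonneg_left c1 (fro_pos _)))
  refine le_of_mul_le_mul_right (le_trans (le_of_eq ?_) c3) (pow_pos hn 2)
  ring

theorem llc_step [Nonempty V] {X : V → V → V → V → ℝ} (hX : Wt X) (r : Setoid V) {j : ℕ}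
    (ht : 2 * tr r ≤ 2 ^ 2 ^ j) {θ : ℝ} (h0 : 0 < θ) {r₁ : Setoid V}
    (h : ¬ Reg (sm r X) (mg X) θ r₁) :
    ∃ r₂ ≤ r₁, tr r₂ ≤ (4 * tr r ^ 2 / θ ^ (2 * 2 ^ j) + 1) * tr r₁ ∧
      En (mg X) r₁ + θ ^ 6 / 4 * (Fintype.card V : ℝ) ^ 2 ≤ En (mg X) r₂ := by
  simp only [Reg, not_forall, not_le] at h
  obtain ⟨H, hH, x, z, R, hx, hz, hR, hJ⟩ := h
  have hU : Ut H := by
    rcases hH with rfl | rfl
    · exact hX.ut
    · exact hX.ut.right r₁
  have hg : ∀ a b, |(H - av r₁ * H) a b| ≤ 1 := fun a b => by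
    rw [Matrix.sub_apply, abs_le]
    constructor <;> linarith [(hU a b).1, (hU a b).2, (hU.left r₁ a b).1, (hU.left r₁ a b).2]
  obtain ⟨s, ψ, h1, h2, h3, h4⟩ := cluster (hX.sm r) r (fun a a' e => sm_congr r X e)
    (hX.sm_le r) hg hx hz hR h0 ht hJ.le
  have hle : r₁ ⊓ Setoid.ker ψ ≤ r₁ := inf_le_left
  refine ⟨r₁ ⊓ Setoid.ker ψ, hle,
    (tr_inf r₁ ψ s h1).trans (mul_le_mul_of_nonneg_right h2 (tr_pos _)), ?_⟩
  have h5 := llc_gain (r := r₁ ⊓ Setoid.ker ψ) h0 (fun a b e => (Setoid.inf_iff_and.1 e).2) h3 h4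
  have h6 := fro_left hle (mg X)
  have h7 := fro_left hle (mg X * av r₁)
  have h8 := fro_right hle (av (r₁ ⊓ Setoid.ker ψ) * mg X)
  have h9 := fro_pos (av (r₁ ⊓ Setoid.ker ψ) * (mg X - av r₁ * mg X))
  have h10 := fro_pos (av (r₁ ⊓ Setoid.ker ψ) * (mg X * av r₁ - av r₁ * (mg X * av r₁)))
  simp only [En, Matrix.mul_assoc] at h8 ⊢
  rcases hH with rfl | rfl <;> linarith

theorem llc_nat (q : ℕ) : (2 * q + 3) * 2 ^ (6 * q + 4) + 1 ≤ 2 ^ (7 * q + 7) := by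
  have h1 : q < 2 ^ q := Nat.lt_two_pow_self
  have h2 : 0 < 2 ^ (6 * q + 4) := by positivity
  have h3 : 2 ^ (7 * q + 7) = 8 * 2 ^ q * 2 ^ (6 * q + 4) := by ring
  rw [h3]
  nlinarith

theorem round [Nonempty V] {X : V → V → V → V → ℝ} (hX : Wt X) (r : Setoid V) {j : ℕ} (q : ℕ)
    (ht : 2 * tr r ≤ 2 ^ 2 ^ j) :
    ∃ r' ≤ r, 2 * tr r' ≤ 2 ^ 2 ^ (j + (7 * q + 7)) ∧ Reg (sm r X) (mg X) ((1 / 2) ^ q) r' := by
  have hn : (0 : ℝ) < Fintype.card V := Nat.cast_pos.2 Fintype.card_pos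
  obtain ⟨θ, hθ⟩ : ∃ θ : ℝ, θ = (1 / 2) ^ q := ⟨_, rfl⟩
  have h0 : 0 < θ := by rw [hθ]; positivity
  obtain ⟨N, hN⟩ : ∃ N : ℝ, N = 4 * tr r ^ 2 / θ ^ (2 * 2 ^ j) + 1 := ⟨_, rfl⟩
  have N1 : 1 ≤ N := by
    rw [hN]
    exact le_add_of_nonneg_left (by positivity)
  have key : ∀ k : ℕ, ∃ r₁ ≤ r, tr r₁ ≤ N ^ k * tr r ∧ (Reg (sm r X) (mg X) θ r₁ ∨
      k * (θ ^ 6 / 4 * (Fintype.card V : ℝ) ^ 2) ≤ En (mg X) r₁) := by
    intro k
    induction k with
    | zero => exact ⟨r, le_rfl, by simp, Or.inr (by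
        rw [Nat.cast_zero, zero_mul]; exact add_nonneg (fro_pos _) (fro_pos _))⟩
    | succ k ih =>
      obtain ⟨r₁, h1, h2, h3⟩ := ih
      by_cases h : Reg (sm r X) (mg X) θ r₁
      · exact ⟨r₁, h1, h2.trans (mul_le_mul_of_nonneg_right
          (pow_le_pow_right₀ N1 (Nat.le_succ k)) (tr_pos r)), Or.inl h⟩
      · obtain ⟨r₂, h4, h5, h6⟩ := llc_step hX r ht h0 h
        rw [← hN] at h5
        refine ⟨r₂, h4.trans h1, h5.trans ?_, Or.inr ?_⟩
        · rw [pow_succ', mul_assoc]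
          exact mul_le_mul_of_nonneg_left h2 (zero_le_one.trans N1)
        · have := h3.resolve_left h
          push_cast
          linarith
  obtain ⟨r₁, h1, h2, h3⟩ := key (2 ^ (6 * q + 4))
  refine ⟨r₁, h1, ?_, hθ ▸ h3.resolve_right fun h => ?_⟩
  · have hm : 1 ≤ 2 ^ j := Nat.one_le_two_pow
    have e1 : 4 * tr r ^ 2 / θ ^ (2 * 2 ^ j) ≤ 2 ^ (2 ^ j * (2 * q + 2)) := by
      have := pow_le_pow_left₀ (mul_nonneg zero_le_two (tr_pos r)) ht 2
      rw [div_le_iff₀ (by positivity), hθ, ← pow_mul, one_div, inv_pow, ← div_eq_mul_inv,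
        le_div_iff₀ (by positivity)]
      refine (mul_le_mul_of_nonneg_right (le_trans (le_of_eq (by ring)) this)
        (by positivity)).trans_eq ?_
      rw [← pow_mul, ← pow_add]
      congr 1
      ring
    have e2 : N ≤ 2 ^ (2 ^ j * (2 * q + 3)) := by
      have e3 : (2 : ℝ) ^ (2 ^ j * (2 * q + 2) + 1) ≤ 2 ^ (2 ^ j * (2 * q + 3)) :=
        pow_le_pow_right₀ one_le_two (by nlinarith)
      have e4 : (1 : ℝ) ≤ 2 ^ (2 ^ j * (2 * q + 2)) := one_le_pow₀ one_le_two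
      rw [pow_succ] at e3
      linarith
    have e5 := pow_le_pow_left₀ (zero_le_one.trans N1) e2 (2 ^ (6 * q + 4))
    have e6 := mul_le_mul e5 ht (mul_nonneg zero_le_two (tr_pos r)) (by positivity)
    rw [← pow_mul, ← pow_add] at e6
    refine le_trans (by linarith) (e6.trans (pow_le_pow_right₀ one_le_two ?_))
    rw [pow_add 2 j]
    exact le_trans (le_of_eq (by ring)) (Nat.mul_le_mul_left (2 ^ j) (llc_nat q))
  · have e1 := (hX.ut.left r₁).fro_le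
    have e2 := ((hX.ut.left r₁).right r₁).fro_le
    have e3 : ((2 ^ (6 * q + 4) : ℕ) : ℝ) * θ ^ 6 = 16 := by
      rw [hθ, ← pow_mul, one_div, inv_pow, mul_comm q]
      push_cast
      rw [pow_add]
      field_simp
      norm_num
    have e4 := pow_pos hn 2
    rw [En] at h
    nlinarith

theorem S4_add (f g : V → V → V → V → ℝ) :
    (S4 fun a b c d => f a b c d + g a b c d) = S4 f + S4 g := by
  simp only [S4, sum_add_distrib]

theorem QQ_1 {Y : V → V → V → V → ℝ} (hY : Wt Y) {A : V → V → ℝ} (h : ∀ a b, A a b = A b a)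
    (B C D E F : V → V → ℝ) : QQ Y A B C D E F = QQ Y A D E B C F :=
  (S4_1 _).trans (S4_congr fun a b c d => by rw [hY.s1 a b, h a b]; ring)

theorem QQ_2 {Y : V → V → V → V → ℝ} (hY : Wt Y) {D : V → V → ℝ} (h : ∀ a b, D a b = D b a)
    (A B C E F : V → V → ℝ) : QQ Y A B C D E F = QQ Y B A C D F E :=
  (S4_2 _).trans (S4_congr fun a b c d => by rw [hY.s2 a b, h b c]; ring)

theorem QQ_3 {Y : V → V → V → V → ℝ} (hY : Wt Y) {F : V → V → ℝ} (h : ∀ a b, F a b = F b a)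
    (A B C D E : V → V → ℝ) : QQ Y A B C D E F = QQ Y A C B E D F :=
  (S4_3 _).trans (S4_congr fun a b c d => by rw [hY.s3 a b c, h c d]; ring)

theorem llc_tr {M : Matrix V V ℝ} (hs : ∀ a b, M a b = M b a) (r : Setoid V) (a b : V) :
    (M * av r) b a = (av r * M) a b := by
  simp only [Matrix.mul_apply]
  exact sum_congr rfl fun c _ => by rw [mul_comm, av_symm r c a, hs b c]

theorem llc_sym {M : Matrix V V ℝ} (hs : ∀ a b, M a b = M b a) (r : Setoid V) (a b : V) :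
    (av r * M * av r) a b = (av r * M * av r) b a := by
  refine (congrFun (congrFun (Matrix.mul_assoc (av r) M (av r)) a) b).trans ?_
  rw [Matrix.mul_apply, Matrix.mul_apply]
  exact sum_congr rfl fun c _ => by rw [mul_comm, av_symm r c a, llc_tr hs r b c]

theorem llc_three {x y z : ℝ} (hx : |x| ≤ 1) (hy : |y| ≤ 1) (hz : |z| ≤ 1) : |x * y * z| ≤ 1 := by
  rw [abs_mul, abs_mul]
  exact mul_le_one₀ (mul_le_one₀ hx (abs_nonneg _) hy) (abs_nonneg _) hz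

theorem Reg.slot {Y : V → V → V → V → ℝ} (hY : Wt Y) {M : Matrix V V ℝ}
    (hs : ∀ a b, M a b = M b a) {θ : ℝ} {r : Setoid V} (h : Reg Y M θ r) {B C D E F : V → V → ℝ}
    (hB : ∀ a b, |B a b| ≤ 1) (hC : ∀ a b, |C a b| ≤ 1) (hD : ∀ a b, |D a b| ≤ 1)
    (hE : ∀ a b, |E a b| ≤ 1) (hF : ∀ a b, |F a b| ≤ 1) :
    QQ Y (av r * M * av r) B C D E F ≤ QQ Y M B C D E F + 4 * θ * (Fintype.card V : ℝ) ^ 3 := by
  have h1 := h M (Or.inl rfl) (fun a b => -B a b) C (fun b c d => D b c * E b d * F c d)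
    (fun a b => (abs_neg _).trans_le (hB a b)) hC fun b c d => llc_three (hD _ _) (hE _ _) (hF _ _)
  have h2 := h _ (Or.inr rfl) (fun a b => -D a b) E (fun b c d => B b c * C b d * F c d)
    (fun a b => (abs_neg _).trans_le (hD a b)) hE fun b c d => llc_three (hB _ _) (hC _ _) (hF _ _)
  rw [JJ, S4_1] at h2
  refine le_trans (le_of_eq ?_) ((add_le_add_right (add_le_add h1 h2)
    (QQ Y M B C D E F)).trans_eq (by ring))
  rw [JJ, QQ, QQ, ← S4_add, ← S4_add]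
  refine S4_congr fun a b c d => ?_
  rw [Matrix.sub_apply, Matrix.sub_apply, llc_tr hs r a b, ← Matrix.mul_assoc, llc_sym hs r b a,
    hY.s1 b a]
  ring

theorem Reg.count {Y : V → V → V → V → ℝ} (hY : Wt Y) {M : Matrix V V ℝ} (hM : Ut M)
    (hs : ∀ a b, M a b = M b a) {θ : ℝ} {r : Setoid V} (h : Reg Y M θ r) {D : Matrix V V ℝ}
    (hD : D = av r * M * av r) :
    QQ Y D D D D D D ≤ QQ Y M M M M M M + 24 * θ * (Fintype.card V : ℝ) ^ 3 := by
  have uM := hM.abs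
  have uD : ∀ a b, |D a b| ≤ 1 := hD ▸ ((hM.left r).right r).abs
  have sD : ∀ a b, D a b = D b a := hD ▸ llc_sym hs r
  have h1 := h.slot hY hs uD uD uD uD uD
  have h2 := h.slot hY hs uM uD uD uD uD
  have h3 := h.slot hY hs uM uM uD uD uD
  have h4 := h.slot hY hs uM uD uM uD uM
  have h5 := h.slot hY hs uM uM uD uM uM
  have h6 := h.slot hY hs uM uM uM uM uM
  rw [← hD] at h1 h2 h3 h4 h5 h6
  have e1 := QQ_2 hY sD M D D D D
  have e2 := (QQ_3 hY sD M M D D D).trans (QQ_2 hY sD M D M D D)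
  have e3 := (QQ_1 hY hs M M D D D).trans (QQ_2 hY hs M D D M D)
  have e4 := (QQ_3 hY hs M M D M D).trans (QQ_2 hY sD M D M M M)
  have e5 := (QQ_1 hY hs M M D M M).trans (QQ_2 hY hs M D M M M)
  linarith

end Pool.Agent.Lib.MP_9afdc0_co
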