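import Pool.Agent.Lib.MP_9afdc0_co.LlC

/-! The entropy increment. -/

namespace Pool.Agent.Lib.MP_9afdc0_co

open Finset

variable {V : Type} [Fintype V]

theorem S4_mul (t : ℝ) (f : V → V → V → V → ℝ) :
    (S4 fun a b c d => t * f a b c d) = t * S4 f := by
  simp only [S4, mul_sum]

theorem lld_psi0 {u v : ℝ} (hu : 0 ≤ u) (hv : 0 < v) :
    0 ≤ u * Real.log u - u * Real.log v - u + v := by
  rcases hu.eq_or_lt with rfl | hu
  · simpa using hv.le
  · have h := mul_le_mul_of_nonneg_left (Real.log_le_sub_one_of_pos (div_pos hv hu)) hu.le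
    rw [Real.log_div hv.ne' hu.ne', mul_sub u (v / u), mul_div_cancel₀ _ hu.ne'] at h
    linarith

theorem lld_psi1 {u v : ℝ} (hu : 0 ≤ u) (hv : 0 < v) (h2 : 2 * u ≤ v) :
    v ≤ 8 * (u * Real.log u - u * Real.log v - u + v) := by
  rcases hu.eq_or_lt with rfl | hu
  · simp only [zero_mul]
    linarith
  · have h := mul_le_mul_of_nonneg_left
      (Real.log_le_sub_one_of_pos (div_pos (half_pos hv) hu)) hu.le
    rw [Real.log_div (half_pos hv).ne' hu.ne', Real.log_div hv.ne' two_ne_zero,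
      mul_sub u (v / 2 / u), mul_div_cancel₀ _ hu.ne'] at h
    have h3 := mul_le_mul_of_nonneg_left Real.log_two_lt_d9.le hu.le
    linarith

theorem lld_six {η x₁ x₂ x₃ x₄ x₅ x₆ y₁ y₂ y₃ y₄ y₅ y₆ : ℝ} (h : 0 ≤ η)
    (h₁ : 0 ≤ x₁ ∧ 0 ≤ y₁ ∧ (y₁ = 1 ∨ η ≤ x₁)) (h₂ : 0 ≤ x₂ ∧ 0 ≤ y₂ ∧ (y₂ = 1 ∨ η ≤ x₂))
    (h₃ : 0 ≤ x₃ ∧ 0 ≤ y₃ ∧ (y₃ = 1 ∨ η ≤ x₃)) (h₄ : 0 ≤ x₄ ∧ 0 ≤ y₄ ∧ (y₄ = 1 ∨ η ≤ x₄))
    (h₅ : 0 ≤ x₅ ∧ 0 ≤ y₅ ∧ (y₅ = 1 ∨ η ≤ x₅)) (h₆ : 0 ≤ x₆ ∧ 0 ≤ y₆ ∧ (y₆ = 1 ∨ η ≤ x₆)) :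
    η ^ 6 * (1 - (y₁ + y₂ + y₃ + y₄ + y₅ + y₆)) ≤ x₁ * x₂ * x₃ * x₄ * x₅ * x₆ := by
  obtain ⟨a₁, b₁, c₁⟩ := h₁
  obtain ⟨a₂, b₂, c₂⟩ := h₂
  obtain ⟨a₃, b₃, c₃⟩ := h₃
  obtain ⟨a₄, b₄, c₄⟩ := h₄
  obtain ⟨a₅, b₅, c₅⟩ := h₅
  obtain ⟨a₆, b₆, c₆⟩ := h₆
  by_cases e : 1 ≤ y₁ + y₂ + y₃ + y₄ + y₅ + y₆
  · exact (mul_nonpos_of_nonneg_of_nonpos (pow_nonneg h 6) (sub_nonpos.2 e)).trans
      (by positivity)
  · have d₁ := c₁.resolve_left fun _ => e (by linarith)
    have d₂ := c₂.resolve_left fun _ => e (by linarith)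
    have d₃ := c₃.resolve_left fun _ => e (by linarith)
    have d₄ := c₄.resolve_left fun _ => e (by linarith)
    have d₅ := c₅.resolve_left fun _ => e (by linarith)
    have d₆ := c₆.resolve_left fun _ => e (by linarith)
    refine (mul_le_of_le_one_right (pow_nonneg h 6) (by linarith)).trans ?_
    calc η ^ 6 = η * η * η * η * η * η := by ring
      _ ≤ _ := by gcongr

theorem lld_pair {r : Setoid V} (M : Matrix V V ℝ) {K : V → V → ℝ}
    (h1 : ∀ a a', r a a' → ∀ b, K a b = K a' b) (h2 : ∀ b b', r b b' → ∀ a, K a b = K a b') :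
    ∑ a, ∑ b, (av r * M * av r) a b * K a b = ∑ a, ∑ b, M a b * K a b := by
  have e1 : av r * Matrix.of K = Matrix.of K := by
    ext a b
    rw [Matrix.mul_apply]
    exact av_fix r (u := fun x => K x b) (fun x y e => h1 x y e b) a
  have e2 : Matrix.of K * av r = Matrix.of K := by
    ext a b
    rw [Matrix.mul_apply]
    refine Eq.trans (sum_congr rfl fun c _ => ?_)
      (av_fix r (u := fun x => K a x) (fun x y e => h2 x y e a) b)
    rw [mul_comm, av_symm r c b]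
    rfl
  have e3 := pair_right r (av r * M) (Matrix.of K)
  rw [e2, pair_left, e1] at e3
  exact e3

theorem lld_meas {r r' : Setoid V} (h : r' ≤ r) {M : Matrix V V ℝ} (hs : ∀ a b, M a b = M b a)
    (φ : ℝ → ℝ) : ∑ a, ∑ b, (av r' * M * av r') a b * φ ((av r * M * av r) a b) =
      ∑ a, ∑ b, (av r * M * av r) a b * φ ((av r * M * av r) a b) := by
  have h1 : ∀ a a', r a a' → ∀ b, (av r * M * av r) a b = (av r * M * av r) a' b := by
    intro a a' e b
    simp only [Matrix.mul_apply, av_congr r e]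
  have h2 : ∀ b b', r b b' → ∀ a, (av r * M * av r) a b = (av r * M * av r) a b' := by
    intro b b' e a
    rw [llc_sym hs r a b, llc_sym hs r a b', h1 b b' e]
  rw [lld_pair (r := r') M (fun a a' e b => by rw [h1 a a' (h e)])
    (fun b b' e a => by rw [h2 b b' (h e)]), lld_pair (r := r) M (fun a a' e b => by rw [h1 a a' e])
    (fun b b' e a => by rw [h2 b b' e])]

/-- The entropy. -/
noncomputable def Ent (M : Matrix V V ℝ) (r : Setoid V) : ℝ :=
  ∑ a, ∑ b, (av r * M * av r) a b * Real.log ((av r * M * av r) a b)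

theorem lld_tot [Nonempty V] (X : V → V → V → V → ℝ) (r : Setoid V) :
    Fintype.card V * ∑ a, ∑ b, (av r * mg X * av r) a b = S4 X := by
  have hn : (Fintype.card V : ℝ) ≠ 0 := Nat.cast_ne_zero.2 Fintype.card_ne_zero
  have e := lld_pair (r := r) (mg X) (K := fun _ _ => 1) (fun _ _ _ _ => rfl) fun _ _ _ _ => rfl
  simp only [mul_one] at e
  rw [e]
  simp only [mg, Matrix.of_apply, ← sum_div, S4]
  field_simp

theorem lld_ent_le {M : Matrix V V ℝ} (hM : Ut M) (r : Setoid V) : Ent M r ≤ 0 :=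
  sum_nonpos fun a _ => sum_nonpos fun b _ =>
    Real.mul_log_nonpos ((hM.left r).right r a b).1 ((hM.left r).right r a b).2

theorem lld_le_ent [Nonempty V] {X : V → V → V → V → ℝ} (hX : Wt X) (r : Setoid V) {δ : ℝ}
    (h0 : 0 < δ) (hδ : S4 X = δ * (Fintype.card V : ℝ) ^ 3) :
    δ * Real.log δ * (Fintype.card V : ℝ) ^ 2 ≤ Ent (mg X) r := by
  have hn : (0 : ℝ) < Fintype.card V := Nat.cast_pos.2 Fintype.card_pos
  have e : ∑ a, ∑ b, (av r * mg X * av r) a b = δ * (Fintype.card V : ℝ) ^ 2 :=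
    mul_left_cancel₀ hn.ne' (by rw [lld_tot, hδ]; ring)
  have h := sum_nonneg (s := univ) fun a _ => sum_nonneg (s := univ) fun b _ =>
    lld_psi0 ((hX.ut.left r).right r a b).1 h0
  simp only [sum_add_distrib, sum_sub_distrib, ← sum_mul, e, sum_const, card_univ,
    nsmul_eq_mul] at h
  rw [Ent]
  nlinarith

theorem lld_bad {M : Matrix V V ℝ} (hM : Ut M) (hs : ∀ a b, M a b = M b a) {r r' : Setoid V}
    (h : r' ≤ r) {η : ℝ} (h0 : 0 ≤ η) :
    ∑ a, ∑ b, (av r * M * av r) a b * (if (av r' * M * av r') a b < η then 1 else 0) ≤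
      2 * η * (Fintype.card V : ℝ) ^ 2 + 8 * (Ent M r' - Ent M r) := by
  have u := (hM.left r).right r
  have u' := (hM.left r').right r'
  have z : ∀ a b, (av r * M * av r) a b = 0 → (av r' * M * av r') a b = 0 := by
    intro a b e
    have e1 := lld_meas h hs fun x => if x = 0 then 1 else 0
    have e2 : ∀ x : ℝ, x * (if x = 0 then 1 else 0) = 0 := fun x => by
      split_ifs with hx
      · rw [hx, zero_mul]
      · rw [mul_zero]
    simp only [e2, sum_const_zero] at e1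
    have p : ∀ a b, 0 ≤ (av r' * M * av r') a b *
        (if (av r * M * av r) a b = 0 then (1 : ℝ) else 0) := fun a b =>
      mul_nonneg (u' a b).1 (by split_ifs <;> norm_num)
    have e3 := (sum_eq_zero_iff_of_nonneg fun b _ => p a b).1
      ((sum_eq_zero_iff_of_nonneg fun a _ => sum_nonneg fun b _ => p a b).1 e1 a (mem_univ a)) b
      (mem_univ b)
    rwa [if_pos e, mul_one] at e3
  have e1 := lld_meas h hs Real.log
  have e2 := lld_meas h hs fun _ => 1
  simp only [mul_one] at e2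
  refine (sum_le_sum (g := fun a => ∑ b, (2 * η + 8 * ((av r' * M * av r') a b *
    Real.log ((av r' * M * av r') a b) - (av r' * M * av r') a b *
    Real.log ((av r * M * av r) a b) - (av r' * M * av r') a b + (av r * M * av r) a b)))
    fun a _ => sum_le_sum fun b _ => ?_).trans_eq ?_
  · rcases (u a b).1.eq_or_lt with e | e
    · rw [z a b e.symm, ← e]
      simpa using h0
    · have p0 := lld_psi0 (u' a b).1 e
      split_ifs with c
      · by_cases c' : (av r * M * av r) a b ≤ 2 * η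
        · linarith
        · have := lld_psi1 (u' a b).1 e (by linarith)
          linarith
      · linarith
  · simp only [sum_add_distrib, sum_sub_distrib, ← mul_sum, e1, e2, sum_const, card_univ,
      nsmul_eq_mul, Ent]
    ring

theorem lld_low [Nonempty V] {X : V → V → V → V → ℝ} (hX : Wt X) {r r' : Setoid V} (h : r' ≤ r)
    {δ : ℝ} (h0 : 0 < δ) (hδ : S4 X = δ * (Fintype.card V : ℝ) ^ 3)
    (hE : Ent (mg X) r' - Ent (mg X) r ≤ δ / 192 * (Fintype.card V : ℝ) ^ 2)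
    {D : Matrix V V ℝ} (hD : D = av r' * mg X * av r') :
    (δ / 64) ^ 6 * (δ / 2 * (Fintype.card V : ℝ) ^ 3) ≤ QQ (sm r X) D D D D D D := by
  have hn : (0 : ℝ) < Fintype.card V := Nat.cast_pos.2 Fintype.card_pos
  have hY := hX.sm r
  obtain ⟨β, hβ⟩ : ∃ β : V → V → ℝ, β = fun a b => if D a b < δ / 64 then 1 else 0 := ⟨_, rfl⟩
  obtain ⟨o, ho⟩ : ∃ o : V → V → ℝ, o = fun _ _ => 1 := ⟨_, rfl⟩
  have sD : ∀ a b, D a b = D b a := hD ▸ llc_sym hX.symm r'
  have sβ : ∀ a b, β a b = β b a := fun a b => by simp only [hβ, sD a b]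
  have so : ∀ a b, o a b = o b a := fun a b => by rw [ho]
  have k : ∀ a b, 0 ≤ D a b ∧ 0 ≤ β a b ∧ (β a b = 1 ∨ δ / 64 ≤ D a b) := fun a b => by
    refine ⟨hD ▸ ((hX.ut.left r').right r' a b).1, ?_⟩
    simp only [hβ]
    split_ifs with c
    · exact ⟨zero_le_one, Or.inl rfl⟩
    · exact ⟨le_rfl, Or.inr (not_lt.1 c)⟩
  have m : ∀ A : V → V → ℝ, QQ (sm r X) A o o o o o =
      Fintype.card V * ∑ a, ∑ b, (av r * mg X * av r) a b * A a b := fun A => by
    simp only [QQ, S4, ho, mul_one, ← sum_mul, sm_mg, mul_sum, mul_assoc]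
  have b1 := lld_bad hX.ut hX.symm h (η := δ / 64) (by positivity)
  rw [← hD] at b1
  have b2 : QQ (sm r X) β o o o o o ≤ δ / 12 * (Fintype.card V : ℝ) ^ 3 := by
    rw [m, hβ]
    nlinarith [mul_le_mul_of_nonneg_left b1 hn.le, mul_le_mul_of_nonneg_left hE hn.le,
      mul_pos h0 (pow_pos hn 3)]
  have b3 : QQ (sm r X) o o o o o o = δ * (Fintype.card V : ℝ) ^ 3 := by
    rw [m, ho, ← hδ, ← lld_tot X r]
    simp only [mul_one]
  have e2 := QQ_2 hY so o β o o o
  have e3 := QQ_3 hY so o o β o o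
  have e4 := QQ_1 hY so o o β o o
  have e5 := QQ_1 hY so o o o β o
  have e6 := QQ_2 hY so o o o o β
  have c : (δ / 64) ^ 6 * QQ (sm r X) o o o o o o ≤ QQ (sm r X) D D D D D D +
      (δ / 64) ^ 6 * (QQ (sm r X) β o o o o o + QQ (sm r X) o β o o o o +
        QQ (sm r X) o o β o o o + QQ (sm r X) o o o β o o + QQ (sm r X) o o o o β o +
        QQ (sm r X) o o o o o β) := by
    simp only [QQ, ← S4_add, ← S4_mul]
    refine S4_mono fun a b c d => ?_
    have := mul_le_mul_of_nonneg_left (lld_six (by positivity) (k a b) (k a c) (k a d) (k b c)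
      (k b d) (k c d)) (hY.pos a b c d)
    simp only [ho]
    linarith
  rw [e6, e5, e4, e3, e2, b3] at c
  nlinarith [mul_le_mul_of_nonneg_left b2 (pow_pos (show 0 < δ / 64 by positivity) 6).le]

theorem lld_up {X : V → V → V → V → ℝ} (hX : Wt X)
    (hK : ∀ a b c d, mg X a b * mg X a c * mg X a d * mg X b c * mg X b d * mg X c d ≤
      3 * X a b c d) (r : Setoid V) :
    QQ (sm r X) (mg X) (mg X) (mg X) (mg X) (mg X) (mg X) ≤
      3 * tr r * (Fintype.card V : ℝ) ^ 2 := by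
  refine (S4_mono (g := fun a b c d => av r d d * (3 * X a b c d)) fun a b c d => ?_).trans ?_
  · have u := fun a b => (hX.ut a b).1
    refine le_trans (le_of_eq (by ring)) (mul_le_mul (hX.sm_le r a b c d) (hK a b c d)
      (mul_nonneg (mul_nonneg (mul_nonneg (mul_nonneg (mul_nonneg (u _ _) (u _ _)) (u _ _))
        (u _ _)) (u _ _)) (u _ _)) (av_pos r d d))
  · rw [S4_3, S4]
    simp only [← mul_sum]
    refine (sum_le_sum fun a _ => sum_le_sum fun b _ => sum_le_sum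
      (g := fun c => av r c c * 3) fun c _ => mul_le_mul_of_nonneg_left
        (mul_le_of_le_one_right (by norm_num) ?_) (av_pos r c c)).trans_eq ?_
    · exact (sum_congr rfl fun d _ => hX.s3 a b d c).trans_le (hX.row a b c)
    · simp only [← sum_mul, sum_const, card_univ, nsmul_eq_mul, tr]
      ring

theorem lld_nat {p i : ℕ} (h : i ≤ 192 * p) :
    2 ^ (i * (7 * (7 * p + 43) + 7)) + (7 * p + 39) ≤ 2 ^ (60000 * (p + 1) ^ 2) := by
  have h1 : 2 ^ (i * (7 * (7 * p + 43) + 7)) ≤ 2 ^ (59136 * (p + 1) ^ 2) :=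
    Nat.pow_le_pow_right two_pos ((Nat.mul_le_mul_right _ h).trans (by nlinarith))
  have h2 : 59136 * (p + 1) ^ 2 < 2 ^ (59136 * (p + 1) ^ 2) := Nat.lt_two_pow_self
  have h3 : 2 ^ (59136 * (p + 1) ^ 2 + 1) ≤ 2 ^ (60000 * (p + 1) ^ 2) :=
    Nat.pow_le_pow_right two_pos (by nlinarith)
  have h4 : 7 * p + 39 ≤ 59136 * (p + 1) ^ 2 := by nlinarith
  rw [pow_succ] at h3
  omega

theorem loglog [Nonempty V] {X : V → V → V → V → ℝ} (hX : Wt X)
    (hK : ∀ a b c d, mg X a b * mg X a c * mg X a d * mg X b c * mg X b d * mg X c d ≤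
      3 * X a b c d) {p : ℕ} (hp : (1 / 2) ^ p * (Fintype.card V : ℝ) ^ 3 ≤ S4 X) :
    (Fintype.card V : ℝ) ≤ 2 ^ 2 ^ (60000 * (p + 1) ^ 2) := by
  have hn : (0 : ℝ) < Fintype.card V := Nat.cast_pos.2 Fintype.card_pos
  by_contra hc
  rw [not_le] at hc
  obtain ⟨δ, hδ⟩ : ∃ δ, S4 X = δ * (Fintype.card V : ℝ) ^ 3 :=
    ⟨S4 X / (Fintype.card V : ℝ) ^ 3, by field_simp⟩
  have hu : (1 / 2) ^ p ≤ δ := le_of_mul_le_mul_right (hδ ▸ hp) (pow_pos hn 3)
  have h0 : 0 < δ := lt_of_lt_of_le (by positivity) hu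
  have key : ∀ i ≤ 192 * p + 1, ∃ r : Setoid V, 2 * tr r ≤ 2 ^ 2 ^ (i * (7 * (7 * p + 43) + 7)) ∧
      (δ * Real.log δ + i * (δ / 192)) * (Fintype.card V : ℝ) ^ 2 ≤ Ent (mg X) r := by
    intro i
    induction i with
    | zero => exact fun _ => ⟨⊤, by simp [tr_top], by simpa using lld_le_ent hX ⊤ h0 hδ⟩
    | succ i ih =>
      intro hi
      obtain ⟨r, h1, h2⟩ := ih (by omega)
      obtain ⟨r', h3, h4, h5⟩ := round hX r (7 * p + 43) h1
      refine ⟨r', by rwa [Nat.succ_mul], ?_⟩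
      by_contra h6
      push_cast at h6
      have a1 := lld_low hX h3 h0 hδ (by linarith) rfl
      have a2 := h5.count (hX.sm r) hX.ut hX.symm rfl
      have a3 := lld_up hX hK r
      have a4 : (2 : ℝ) ^ (2 ^ (i * (7 * (7 * p + 43) + 7)) + (7 * p + 39)) < Fintype.card V :=
        (pow_le_pow_right₀ one_le_two (lld_nat (by omega))).trans_lt hc
      obtain ⟨u, hu'⟩ : ∃ u : ℝ, u = ((1 / 2) ^ p) ^ 7 := ⟨_, rfl⟩
      have u0 : 0 < u := by rw [hu']; positivity
      have a5 : u ≤ δ ^ 7 := hu' ▸ pow_le_pow_left₀ (by positivity) hu 7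
      have a6 : ((1 : ℝ) / 2) ^ (7 * p + 43) = u / 2 ^ 43 := by
        rw [hu', pow_add, mul_comm 7 p, pow_mul]
        norm_num
        ring
      have a7 : u * 2 ^ (7 * p + 39) = 2 ^ 39 := by
        rw [hu', pow_add, mul_comm 7 p, pow_mul, ← mul_assoc, ← mul_pow, ← mul_pow]
        norm_num
      rw [pow_add] at a4
      have a8 := mul_lt_mul_of_pos_left
        ((mul_le_mul_of_nonneg_right h1 (by positivity)).trans_lt a4) u0
      rw [mul_left_comm, a7] at a8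
      rw [a6] at a2
      have a9 := mul_lt_mul_of_pos_right a8 (pow_pos hn 2)
      have a10 := mul_le_mul_of_nonneg_right a5 (pow_pos hn 3).le
      have a11 := mul_nonneg (tr_pos r) (pow_pos hn 2).le
      have a12 := mul_pos u0 (pow_pos hn 3)
      linarith
  obtain ⟨r, -, h⟩ := key _ le_rfl
  have h1 := lld_ent_le hX.ut r
  have h2 : -(p : ℝ) ≤ Real.log δ := by
    refine le_trans ?_ (Real.log_le_log (by positivity) hu)
    rw [Real.log_pow, one_div, Real.log_inv]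
    nlinarith [Real.log_two_lt_d9, Nat.cast_nonneg (α := ℝ) p]
  push_cast at h
  have h3 := mul_le_mul_of_nonneg_left h2 h0.le
  have h4 : 0 < δ * Real.log δ + (192 * p + 1) * (δ / 192) := by nlinarith
  exact absurd (h.trans h1) (not_le.2 (mul_pos h4 (pow_pos hn 2)))

end Pool.Agent.Lib.MP_9afdc0_co
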