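import Mathlib

/-! Systems of triples that span a locally linear graph. -/

namespace Pool.Agent.Lib.MP_9afdc0_co

open Finset

/-- A relation of bounded out-degree has a large independent set. -/
theorem exists_indep {ι : Type} (r : ι → ι → Prop) [DecidableRel r] (k : ℕ) (S : Finset ι)
    (h : ∀ a ∈ S, (S.filter (r a)).card ≤ k) :
    ∃ I ⊆ S, S.card ≤ (2 * k + 1) * I.card ∧ ∀ a ∈ I, ∀ b ∈ I, r a b → a = b := by
  classical
  induction S using Finset.strongInduction with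
  | H S ih =>
    rcases S.eq_empty_or_nonempty with rfl | hS
    · exact ⟨∅, subset_rfl, by simp, by simp⟩
    have h1 : ∑ b ∈ S, (S.filter (fun a => r a b)).card ≤ ∑ _b ∈ S, k := by
      have e := sum_card_bipartiteAbove_eq_sum_card_bipartiteBelow (s := S) (t := S) r
      simp only [bipartiteAbove, bipartiteBelow] at e
      rw [← e]
      exact sum_le_sum h
    obtain ⟨a, ha, hk⟩ := exists_le_of_sum_le hS h1
    have hsub : S.filter (fun b => b ≠ a ∧ ¬ r a b ∧ ¬ r b a) ⊂ S :=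
      ⟨filter_subset _ _, fun e => (mem_filter.1 (e ha)).2.1 rfl⟩
    obtain ⟨I, hI, hc, hi⟩ := ih _ hsub fun b hb =>
      (card_le_card (filter_subset_filter _ hsub.1)).trans (h b (hsub.1 hb))
    have haI : a ∉ I := fun e => (mem_filter.1 (hI e)).2.1 rfl
    refine ⟨insert a I, insert_subset ha (hI.trans hsub.1), ?_, fun x hx y hy hxy => ?_⟩
    · have h2 : S ⊆ S.filter (fun b => b ≠ a ∧ ¬ r a b ∧ ¬ r b a) ∪
          (insert a (S.filter (r a) ∪ S.filter (fun b => r b a))) := fun b hb => by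
        simp only [mem_union, mem_filter, mem_insert]
        tauto
      have h3 := (card_le_card h2).trans (card_union_le _ _)
      have h4 := card_insert_le a (S.filter (r a) ∪ S.filter (fun b => r b a))
      have h5 := card_union_le (S.filter (r a)) (S.filter (fun b => r b a))
      have h6 := h a ha
      rw [card_insert_of_notMem haI, mul_add]
      omega
    · rcases mem_insert.1 hx with rfl | hx' <;> rcases mem_insert.1 hy with rfl | hy'
      · rfl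
      · exact absurd hxy (mem_filter.1 (hI hy')).2.2.1
      · exact absurd hxy (mem_filter.1 (hI hx')).2.2.2
      · exact hi x hx' y hy' hxy

/-- The triples are edge-disjoint and span no further triangle. -/
def Lin {α β γ : Type} (t : Finset (α × β × γ)) : Prop :=
  ∀ a b c a' b' c', (a', b, c) ∈ t → (a, b', c) ∈ t → (a, b, c') ∈ t → a = a' ∧ b = b' ∧ c = c'

theorem Lin.le_rs {α β γ : Type} [Fintype α] [Fintype β] [Fintype γ] {t : Finset (α × β × γ)}
    (h : Lin t) :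
    t.card ≤ ruzsaSzemerediNumberNat (Fintype.card α + (Fintype.card β + Fintype.card γ)) := by
  classical
  have : SimpleGraph.TripartiteFromTriangles.ExplicitDisjoint t :=
    ⟨fun a b c a' h1 h2 => (h a b c a' b c h2 h1 h1).1,
      fun a b c b' h1 h2 => (h a b c a b' c h1 h2 h1).2.1,
      fun a b c c' h1 h2 => (h a b c a b c' h1 h1 h2).2.2⟩
  have : SimpleGraph.TripartiteFromTriangles.NoAccidental t :=
    ⟨fun a a' b b' c c' h1 h2 h3 => Or.inl (h a b c a' b' c' h1 h2 h3).1⟩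
  rw [← Fintype.card_sum, ← Fintype.card_sum, ruzsaSzemerediNumberNat_card,
    ← SimpleGraph.TripartiteFromTriangles.card_triangles t]
  exact (SimpleGraph.TripartiteFromTriangles.locallyLinear t).le_ruzsaSzemerediNumber

theorem exists_code {α : Type} {n : ℕ} (hn : 3 ≤ n) (A : Finset α) (hA : A.card ≤ n) :
    ∃ e : α → Fin 6 × Fin (n / 3), Set.InjOn e A := by
  classical
  have : Nonempty (Fin (n / 3)) := ⟨⟨0, by omega⟩⟩
  obtain ⟨f⟩ : Nonempty (A ↪ Fin 6 × Fin (n / 3)) := Function.Embedding.nonempty_of_card_le (by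
    simp only [Fintype.card_coe, Fintype.card_prod, Fintype.card_fin]
    omega)
  exact Set.exists_injOn_iff_injective.2 ⟨f, f.injective⟩

theorem Lin.le_mul {α β γ : Type} {t : Finset (α × β × γ)} (h : Lin t) {n : ℕ} (hn : 3 ≤ n)
    {A : Finset α} {B : Finset β} {C : Finset γ} (hA : A.card ≤ n) (hB : B.card ≤ n)
    (hC : C.card ≤ n) (ht : ∀ x ∈ t, x.1 ∈ A ∧ x.2.1 ∈ B ∧ x.2.2 ∈ C) :
    t.card ≤ 216 * ruzsaSzemerediNumberNat n := by
  classical
  obtain ⟨eA, iA⟩ := exists_code hn A hA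
  obtain ⟨eB, iB⟩ := exists_code hn B hB
  obtain ⟨eC, iC⟩ := exists_code hn C hC
  have key := card_le_mul_card_image_of_maps_to (s := t) (t := univ)
    (f := fun x => ((eA x.1).1, (eB x.2.1).1, (eC x.2.2).1)) (fun _ _ => mem_univ _)
    (ruzsaSzemerediNumberNat n) fun i _ => ?_
  · rw [mul_comm] at key
    exact key
  set F := t.filter (fun x => ((eA x.1).1, (eB x.2.1).1, (eC x.2.2).1) = i) with hF
  have j1 : ∀ x ∈ F, ∀ y ∈ F, (eA x.1).2 = (eA y.1).2 → x.1 = y.1 := fun x hx y hy e => by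
    obtain ⟨x1, x2⟩ := mem_filter.1 hx
    obtain ⟨y1, y2⟩ := mem_filter.1 hy
    exact iA (ht x x1).1 (ht y y1).1 (Prod.ext (congrArg (·.1) (x2.trans y2.symm)) e)
  have j2 : ∀ x ∈ F, ∀ y ∈ F, (eB x.2.1).2 = (eB y.2.1).2 → x.2.1 = y.2.1 := fun x hx y hy e => by
    obtain ⟨x1, x2⟩ := mem_filter.1 hx
    obtain ⟨y1, y2⟩ := mem_filter.1 hy
    exact iB (ht x x1).2.1 (ht y y1).2.1 (Prod.ext (congrArg (·.2.1) (x2.trans y2.symm)) e)
  have j3 : ∀ x ∈ F, ∀ y ∈ F, (eC x.2.2).2 = (eC y.2.2).2 → x.2.2 = y.2.2 := fun x hx y hy e => by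
    obtain ⟨x1, x2⟩ := mem_filter.1 hx
    obtain ⟨y1, y2⟩ := mem_filter.1 hy
    exact iC (ht x x1).2.2 (ht y y1).2.2 (Prod.ext (congrArg (·.2.2) (x2.trans y2.symm)) e)
  have hl : Lin (F.image fun x => ((eA x.1).2, (eB x.2.1).2, (eC x.2.2).2)) := by
    intro a b c a' b' c' h1 h2 h3
    obtain ⟨⟨x1, x2, x3⟩, hx, ex⟩ := mem_image.1 h1
    obtain ⟨⟨y1, y2, y3⟩, hy, ey⟩ := mem_image.1 h2
    obtain ⟨⟨z1, z2, z3⟩, hz, ez⟩ := mem_image.1 h3
    simp only [Prod.mk.injEq] at ex ey ez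
    obtain rfl : y1 = z1 := j1 _ hy _ hz (ey.1.trans ez.1.symm)
    obtain rfl : x2 = z2 := j2 _ hx _ hz (ex.2.1.trans ez.2.1.symm)
    obtain rfl : x3 = y3 := j3 _ hx _ hy (ex.2.2.trans ey.2.2.symm)
    obtain ⟨rfl, rfl, rfl⟩ :=
      h _ _ _ _ _ _ (mem_filter.1 hx).1 (mem_filter.1 hy).1 (mem_filter.1 hz).1
    exact ⟨ey.1.symm.trans ex.1, ex.2.1.symm.trans ey.2.1, ex.2.2.symm.trans ez.2.2⟩
  have h2 := hl.le_rs
  rw [card_image_of_injOn fun x hx y hy e => Prod.ext (j1 x hx y hy (congrArg (·.1) e))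
    (Prod.ext (j2 x hx y hy (congrArg (·.2.1) e)) (j3 x hx y hy (congrArg (·.2.2) e)))] at h2
  refine h2.trans (ruzsaSzemerediNumberNat_mono ?_)
  simp only [Fintype.card_fin]
  omega

open Classical in
/-- Pairs covered by almost induced matchings. -/
theorem cov_le {Γ U W : Type} [Fintype Γ] [Fintype U] [Fintype W] (x : Γ → U → Prop)
    (y : Γ → W → Prop) (h : U → W → Prop)
    (h1 : ∀ g u, x g u → (univ.filter fun v => y g v ∧ h u v).card ≤ 3)
    (h2 : ∀ g v, y g v → (univ.filter fun u => x g u ∧ h u v).card ≤ 3) {n : ℕ} (hn : 3 ≤ n)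
    {A : Finset U} {B : Finset W} (hΓ : Fintype.card Γ ≤ n) (hA : A.card ≤ n) (hB : B.card ≤ n)
    (S : Finset (U × W)) (hS : ∀ p ∈ S, p.1 ∈ A ∧ p.2 ∈ B ∧ h p.1 p.2 ∧ ∃ g, x g p.1 ∧ y g p.2) :
    S.card ≤ 2808 * ruzsaSzemerediNumberNat n := by
  rcases S.eq_empty_or_nonempty with rfl | ⟨p₀, hp₀⟩
  · simp
  obtain ⟨g₀, -⟩ := (hS p₀ hp₀).2.2.2
  have hc : ∀ p : U × W, ∃ g, p ∈ S → x g p.1 ∧ y g p.2 := fun p => by
    by_cases hp : p ∈ S
    · exact (hS p hp).2.2.2.imp fun g hg _ => hg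
    · exact ⟨g₀, fun e => absurd e hp⟩
  choose g hg using hc
  obtain ⟨I, hI, hcard, hind⟩ := exists_indep (fun p q : U × W =>
      (q.1 = p.1 ∧ y (g p) q.2 ∧ h p.1 q.2) ∨ (q.2 = p.2 ∧ x (g p) q.1 ∧ h q.1 p.2)) 6 S
    fun p hp => by
      refine (card_le_card (t := ((univ.filter fun v => y (g p) v ∧ h p.1 v).image (p.1, ·)) ∪
        ((univ.filter fun u => x (g p) u ∧ h u p.2).image (·, p.2))) fun q hq => ?_).trans ?_
      · rcases (mem_filter.1 hq).2 with e | e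
        · exact mem_union_left _ (mem_image.2 ⟨q.2, mem_filter.2 ⟨mem_univ _, e.2⟩,
            Prod.ext e.1.symm rfl⟩)
        · exact mem_union_right _ (mem_image.2 ⟨q.1, mem_filter.2 ⟨mem_univ _, e.2⟩,
            Prod.ext rfl e.1.symm⟩)
      · exact (card_union_le _ _).trans (add_le_add (card_image_le.trans (h1 _ _ (hg p hp).1))
          (card_image_le.trans (h2 _ _ (hg p hp).2)))
  have hm : ∀ a b c, (a, b, c) ∈ I.image (fun p => (g p, p)) → (b, c) ∈ I ∧ g (b, c) = a := by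
    intro a b c e
    obtain ⟨p, hp, e⟩ := mem_image.1 e
    obtain ⟨rfl, rfl⟩ := Prod.mk.inj e
    exact ⟨hp, rfl⟩
  have hl : Lin (I.image fun p => (g p, p)) := by
    intro a b c a' b' c' e1 e2 e3
    obtain ⟨m1, rfl⟩ := hm _ _ _ e1
    obtain ⟨m2, f2⟩ := hm _ _ _ e2
    obtain ⟨m3, f3⟩ := hm _ _ _ e3
    have q1 := hind _ m3 _ m1 (Or.inl ⟨rfl, f3 ▸ f2 ▸ (hg _ (hI m2)).2, (hS _ (hI m1)).2.2.1⟩)
    have q2 := hind _ m2 _ m1 (Or.inr ⟨rfl, f2 ▸ f3 ▸ (hg _ (hI m3)).1, (hS _ (hI m1)).2.2.1⟩)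
    exact ⟨q1 ▸ f3.symm, (Prod.mk.inj q2).1.symm, (Prod.mk.inj q1).2.symm⟩
  have h3 := hl.le_mul hn (A := univ) hΓ hA hB fun z hz => by
    obtain ⟨p, hp, rfl⟩ := mem_image.1 hz
    exact ⟨mem_univ _, (hS p (hI hp)).1, (hS p (hI hp)).2.1⟩
  rw [card_image_of_injective _ fun p q e => (Prod.mk.inj e).2] at h3
  omega

open Classical in
/-- The same after a blow-up of a box. -/
theorem blow_le {Γ V : Type} [Fintype Γ] [Fintype V] (X : Γ → V → Prop) (h : V → V → Prop)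
    (hs : ∀ u v, h u v → h v u)
    (h1 : ∀ g u, X g u → (univ.filter fun v => X g v ∧ h u v).card ≤ 3) {n : ℕ} (hn : 3 ≤ n)
    {A B : Finset V} {k l : ℕ} (hΓ : Fintype.card Γ * (k * l) ≤ n) (hA : A.card * k ≤ n)
    (hB : B.card * l ≤ n) (S : Finset (V × V))
    (hS : ∀ p ∈ S, p.1 ∈ A ∧ p.2 ∈ B ∧ h p.1 p.2 ∧ ∃ g, X g p.1 ∧ X g p.2) :
    S.card * (k * l) ≤ 2808 * ruzsaSzemerediNumberNat n := by
  have key := cov_le (Γ := Γ × Fin k × Fin l) (U := V × Fin k) (W := V × Fin l)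
    (fun g u => X g.1 u.1 ∧ u.2 = g.2.1) (fun g v => X g.1 v.1 ∧ v.2 = g.2.2)
    (fun u v => h u.1 v.1) ?_ ?_ hn (A := A ×ˢ univ) (B := B ×ˢ univ) (by simpa using hΓ)
    (by simpa using hA) (by simpa using hB)
    ((S ×ˢ (univ : Finset (Fin k × Fin l))).image fun z => ((z.1.1, z.2.1), (z.1.2, z.2.2))) ?_
  · rw [card_image_of_injective] at key
    · simpa using key
    · rintro ⟨⟨a, b⟩, c, d⟩ ⟨⟨a', b'⟩, c', d'⟩ e
      simp only [Prod.mk.injEq] at e ⊢
      tauto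
  · intro g u hu
    refine (card_le_card_of_injOn (fun v => v.1) (fun v hv => ?_) fun v hv w hw e => ?_).trans
      (h1 g.1 u.1 hu.1)
    · simp only [coe_filter, mem_univ, true_and, Set.mem_ofPred_eq] at hv ⊢
      exact ⟨hv.1.1, hv.2⟩
    · simp only [coe_filter, mem_univ, true_and, Set.mem_ofPred_eq] at hv hw
      exact Prod.ext e (hv.1.2.trans hw.1.2.symm)
  · intro g u hu
    refine (card_le_card_of_injOn (fun v => v.1) (fun v hv => ?_) fun v hv w hw e => ?_).trans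
      (h1 g.1 u.1 hu.1)
    · simp only [coe_filter, mem_univ, true_and, Set.mem_ofPred_eq] at hv ⊢
      exact ⟨hv.1.1, hs _ _ hv.2⟩
    · simp only [coe_filter, mem_univ, true_and, Set.mem_ofPred_eq] at hv hw
      exact Prod.ext e (hv.1.2.trans hw.1.2.symm)
  · intro p hp
    obtain ⟨z, hz, rfl⟩ := mem_image.1 hp
    obtain ⟨a1, a2, a3, g, a4, a5⟩ := hS z.1 (mem_product.1 hz).1
    exact ⟨mem_product.2 ⟨a1, mem_univ _⟩, mem_product.2 ⟨a2, mem_univ _⟩, a3,
      (g, z.2), ⟨a4, rfl⟩, a5, rfl⟩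

end Pool.Agent.Lib.MP_9afdc0_co
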