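import Mathlib

/-! Sampling, and a localisation lemma for set systems. -/

namespace Pool.Agent.Lib.MP_9afdc0_co

open Finset

open Classical in
theorem exists_sample {σ τ : Type} [Nonempty σ] (S : Finset σ) (F : Finset τ) (r : σ → τ → Prop)
    (m : ℕ) (w : τ → ℝ) {B : ℝ} (hB : 0 ≤ B)
    (hw : ∀ f ∈ F, 0 ≤ w f ∧ w f ≤ B ∧
      w f ≤ m * (((S.filter fun e => r e f).card : ℝ) / S.card)) :
    ∃ g : Fin m → σ, ∑ f ∈ F, w f ≤ (1 + B) * (F.filter fun f => ∃ i, r (g i) f).card := by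
  rcases S.eq_empty_or_nonempty with rfl | hS
  · refine ⟨fun _ => Classical.arbitrary σ, (sum_nonpos fun f hf => ?_).trans (by positivity)⟩
    simpa using (hw f hf).2.2
  have hN : (0 : ℝ) < S.card := by exact_mod_cast hS.card_pos
  have hΩ : (Fintype.piFinset fun _ : Fin m => S).Nonempty := Fintype.piFinset_nonempty.2 fun _ => hS
  have key : ∑ _g ∈ Fintype.piFinset fun _ : Fin m => S, ∑ f ∈ F, w f ≤
      ∑ g ∈ Fintype.piFinset fun _ : Fin m => S,
        (1 + B) * ((F.filter fun f => ∃ i, r (g i) f).card : ℝ) := by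
    simp only [card_filter, Nat.cast_sum, mul_sum]
    rw [sum_comm, sum_comm (t := F)]
    refine sum_le_sum fun f hf => ?_
    obtain ⟨w0, w1, w2⟩ := hw f hf
    rw [← mul_sum, ← Nat.cast_sum, ← card_filter, sum_const, nsmul_eq_mul]
    have e1 := card_filter_add_card_filter_not (s := Fintype.piFinset fun _ : Fin m => S)
      fun g => ∃ i, r (g i) f
    have e2 : ((Fintype.piFinset fun _ : Fin m => S).filter fun g => ¬ ∃ i, r (g i) f) =
        Fintype.piFinset fun _ : Fin m => S.filter fun e => ¬ r e f := by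
      ext g
      simp only [mem_filter, Fintype.mem_piFinset, not_exists, forall_and]
    have e3 := card_filter_add_card_filter_not (s := S) fun e => r e f
    rw [e2] at e1
    simp only [Fintype.card_piFinset, prod_const, card_univ, Fintype.card_fin] at e1 ⊢
    obtain ⟨p, hp⟩ : ∃ p : ℝ, p = ((S.filter fun e => r e f).card : ℝ) / S.card := ⟨_, rfl⟩
    rw [← hp] at w2
    have p0 : 0 ≤ p := by
      rw [hp]
      positivity
    have e4 : ((S.filter fun e => ¬ r e f).card : ℝ) = S.card * (1 - p) := by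
      rw [hp, mul_sub, mul_one, mul_div_cancel₀ _ hN.ne', eq_sub_iff_add_eq']
      exact_mod_cast e3
    have p1 : 0 ≤ 1 - p := by
      refine nonneg_of_mul_nonneg_right ?_ hN
      rw [← e4]
      positivity
    have e5 : (((Fintype.piFinset fun _ : Fin m => S).filter fun g => ∃ i, r (g i) f).card : ℝ) =
        S.card ^ m * (1 - (1 - p) ^ m) := by
      rw [mul_sub, mul_one, ← mul_pow, ← e4, eq_sub_iff_add_eq]
      exact_mod_cast e1
    have q0 : 0 ≤ (1 - p) ^ m := pow_nonneg p1 m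
    have q1 : (1 - p) ^ m ≤ 1 := pow_le_one₀ p1 (by linarith)
    have q2 : (1 - p) ^ m * (1 + m * p) ≤ 1 := by
      refine (mul_le_mul_of_nonneg_left (one_add_mul_le_pow (by linarith) m) q0).trans ?_
      rw [← mul_pow]
      exact pow_le_one₀ (by positivity) (by nlinarith)
    rw [e5, mul_left_comm]
    push_cast
    refine mul_le_mul_of_nonneg_left ?_ (by positivity)
    nlinarith [mul_le_mul_of_nonneg_left w2 q0, mul_le_mul_of_nonneg_left w1 (sub_nonneg.2 q1)]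
  obtain ⟨g, -, hg⟩ := exists_le_of_sum_le hΩ key
  exact ⟨g, hg⟩

theorem card_le_of_fib {ι κ : Type} [DecidableEq κ] (A B : Finset ι) (f : ι → κ) {c : ℝ}
    (hc : 0 ≤ c) (h : ∀ a ∈ A, ((A.filter fun x => f x = f a).card : ℝ) ≤
      c * (B.filter fun x => f x = f a).card) : (A.card : ℝ) ≤ c * B.card := by
  classical
  have hA := card_eq_sum_card_image f A
  have hB : ∑ k ∈ A.image f, (B.filter fun x => f x = k).card ≤ B.card := by
    rw [sum_card_fiberwise_eq_card_filter]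
    exact card_filter_le _ _
  rw [hA]
  refine le_trans ?_ (mul_le_mul_of_nonneg_left (Nat.cast_le.2 hB) hc)
  push_cast
  rw [mul_sum]
  refine sum_le_sum fun k hk => ?_
  obtain ⟨a, ha, rfl⟩ := mem_image.1 hk
  exact h a ha

variable {Γ V : Type} [Fintype V] (X : Γ → V → Prop)

open Classical in
/-- The sets of the subfamily that contain a point. -/
noncomputable def sg (Λ : Finset Γ) (u : V) : Finset Γ := Λ.filter fun g => X g u

open Classical in
/-- An atom. -/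
noncomputable def atm (Λ α : Finset Γ) : Finset V := univ.filter fun u => sg X Λ u = α

open Classical in
/-- The invariant of the refinement. -/
structure Inv (θ β : ℝ) (Λ : Finset Γ) (U : Finset (V × V)) (D : Γ → Finset V) : Prop where
  mU : ∀ p q : V × V, sg X Λ p.1 = sg X Λ q.1 → sg X Λ p.2 = sg X Λ q.2 → p ∈ U → q ∈ U
  cU : (U.card : ℝ) ≤ β
  mD : ∀ g u v, sg X Λ u = sg X Λ v → u ∈ D g → v ∈ D g
  cD : ∀ g, (((D g).filter (X g)).card : ℝ) ≤ θ * (D g).card
  al : ∀ g u v, X g u → X g v → u ∉ D g → v ∉ D g → (∀ g' ∈ Λ, ¬ (X g' u ∧ X g' v)) → (u, v) ∈ U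

variable {X}

omit [Fintype V] in
theorem sg_eq {Λ : Finset Γ} {u v : V} : sg X Λ u = sg X Λ v ↔ ∀ g ∈ Λ, (X g u ↔ X g v) := by
  simp only [sg, Finset.ext_iff, mem_filter, and_congr_right_iff]

theorem mem_atm {Λ α : Finset Γ} {u : V} : u ∈ atm X Λ α ↔ sg X Λ u = α := by
  simp only [atm, mem_filter, mem_univ, true_and]

open Classical in
theorem Inv.fib {θ β : ℝ} {Λ : Finset Γ} {U : Finset (V × V)} {D : Γ → Finset V}
    (h : Inv X θ β Λ U D) {p : V × V} (hp : p ∈ U) :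
    (U.filter fun q => (sg X Λ q.1, sg X Λ q.2) = (sg X Λ p.1, sg X Λ p.2)) =
      atm X Λ (sg X Λ p.1) ×ˢ atm X Λ (sg X Λ p.2) := by
  ext q
  simp only [mem_filter, mem_product, mem_atm, Prod.mk.injEq]
  exact ⟨fun e => e.2, fun e => ⟨h.mU p q e.1.symm e.2.symm hp, e⟩⟩

open Classical in
theorem Inv.step [Nonempty Γ] {θ β : ℝ} (h0 : 0 ≤ θ) (h1 : θ ≤ 1) {Λ : Finset Γ}
    {U : Finset (V × V)} {D : Γ → Finset V} (h : Inv X θ β Λ U D) :
    ∃ Λ' U' D', Λ'.card ≤ Λ.card + 4 ^ Λ.card ∧ Inv X θ ((1 - θ ^ 2) * β) Λ' U' D' := by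
  let dn : Γ → Finset Γ → Prop := fun g α =>
    θ * (atm X Λ α).card ≤ ((atm X Λ α).filter (X g)).card
  have hc : ∀ k : Finset Γ × Finset Γ, ∃ g, (∃ g, dn g k.1 ∧ dn g k.2) → dn g k.1 ∧ dn g k.2 :=
    fun k => by
      by_cases e : ∃ g, dn g k.1 ∧ dn g k.2
      · exact e.imp fun g hg _ => hg
      · exact ⟨Classical.arbitrary Γ, fun e' => absurd e' e⟩
  choose c hc using hc
  have hθ : 0 ≤ 1 - θ ^ 2 := sub_nonneg.2 (pow_le_one₀ h0 h1)
  have hmem : ∀ u v, c (sg X Λ u, sg X Λ v) ∈ Λ ∪ (Λ.powerset ×ˢ Λ.powerset).image c :=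
    fun u v => mem_union_right _ (mem_image_of_mem _ (mem_product.2
      ⟨mem_powerset.2 (filter_subset _ _), mem_powerset.2 (filter_subset _ _)⟩))
  have hres : ∀ u v, sg X (Λ ∪ (Λ.powerset ×ˢ Λ.powerset).image c) u =
      sg X (Λ ∪ (Λ.powerset ×ˢ Λ.powerset).image c) v → sg X Λ u = sg X Λ v := fun u v e =>
    sg_eq.2 fun g hg => sg_eq.1 e g (mem_union_left _ hg)
  refine ⟨Λ ∪ (Λ.powerset ×ˢ Λ.powerset).image c,
    U.filter fun p => dn (c (sg X Λ p.1, sg X Λ p.2)) (sg X Λ p.1) ∧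
      dn (c (sg X Λ p.1, sg X Λ p.2)) (sg X Λ p.2) ∧
      ¬ (X (c (sg X Λ p.1, sg X Λ p.2)) p.1 ∧ X (c (sg X Λ p.1, sg X Λ p.2)) p.2),
    fun g => D g ∪ univ.filter fun u => u ∉ D g ∧ ¬ dn g (sg X Λ u), ?_, ?_, ?_, ?_, ?_, ?_⟩
  · refine (card_union_le _ _).trans (Nat.add_le_add_left (card_image_le.trans ?_) _)
    rw [card_product, card_powerset, ← mul_pow]
    exact le_rfl
  · intro p q e1 e2 hp
    rw [mem_filter] at hp ⊢
    have f1 := hres _ _ e1
    have f2 := hres _ _ e2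
    refine ⟨h.mU p q f1 f2 hp.1, ?_⟩
    rw [← f1, ← f2, ← sg_eq.1 e1 _ (hmem _ _), ← sg_eq.1 e2 _ (hmem _ _)]
    exact hp.2
  · refine le_trans (card_le_of_fib _ U (fun q => (sg X Λ q.1, sg X Λ q.2)) hθ fun p hp => ?_)
      (mul_le_mul_of_nonneg_left h.cU hθ)
    obtain ⟨hp, d1, d2, -⟩ := mem_filter.1 hp
    rw [h.fib hp]
    have hsub : (atm X Λ (sg X Λ p.1)).filter (X (c (sg X Λ p.1, sg X Λ p.2))) ×ˢ
        (atm X Λ (sg X Λ p.2)).filter (X (c (sg X Λ p.1, sg X Λ p.2))) ⊆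
        atm X Λ (sg X Λ p.1) ×ˢ atm X Λ (sg X Λ p.2) :=
      product_subset_product (filter_subset _ _) (filter_subset _ _)
    refine le_trans (Nat.cast_le.2 (card_le_card
      (t := (atm X Λ (sg X Λ p.1) ×ˢ atm X Λ (sg X Λ p.2)) \
      ((atm X Λ (sg X Λ p.1)).filter (X (c (sg X Λ p.1, sg X Λ p.2))) ×ˢ
        (atm X Λ (sg X Λ p.2)).filter (X (c (sg X Λ p.1, sg X Λ p.2))))) fun q hq => ?_)) ?_
    · simp only [mem_filter, Prod.mk.injEq] at hq
      obtain ⟨⟨-, -, -, a⟩, b1, b2⟩ := hq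
      rw [b1, b2] at a
      simp only [mem_sdiff, mem_product, mem_filter, mem_atm]
      exact ⟨⟨b1, b2⟩, fun e => a ⟨e.1.2, e.2.2⟩⟩
    · rw [cast_card_sdiff hsub, card_product, card_product]
      push_cast
      have := mul_le_mul d1 d2 (by positivity) (by positivity)
      linarith
  · intro g u v e hu
    have f := hres _ _ e
    simp only [mem_union, mem_filter, mem_univ, true_and] at hu ⊢
    by_cases hv : v ∈ D g
    · exact Or.inl hv
    · exact Or.inr ⟨hv, f ▸ (hu.resolve_left fun a => hv (h.mD g u v f a)).2⟩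
  · intro g
    have hd : Disjoint (D g) (univ.filter fun u => u ∉ D g ∧ ¬ dn g (sg X Λ u)) :=
      disjoint_left.2 fun u hu hu' => (mem_filter.1 hu').2.1 hu
    have h2 := card_le_of_fib ((univ.filter fun u => u ∉ D g ∧ ¬ dn g (sg X Λ u)).filter (X g))
      (univ.filter fun u => u ∉ D g ∧ ¬ dn g (sg X Λ u)) (sg X Λ) h0 fun u hu => by
        obtain ⟨-, a1, a2⟩ := mem_filter.1 (mem_filter.1 hu).1
        refine (Nat.cast_le.2 (card_le_card (t := (atm X Λ (sg X Λ u)).filter (X g))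
          fun v hv => ?_)).trans ((not_le.1 a2).le.trans (mul_le_mul_of_nonneg_left
            (Nat.cast_le.2 (card_le_card fun v hv => ?_)) h0))
        · simp only [mem_filter, mem_atm] at hv ⊢
          exact ⟨hv.2, hv.1.2⟩
        · rw [mem_atm] at hv
          simp only [mem_filter, mem_univ, true_and]
          exact ⟨⟨fun e => a1 (h.mD g v u hv e), hv ▸ a2⟩, hv⟩
    rw [filter_union, card_union_of_disjoint hd]
    refine (Nat.cast_le.2 (card_union_le _ _)).trans ?_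
    push_cast
    linarith [h.cD g]
  · intro g u v hu hv du dv hn
    simp only [mem_union, mem_filter, mem_univ, true_and, not_or, not_and, not_not] at du dv
    obtain ⟨d1, d2⟩ := hc (sg X Λ u, sg X Λ v) ⟨g, du.2 du.1, dv.2 dv.1⟩
    exact mem_filter.2 ⟨h.al g u v hu hv du.1 dv.1 fun g' hg' => hn g' (mem_union_left _ hg'),
      d1, d2, hn _ (hmem u v)⟩

open Classical in
/-- Outside small exceptional sets, the pairs that lie in a set of the family and in no set of a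
bounded subfamily are covered by boundedly many boxes of small total area. -/
theorem alive {θ : ℝ} (h0 : 0 ≤ θ) (h1 : θ ≤ 1) (J : ℕ) : ∃ G : ℕ, ∀ (Γ V : Type) [Nonempty Γ]
    [Fintype V] (X : Γ → V → Prop), ∃ (Λ : Finset Γ) (T : Finset (Finset Γ × Finset Γ))
      (A : Finset Γ → Finset V) (D : Γ → Finset V), Λ.card ≤ G ∧ T.card ≤ G ∧
      ∑ k ∈ T, ((A k.1).card : ℝ) * (A k.2).card ≤ (1 - θ ^ 2) ^ J * (Fintype.card V : ℝ) ^ 2 ∧
      (∀ g, (((D g).filter (X g)).card : ℝ) ≤ θ * Fintype.card V) ∧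
      ∀ g u v, X g u → X g v → u ∉ D g → v ∉ D g → (∀ g' ∈ Λ, ¬ (X g' u ∧ X g' v)) →
        ∃ k ∈ T, u ∈ A k.1 ∧ v ∈ A k.2 := by
  have key : ∃ G : ℕ, ∀ (Γ V : Type) [Nonempty Γ] [Fintype V] (X : Γ → V → Prop), ∃ Λ U D,
      Λ.card ≤ G ∧ Inv X θ ((1 - θ ^ 2) ^ J * (Fintype.card V : ℝ) ^ 2) Λ U D := by
    induction J with
    | zero =>
      refine ⟨0, fun Γ V _ _ X => ⟨∅, univ, fun _ => ∅, le_rfl, ?_, ?_, ?_, ?_, ?_⟩⟩ <;> simp [sq]
    | succ J ih =>
      obtain ⟨G, hG⟩ := ih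
      refine ⟨G + 4 ^ G, fun Γ V _ _ X => ?_⟩
      obtain ⟨Λ, U, D, a, b⟩ := hG Γ V X
      obtain ⟨Λ', U', D', a', b'⟩ := b.step h0 h1
      refine ⟨Λ', U', D', a'.trans (add_le_add a (Nat.pow_le_pow_right (by norm_num) a)), ?_⟩
      rwa [pow_succ', mul_assoc]
  obtain ⟨G, hG⟩ := key
  refine ⟨G + 4 ^ G, fun Γ V _ _ X => ?_⟩
  obtain ⟨Λ, U, D, a, b⟩ := hG Γ V X
  refine ⟨Λ, U.image fun q => (sg X Λ q.1, sg X Λ q.2), atm X Λ, D, a.trans (Nat.le_add_right _ _),
    ?_, le_trans (le_of_eq ?_) b.cU, fun g => (b.cD g).trans (mul_le_mul_of_nonneg_left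
      (Nat.cast_le.2 (card_le_univ _)) h0), fun g u v a1 a2 a3 a4 a5 =>
      ⟨_, mem_image_of_mem _ (b.al g u v a1 a2 a3 a4 a5), mem_atm.2 rfl, mem_atm.2 rfl⟩⟩
  · refine (card_le_card (t := Λ.powerset ×ˢ Λ.powerset) fun k hk => ?_).trans ?_
    · obtain ⟨q, -, rfl⟩ := mem_image.1 hk
      exact mem_product.2
        ⟨mem_powerset.2 (filter_subset _ _), mem_powerset.2 (filter_subset _ _)⟩
    · rw [card_product, card_powerset, ← mul_pow]
      exact (Nat.pow_le_pow_right (by norm_num) a).trans (Nat.le_add_left _ _)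
  · rw [card_eq_sum_card_image (fun q => (sg X Λ q.1, sg X Λ q.2)) U]
    push_cast
    refine sum_congr rfl fun k hk => ?_
    obtain ⟨q, hq, rfl⟩ := mem_image.1 hk
    rw [b.fib hq, card_product, Nat.cast_mul]

end Pool.Agent.Lib.MP_9afdc0_co
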