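import Mathlib

/-! Few pairs meet all four-cliques when every triangle lies in at most three of them. -/

namespace Pool.Agent.Lib.MP_9afdc0_co

open Finset

variable {V : Type} {G : SimpleGraph V} [DecidableRel G.Adj] {δ ε : ℝ}

theorem typ {U W T : Finset V} (hu : G.IsUniform ε U W) (hd : 2 * δ ≤ G.edgeDensity U W)
    (he : ε ≤ δ) (hT : T ⊆ W) (hc : W.card * ε ≤ T.card) :
    ((U.filter fun x => ((T.filter (G.Adj x)).card : ℝ) < δ * T.card).card : ℝ) ≤ U.card * ε := by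
  classical
  by_contra hlt
  have h1 := hu (filter_subset _ _) hT (not_le.1 hlt).le hc
  have h0 := hu.pos
  obtain ⟨B, hB⟩ : ∃ B, B = U.filter fun x => ((T.filter (G.Adj x)).card : ℝ) < δ * T.card :=
    ⟨_, rfl⟩
  rw [← hB] at h1
  have h2 : ((G.interedges B T).card : ℝ) ≤ δ * (B.card * T.card) := by
    refine (Nat.cast_le.2 <| (card_le_card <| subset_of_eq
      (Rel.interedges_eq_biUnion _)).trans card_biUnion_le).trans ?_
    simp_rw [Nat.cast_sum, card_map]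
    rw [mul_left_comm, ← nsmul_eq_mul]
    exact sum_le_card_nsmul _ _ _ fun x hx => (mem_filter.1 (hB ▸ hx)).2.le
  have h3 : (G.edgeDensity B T : ℝ) ≤ δ := by
    rw [SimpleGraph.edgeDensity_def]
    push_cast
    exact div_le_of_le_mul₀ (by positivity) (by linarith) h2
  rw [abs_sub_lt_iff] at h1
  linarith [h1.2]

/-- A uniform and dense pair. -/
def Gd (G : SimpleGraph V) [DecidableRel G.Adj] (ε δ : ℝ) (U W : Finset V) : Prop :=
  G.IsUniform ε U W ∧ 2 * δ ≤ G.edgeDensity U W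

theorem pick {U U' W1 W2 W3 T1 T2 T3 : Finset V} (he : ε ≤ δ) (hU : U' ⊆ U)
    (hc : 3 * (U.card * ε) < U'.card) (g1 : Gd G ε δ U W1) (g2 : Gd G ε δ U W2)
    (g3 : Gd G ε δ U W3) (s1 : T1 ⊆ W1) (s2 : T2 ⊆ W2) (s3 : T3 ⊆ W3)
    (c1 : W1.card * ε ≤ T1.card) (c2 : W2.card * ε ≤ T2.card) (c3 : W3.card * ε ≤ T3.card) :
    ∃ x ∈ U', δ * T1.card ≤ (T1.filter (G.Adj x)).card ∧
      δ * T2.card ≤ (T2.filter (G.Adj x)).card ∧ δ * T3.card ≤ (T3.filter (G.Adj x)).card := by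
  classical
  have h1 := typ g1.1 g1.2 he s1 c1
  have h2 := typ g2.1 g2.2 he s2 c2
  have h3 := typ g3.1 g3.2 he s3 c3
  by_contra hn
  have hs : U' ⊆ (U.filter fun x => ((T1.filter (G.Adj x)).card : ℝ) < δ * T1.card) ∪
      ((U.filter fun x => ((T2.filter (G.Adj x)).card : ℝ) < δ * T2.card) ∪
      (U.filter fun x => ((T3.filter (G.Adj x)).card : ℝ) < δ * T3.card)) := fun x hx => by
    simp only [mem_union, mem_filter, hU hx, true_and]
    by_contra hc
    simp only [not_or, not_lt] at hc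
    exact hn ⟨x, hx, hc⟩
  have h4 := (card_le_card hs).trans ((card_union_le _ _).trans
    (Nat.add_le_add_left (card_union_le _ _) _))
  have h5 := (Nat.cast_le (α := ℝ)).2 h4
  push_cast at h5
  linarith

theorem four (h0 : 0 < δ) (h1 : δ ≤ 1) {A B C D : Finset V} (hA : A.Nonempty) (hB : B.Nonempty)
    (hC : C.Nonempty) (ab : Gd G (δ ^ 2 / 4) δ A B) (ac : Gd G (δ ^ 2 / 4) δ A C)
    (ad : Gd G (δ ^ 2 / 4) δ A D) (bc : Gd G (δ ^ 2 / 4) δ B C) (bd : Gd G (δ ^ 2 / 4) δ B D)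
    (cd : Gd G (δ ^ 2 / 4) δ C D) : ∃ a b c, G.Adj a b ∧ G.Adj a c ∧ G.Adj b c ∧
      δ ^ 3 * D.card ≤ (((D.filter (G.Adj a)).filter (G.Adj b)).filter (G.Adj c)).card := by
  have h2 : δ ^ 2 ≤ δ := by nlinarith
  have h3 : 0 < δ ^ 2 := by positivity
  have he : δ ^ 2 / 4 ≤ δ := by linarith
  have pA : (0 : ℝ) < A.card := by exact_mod_cast hA.card_pos
  have pB : (0 : ℝ) < B.card := by exact_mod_cast hB.card_pos
  have pC : (0 : ℝ) < C.card := by exact_mod_cast hC.card_pos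
  have pD : (0 : ℝ) ≤ D.card := by positivity
  obtain ⟨a, -, a1, a2, a3⟩ := pick he (Subset.refl A) (by nlinarith) ab ac ad (Subset.refl B)
    (Subset.refl C) (Subset.refl D) (by nlinarith) (by nlinarith) (by nlinarith)
  obtain ⟨b, hb, b1, b2, -⟩ := pick he (filter_subset (G.Adj a) B) (by nlinarith) bc bd bd
    (filter_subset (G.Adj a) C) (filter_subset (G.Adj a) D) (filter_subset (G.Adj a) D)
    (by nlinarith) (by nlinarith) (by nlinarith)
  have c1 := mul_le_mul_of_nonneg_left a2 h0.le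
  have c2 := mul_le_mul_of_nonneg_left a3 h0.le
  have s := (filter_subset (G.Adj b) _).trans (filter_subset (G.Adj a) D)
  have c3 : D.card * (δ ^ 2 / 4) ≤ ((D.filter (G.Adj a)).filter (G.Adj b)).card := by nlinarith
  obtain ⟨c, hc, d1, -⟩ := pick he ((filter_subset (G.Adj b) _).trans (filter_subset (G.Adj a) C))
    (by nlinarith) cd cd cd s s s c3 c3 c3
  rw [mem_filter] at hb
  rw [mem_filter, mem_filter] at hc
  refine ⟨a, b, c, hb.2, hc.1.2, hc.2, le_trans ?_ d1⟩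
  nlinarith [mul_le_mul_of_nonneg_left (c2.trans b2) h0.le]

open Classical in
theorem exists_hit (h0 : 0 < δ) (h1 : δ ≤ 1) : ∃ N : ℕ, ∀ n, N ≤ n → ∀ G : SimpleGraph (Fin n),
    (∀ a b c, G.Adj a b → G.Adj a c → G.Adj b c →
      (univ.filter fun d => G.Adj a d ∧ G.Adj b d ∧ G.Adj c d).card ≤ 3) →
    ∃ S : Finset (Fin n × Fin n), (S.card : ℝ) ≤ 10 * δ * n ^ 2 ∧ ∀ a b c d, G.Adj a b →
      G.Adj a c → G.Adj a d → G.Adj b c → G.Adj b d → G.Adj c d →
      (a, b) ∈ S ∨ (a, c) ∈ S ∨ (a, d) ∈ S ∨ (b, c) ∈ S ∨ (b, d) ∈ S ∨ (c, d) ∈ S := by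
  have he : 0 < δ ^ 2 / 4 := by positivity
  obtain ⟨l, hl⟩ : ∃ l : ℕ, 4 / (2 * δ) ≤ l := exists_nat_ge _
  obtain ⟨m, hm⟩ : ∃ m : ℕ, 3 / δ ^ 3 < m := exists_nat_gt _
  refine ⟨l + 1 + SzemerediRegularity.bound (δ ^ 2 / 4) l * m, fun n hn G H => ?_⟩
  obtain ⟨P, hP, p1, p2, p3⟩ := szemeredi_regularity G he (l := l) (by simp; omega)
  have : Nonempty (Fin n) := ⟨⟨0, by omega⟩⟩
  refine ⟨(P.nonUniforms G (δ ^ 2 / 4)).biUnion (fun (U, W) => U ×ˢ W) ∪
    (P.parts.biUnion offDiag ∪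
      (P.sparsePairs G (2 * δ)).biUnion fun (U, W) => G.interedges U W), ?_, ?_⟩
  · have q1 := hP.sum_nonUniforms_lt univ_nonempty he p3
    have q2 := hP.card_biUnion_offDiag_le (by positivity : 0 < 2 * δ)
      (hl.trans (Nat.cast_le.2 p1))
    have q3 := hP.card_interedges_sparsePairs_le (G := G) (by positivity : 0 ≤ 2 * δ)
    rw [card_univ, Fintype.card_fin] at q1 q2 q3
    refine (Nat.cast_le.2 ((card_union_le _ _).trans
      (Nat.add_le_add_left (card_union_le _ _) _))).trans ?_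
    push_cast
    nlinarith [mul_le_mul_of_nonneg_right (show δ ^ 2 ≤ δ by nlinarith) (sq_nonneg (n : ℝ))]
  · intro a b c d ab ac ad bc bd cd
    by_contra hn
    simp only [not_or] at hn
    choose Q hQ using fun x : Fin n => P.exists_mem (mem_univ x)
    have key : ∀ x y, G.Adj x y → (x, y) ∉ (P.nonUniforms G (δ ^ 2 / 4)).biUnion
        (fun (U, W) => U ×ˢ W) ∪ (P.parts.biUnion offDiag ∪
        (P.sparsePairs G (2 * δ)).biUnion fun (U, W) => G.interedges U W) →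
        Gd G (δ ^ 2 / 4) δ (Q x) (Q y) := by
      intro x y h hs
      simp only [mem_union, not_or, mem_biUnion, not_exists, not_and] at hs
      have hne : Q x ≠ Q y := fun e => hs.2.1 _ (hQ x).1
        (mem_offDiag.2 ⟨(hQ x).2, e ▸ (hQ y).2, h.ne⟩)
      constructor
      · by_contra hu
        exact hs.1 (Q x, Q y) ((P.mk_mem_nonUniforms G).2 ⟨(hQ x).1, (hQ y).1, hne, hu⟩)
          (mem_product.2 ⟨(hQ x).2, (hQ y).2⟩)
      · by_contra hu
        exact hs.2.2 (Q x, Q y) ((P.mk_mem_sparsePairs G _ _ _).2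
          ⟨(hQ x).1, (hQ y).1, hne, not_le.1 hu⟩)
          ((G.mem_interedges_iff).2 ⟨(hQ x).2, (hQ y).2, h⟩)
    obtain ⟨x, y, z, xy, xz, yz, h⟩ := four h0 h1 ⟨a, (hQ a).2⟩ ⟨b, (hQ b).2⟩ ⟨c, (hQ c).2⟩
      (key _ _ ab hn.1) (key _ _ ac hn.2.1) (key _ _ ad hn.2.2.1) (key _ _ bc hn.2.2.2.1)
      (key _ _ bd hn.2.2.2.2.1) (key _ _ cd hn.2.2.2.2.2)
    have q1 : m ≤ (Q d).card := by
      refine le_trans ?_ (hP.average_le_card_part (hQ d).1)
      rw [Nat.le_div_iff_mul_le (card_pos.2 ⟨_, (hQ d).1⟩), card_univ, Fintype.card_fin, mul_comm]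
      exact (Nat.mul_le_mul_right _ p2).trans (by omega)
    have q2 : ((((Q d).filter (G.Adj x)).filter (G.Adj y)).filter (G.Adj z)).card ≤ 3 :=
      (card_le_card fun w hw => by
        simp only [mem_filter, mem_univ, true_and] at hw ⊢
        exact ⟨hw.1.1.2, hw.1.2, hw.2⟩).trans (H x y z xy xz yz)
    have q3 := h.trans (Nat.cast_le.2 q2)
    rw [div_lt_iff₀ (by positivity)] at hm
    have q4 := mul_le_mul_of_nonneg_left ((Nat.cast_le (α := ℝ)).2 q1) (pow_pos h0 3).le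
    push_cast at q3
    linarith

end Pool.Agent.Lib.MP_9afdc0_co
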