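import Pool.Agent.Lib.MP_9afdc0_co.Basic
import Pool.Agent.Lib.MP_9afdc0_co.RsA
import Pool.Agent.Lib.MP_9afdc0_co.RsB
import Pool.Agent.Lib.MP_9afdc0_co.RsD

/-! The three steps of the counting argument. -/

namespace Pool.Agent.Lib.MP_9afdc0_co

open Finset

variable {n : ℕ} {G : SimpleGraph (Fin n)}

/-- The common neighbourhood of an edge. -/
def cn (G : SimpleGraph (Fin n)) (e : Fin n × Fin n) (u : Fin n) : Prop :=
  G.Adj e.1 e.2 ∧ G.Adj e.1 u ∧ G.Adj e.2 u

/-- Two pairs that form a four-clique. -/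
def kk (G : SimpleGraph (Fin n)) (e f : Fin n × Fin n) : Prop :=
  cn G e f.1 ∧ cn G e f.2 ∧ G.Adj f.1 f.2

theorem kk.symm {e f : Fin n × Fin n} (h : kk G e f) : kk G f e :=
  ⟨⟨h.2.2, h.1.2.1.symm, h.2.1.2.1.symm⟩, ⟨h.2.2, h.1.2.2.symm, h.2.1.2.2.symm⟩, h.1.1⟩

open Classical in
/-- Every triangle lies in at most three four-cliques. -/
def Th (G : SimpleGraph (Fin n)) : Prop := ∀ a b c, G.Adj a b → G.Adj a c → G.Adj b c →
  (univ.filter fun d => G.Adj a d ∧ G.Adj b d ∧ G.Adj c d).card ≤ 3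

open Classical in
theorem Th.le (H : Th G) (e : Fin n × Fin n) (u : Fin n) (hu : cn G e u) :
    (univ.filter fun v => cn G e v ∧ G.Adj u v).card ≤ 3 :=
  (card_le_card fun v hv => by
    simp only [mem_filter, mem_univ, true_and] at hv ⊢
    exact ⟨hv.1.2.1, hv.1.2.2, hv.2⟩).trans (H e.1 e.2 u hu.1 hu.2.1 hu.2.2)

open Classical in
theorem Th.fst (H : Th G) (e : Fin n × Fin n) (D : Finset (Fin n)) :
    (univ.filter fun f => kk G e f ∧ f.1 ∈ D).card ≤ 3 * (D.filter (cn G e)).card := by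
  refine card_le_mul_card_image_of_maps_to (f := fun f => f.1) (fun f hf => ?_) 3 fun u hu => ?_
  · simp only [mem_filter, mem_univ, true_and] at hf ⊢
    exact ⟨hf.2, hf.1.1⟩
  · refine (card_le_card_of_injOn (fun f => f.2) (fun f hf => ?_) fun f hf f' hf' e' => ?_).trans
      (H.le e u (mem_filter.1 hu).2)
    · simp only [coe_filter, mem_filter, mem_univ, true_and, Set.mem_ofPred_eq] at hf ⊢
      exact ⟨hf.1.1.2.1, hf.2 ▸ hf.1.1.2.2⟩
    · simp only [coe_filter, Set.mem_ofPred_eq] at hf hf'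
      exact Prod.ext (hf.2.trans hf'.2.symm) e'

open Classical in
theorem Th.snd (H : Th G) (e : Fin n × Fin n) (D : Finset (Fin n)) :
    (univ.filter fun f => kk G e f ∧ f.2 ∈ D).card ≤ 3 * (D.filter (cn G e)).card := by
  refine (card_le_card_of_injOn Prod.swap (fun f hf => ?_) Prod.swap_injective.injOn).trans
    (H.fst e D)
  simp only [coe_filter, mem_univ, true_and, Set.mem_ofPred_eq] at hf ⊢
  exact ⟨⟨hf.1.2.1, hf.1.1, hf.1.2.2.symm⟩, hf.2⟩

open Classical in
theorem Th.all (H : Th G) (e : Fin n × Fin n) : (univ.filter fun f => kk G e f).card ≤ 3 * n := by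
  refine le_trans (card_le_card fun f hf => ?_) ((H.fst e univ).trans
    (Nat.mul_le_mul_left _ ((card_le_univ _).trans_eq (Fintype.card_fin n))))
  simpa using hf

theorem th_of {c : Sym2 (Fin n) → ℕ} (hp : IsProper G c)
    (hr : ∀ K, G.IsNClique 4 K → ¬ IsRainbow c K) : Th G := by
  classical
  intro a b x ab ax bx
  have key : ∀ d, G.Adj a d → G.Adj b d → G.Adj x d →
      c s(d, a) = c s(b, x) ∨ c s(d, b) = c s(a, x) ∨ c s(d, x) = c s(a, b) := by
    intro d ad bd xd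
    have hK : G.IsNClique 4 {a, b, x, d} := by
      constructor
      · simp [SimpleGraph.isClique_iff, Set.pairwise_insert, ab, ax, bx, ad, bd, xd, ab.symm,
          ax.symm, bx.symm, ad.symm, bd.symm, xd.symm]
      · exact card_eq_four.2 ⟨_, _, _, _, ab.ne, ax.ne, ad.ne, bx.ne, bd.ne, xd.ne, rfl⟩
    obtain ⟨p, hp', q, hq, r, hr', s, hs, h1, h2, h3, h4, h5, h6, h7⟩ :=
      exists_four hp hK.1 (hr _ hK)
    simp only [mem_insert, mem_singleton] at hp' hq hr' hs
    rcases hp' with rfl | rfl | rfl | rfl <;> rcases hq with rfl | rfl | rfl | rfl <;>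
      rcases hr' with rfl | rfl | rfl | rfl <;> rcases hs with rfl | rfl | rfl | rfl <;>
      simp_all [Sym2.eq_swap]
  have one : ∀ y (j : ℕ), (univ.filter fun d => G.Adj y d ∧ c s(d, y) = j).card ≤ 1 := fun y j =>
    card_le_one.2 fun d hd d' hd' => by
      rw [mem_filter] at hd hd'
      by_contra hne
      refine hp y d d' hd.2.1 hd'.2.1 hne ?_
      rw [Sym2.eq_swap, hd.2.2, Sym2.eq_swap, hd'.2.2]
  refine le_trans (card_le_card (t := (univ.filter fun d => G.Adj a d ∧ c s(d, a) = c s(b, x)) ∪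
    ((univ.filter fun d => G.Adj b d ∧ c s(d, b) = c s(a, x)) ∪
      (univ.filter fun d => G.Adj x d ∧ c s(d, x) = c s(a, b)))) fun d hd => ?_)
    ((card_union_le _ _).trans ((Nat.add_le_add_left (card_union_le _ _) _).trans
      (add_le_add (one _ _) (add_le_add (one _ _) (one _ _)))))
  simp only [mem_filter, mem_univ, true_and, mem_union] at hd ⊢
  have := key d hd.1 hd.2.1 hd.2.2
  tauto

open Classical in
theorem cl_le (S : Finset (Fin n × Fin n)) (hS : ∀ a b c d, G.Adj a b →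
    G.Adj a c → G.Adj a d → G.Adj b c → G.Adj b d → G.Adj c d →
    (a, b) ∈ S ∨ (a, c) ∈ S ∨ (a, d) ∈ S ∨ (b, c) ∈ S ∨ (b, d) ∈ S ∨ (c, d) ∈ S) :
    (cl G 4).card ≤ ∑ f, (S.filter fun e => kk G e f).card := by
  refine le_trans (card_le_card (t := univ.biUnion fun f => (S.filter fun e => kk G e f).image
    fun e => ({e.1, e.2, f.1, f.2} : Finset (Fin n))) fun K hK => ?_)
    (card_biUnion_le.trans (sum_le_sum fun f _ => card_image_le))
  rw [mem_cl] at hK
  obtain ⟨a, b, c, d, ab, ac, ad, bc, bd, cd, rfl⟩ := card_eq_four.1 hK.2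
  replace ab := hK.1 (by simp) (by simp) ab
  replace ac := hK.1 (by simp) (by simp) ac
  replace ad := hK.1 (by simp) (by simp) ad
  replace bc := hK.1 (by simp) (by simp) bc
  replace bd := hK.1 (by simp) (by simp) bd
  replace cd := hK.1 (by simp) (by simp) cd
  have key : ∀ x y z w, (x, y) ∈ S → kk G (x, y) (z, w) → ({x, y, z, w} : Finset (Fin n)) ∈
      univ.biUnion fun f => (S.filter fun e => kk G e f).image
        fun e => ({e.1, e.2, f.1, f.2} : Finset (Fin n)) := fun x y z w h1 h2 =>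
    mem_biUnion.2 ⟨(z, w), mem_univ _, mem_image.2 ⟨(x, y), mem_filter.2 ⟨h1, h2⟩, rfl⟩⟩
  rcases hS a b c d ab ac ad bc bd cd with h | h | h | h | h | h
  · exact key _ _ c d h ⟨⟨ab, ac, bc⟩, ⟨ab, ad, bd⟩, cd⟩
  · rw [show ({a, b, c, d} : Finset (Fin n)) = {a, c, b, d} by ext; simp; tauto]
    exact key _ _ b d h ⟨⟨ac, ab, bc.symm⟩, ⟨ac, ad, cd⟩, bd⟩
  · rw [show ({a, b, c, d} : Finset (Fin n)) = {a, d, b, c} by ext; simp; tauto]
    exact key _ _ b c h ⟨⟨ad, ab, bd.symm⟩, ⟨ad, ac, cd.symm⟩, bc⟩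
  · rw [show ({a, b, c, d} : Finset (Fin n)) = {b, c, a, d} by ext; simp; tauto]
    exact key _ _ a d h ⟨⟨bc, ab.symm, ac.symm⟩, ⟨bc, bd, cd⟩, ad⟩
  · rw [show ({a, b, c, d} : Finset (Fin n)) = {b, d, a, c} by ext; simp; tauto]
    exact key _ _ a c h ⟨⟨bd, ab.symm, ad.symm⟩, ⟨bd, bc, cd.symm⟩, ac⟩
  · rw [show ({a, b, c, d} : Finset (Fin n)) = {c, d, a, b} by ext; simp; tauto]
    exact key _ _ a b h ⟨⟨cd, ac.symm, ad.symm⟩, ⟨cd, bc.symm, bd.symm⟩, ab⟩

open Classical in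
theorem Th.box (H : Th G) (hn : 3 ≤ n) {t k l : ℕ} (g : Fin t → Fin n × Fin n)
    {A B : Finset (Fin n)} (ht : t * (k * l) ≤ n) (hA : A.card * k ≤ n) (hB : B.card * l ≤ n) :
    (univ.filter fun f => (∃ i, kk G (g i) f) ∧ f.1 ∈ A ∧ f.2 ∈ B).card * (k * l) ≤
      2808 * ruzsaSzemerediNumberNat n := by
  refine blow_le (fun i u => cn G (g i) u) G.Adj (fun _ _ h => h.symm) (fun i u hu => ?_) hn
    (by simpa using ht) hA hB _ fun p hp => ?_
  · exact H.le _ _ hu
  · obtain ⟨-, ⟨i, hi⟩, a, b⟩ := mem_filter.1 hp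
    exact ⟨a, b, hi.2.2, i, hi.1, hi.2.1⟩

open Classical in
theorem Th.stepA (H : Th G) (hn : 3 ≤ n) {lam : ℝ} (h0 : 0 < lam) (S : Finset (Fin n × Fin n))
    (hS : (S.card : ℝ) ≤ lam * n ^ 2) : ∃ F : Finset (Fin n × Fin n),
      F.card ≤ 5616 * ruzsaSzemerediNumberNat n ∧
      ∑ f, ((S.filter fun e => kk G e f).card : ℝ) ≤ 5616 * lam * n * ruzsaSzemerediNumberNat n +
        ∑ e, ((F.filter fun f => kk G f e).card : ℝ) := by
  have : Nonempty (Fin n) := ⟨⟨0, by omega⟩⟩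
  have pn : (0 : ℝ) < n := by positivity
  have pl : 0 < lam * n := by positivity
  obtain ⟨g, hg⟩ := exists_sample S univ (kk G) n
    (fun f => min 1 ((S.filter fun e => kk G e f).card / (lam * n))) zero_le_one fun f _ => by
      refine ⟨by positivity, min_le_left _ _, (min_le_right _ _).trans ?_⟩
      rcases S.eq_empty_or_nonempty with rfl | hne
      · simp
      have : (0 : ℝ) < S.card := by exact_mod_cast hne.card_pos
      rw [← mul_div_assoc, div_le_div_iff₀ pl this]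
      nlinarith [mul_le_mul_of_nonneg_left hS (Nat.cast_nonneg (S.filter fun e => kk G e f).card)]
  have h1 := H.box hn (k := 1) (l := 1) g (A := univ) (B := univ) (by simp) (by simp) (by simp)
  simp only [mem_univ, and_true, mul_one] at h1
  have h2 := hg.trans (mul_le_mul_of_nonneg_left (Nat.cast_le.2 h1) (by norm_num))
  push_cast at h2
  refine ⟨univ.filter fun f => lam * n ≤ (S.filter fun e => kk G e f).card, ?_, ?_⟩
  · rw [← Nat.cast_le (α := ℝ), card_filter]
    push_cast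
    refine le_trans (sum_le_sum fun f _ => ?_) (h2.trans_eq (by ring))
    split_ifs with h
    · exact le_min le_rfl ((one_le_div pl).2 h)
    · positivity
  · have h3 : ∑ e, (((univ.filter fun f => lam * n ≤ (S.filter fun e => kk G e f).card).filter
        fun f => kk G f e).card : ℝ) = ∑ f, if lam * n ≤ (S.filter fun e => kk G e f).card then
          ((univ.filter fun e => kk G f e).card : ℝ) else 0 := by
      simp only [card_filter, Nat.cast_sum]
      rw [sum_comm, sum_filter]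
    have h4 := mul_le_mul_of_nonneg_left h2 pl.le
    rw [h3]
    refine le_trans ?_ (add_le_add_left (h4.trans_eq (by ring)) _)
    rw [mul_sum, ← sum_add_distrib]
    refine sum_le_sum fun f _ => ?_
    split_ifs with h
    · refine le_add_of_nonneg_of_le (by positivity) (Nat.cast_le.2 (card_le_card fun e he => ?_))
      exact mem_filter.2 ⟨mem_univ _, (mem_filter.1 he).2.symm⟩
    · rw [min_eq_right ((div_le_one pl).2 (not_le.1 h).le), mul_div_cancel₀ _ pl.ne', add_zero]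

open Classical in
theorem Th.stepB (H : Th G) (hn : 3 ≤ n) {t : ℕ} (F : Finset (Fin n × Fin n))
    (hF : F.card ≤ t * n) : ∃ g : Fin t → Fin n × Fin n,
      ∑ e, ((F.filter fun f => kk G f e).card : ℝ) ≤
        4 * n * (univ.filter fun e => ∃ i, kk G (g i) e).card := by
  have : Nonempty (Fin n) := ⟨⟨0, by omega⟩⟩
  have pn : (0 : ℝ) < n := by positivity
  obtain ⟨g, hg⟩ := exists_sample F univ (kk G) t
    (fun e => (F.filter fun f => kk G f e).card / n) (B := 3) (by norm_num) fun e _ => by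
      refine ⟨by positivity, ?_, ?_⟩
      · rw [div_le_iff₀ pn]
        exact_mod_cast le_trans (card_le_card fun f hf =>
          mem_filter.2 ⟨mem_univ _, kk.symm (mem_filter.1 hf).2⟩) (H.all e)
      rcases F.eq_empty_or_nonempty with rfl | hne
      · simp
      have : (0 : ℝ) < F.card := by exact_mod_cast hne.card_pos
      rw [← mul_div_assoc, div_le_div_iff₀ pn this]
      have h := (Nat.cast_le (α := ℝ)).2 hF
      push_cast at h
      nlinarith [mul_le_mul_of_nonneg_left h (Nat.cast_nonneg (F.filter fun f => kk G f e).card)]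
  refine ⟨g, ?_⟩
  rw [← sum_div, div_le_iff₀ pn] at hg
  linarith

theorem exists_mul {n M p : ℕ} (hM : 0 < M) (hp : p ≤ n) :
    ∃ m ≤ M, p * m ≤ n ∧ (n : ℝ) ≤ 2 * m * (p + n / M) := by
  have pM : (0 : ℝ) < M := by positivity
  by_cases h : p * M ≤ n
  · refine ⟨M, le_rfl, h, ?_⟩
    rw [mul_add, mul_assoc, mul_assoc, mul_div_cancel₀ _ pM.ne']
    have : (0 : ℝ) ≤ M * p := by positivity
    have : (0 : ℝ) ≤ n := by positivity
    linarith
  · have p0 : 0 < p := Nat.pos_of_ne_zero fun e => h (by simp [e])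
    refine ⟨n / p, Nat.div_le_of_le_mul (not_le.1 h).le, Nat.mul_div_le _ _, ?_⟩
    have h1 : 1 ≤ n / p := (Nat.one_le_div_iff p0).2 hp
    have h2 : n ≤ 2 * (n / p) * p := by
      have := Nat.lt_mul_div_succ n p0
      nlinarith
    refine ((Nat.cast_le (α := ℝ)).2 h2).trans ?_
    push_cast
    gcongr
    exact le_add_of_nonneg_right (by positivity)

open Classical in
theorem Th.box' (H : Th G) (hn : 3 ≤ n) {t M : ℕ} (hM : 0 < M) (ht : t * (M * M) ≤ n)
    (g : Fin t → Fin n × Fin n) (A B : Finset (Fin n)) :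
    ((univ.filter fun f => (∃ i, kk G (g i) f) ∧ f.1 ∈ A ∧ f.2 ∈ B).card : ℝ) * n ^ 2 ≤
      11232 * ruzsaSzemerediNumberNat n * (A.card * B.card + 3 * n ^ 2 / M) := by
  have hA : A.card ≤ n := (card_le_univ _).trans_eq (Fintype.card_fin n)
  have hB : B.card ≤ n := (card_le_univ _).trans_eq (Fintype.card_fin n)
  obtain ⟨k, k1, k2, k3⟩ := exists_mul hM hA
  obtain ⟨l, l1, l2, l3⟩ := exists_mul hM hB
  have h1 := (Nat.cast_le (α := ℝ)).2
    (H.box hn g ((Nat.mul_le_mul_left _ (Nat.mul_le_mul k1 l1)).trans ht) k2 l2)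
  push_cast at h1
  have h2 := mul_le_mul k3 l3 (by positivity) (by positivity)
  have h3 : (n : ℝ) / M ≤ n := div_le_self (by positivity) (by exact_mod_cast hM)
  have h4 : (0 : ℝ) ≤ n / M := by positivity
  have h5 : ((A.card : ℝ) + n / M) * (B.card + n / M) ≤ A.card * B.card + 3 * n ^ 2 / M := by
    rw [show 3 * (n : ℝ) ^ 2 / M = 3 * n * (n / M) by ring]
    nlinarith [mul_le_mul_of_nonneg_right ((Nat.cast_le (α := ℝ)).2 hA) h4,
      mul_le_mul_of_nonneg_right ((Nat.cast_le (α := ℝ)).2 hB) h4, mul_le_mul_of_nonneg_right h3 h4]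
  calc _ ≤ _ := mul_le_mul_of_nonneg_left ((sq _).trans_le h2) (Nat.cast_nonneg _)
    _ = 4 * (_ * (k * l)) * (((A.card : ℝ) + n / M) * (B.card + n / M)) := by ring
    _ ≤ 4 * (2808 * ruzsaSzemerediNumberNat n) * (A.card * B.card + 3 * n ^ 2 / M) := by gcongr
    _ = _ := by ring

open Classical in
theorem stepC {θ : ℝ} (h0 : 0 ≤ θ) (h1 : θ ≤ 1) (J : ℕ) : ∃ C : ℕ, ∀ (n : ℕ)
    (G : SimpleGraph (Fin n)), Th G → 3 ≤ n → ∀ t M : ℕ, 0 < t → 0 < M → t * (M * M) ≤ n →
    ∀ g : Fin t → Fin n × Fin n, ((univ.filter fun e => ∃ i, kk G (g i) e).card : ℝ) ≤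
      6 * θ * (t * n) + 3 * C * n +
        11232 * ruzsaSzemerediNumberNat n * ((1 - θ ^ 2) ^ J + 3 * C / M) := by
  obtain ⟨C, hC⟩ := alive h0 h1 J
  refine ⟨C, fun n G H hn t M ht hM htM g => ?_⟩
  have : Nonempty (Fin t) := ⟨⟨0, ht⟩⟩
  have pn : (0 : ℝ) < n := by positivity
  obtain ⟨Λ, T, A, D, c1, c2, c3, c4, c5⟩ := hC (Fin t) (Fin n) fun i u => cn G (g i) u
  rw [Fintype.card_fin] at c3 c4
  have hs : (univ.filter fun e => ∃ i, kk G (g i) e) ⊆
      ((univ.biUnion fun i => univ.filter fun f => kk G (g i) f ∧ f.1 ∈ D i) ∪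
      (univ.biUnion fun i => univ.filter fun f => kk G (g i) f ∧ f.2 ∈ D i)) ∪
      ((Λ.biUnion fun i => univ.filter fun f => kk G (g i) f) ∪
      (T.biUnion fun k => univ.filter fun f => (∃ i, kk G (g i) f) ∧ f.1 ∈ A k.1 ∧ f.2 ∈ A k.2)) := by
    intro e he
    obtain ⟨-, i, hi⟩ := mem_filter.1 he
    simp only [mem_union, mem_biUnion, mem_filter, mem_univ, true_and]
    by_cases a1 : e.1 ∈ D i
    · exact Or.inl (Or.inl ⟨i, hi, a1⟩)
    by_cases a2 : e.2 ∈ D i
    · exact Or.inl (Or.inr ⟨i, hi, a2⟩)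
    by_cases a3 : ∃ j ∈ Λ, kk G (g j) e
    · exact Or.inr (Or.inl a3)
    obtain ⟨k, hk, b⟩ := c5 i e.1 e.2 hi.1 hi.2.1 a1 a2 fun j hj b => a3 ⟨j, hj, b.1, b.2, hi.2.2⟩
    exact Or.inr (Or.inr ⟨k, hk, ⟨i, hi⟩, b⟩)
  have h2 := (card_le_card hs).trans ((card_union_le _ _).trans (add_le_add
    ((card_union_le _ _).trans (add_le_add (card_biUnion_le.trans (sum_le_sum fun i _ => H.fst _ _))
      (card_biUnion_le.trans (sum_le_sum fun i _ => H.snd _ _))))
    ((card_union_le _ _).trans (add_le_add (card_biUnion_le_card_mul _ _ _ fun i _ => H.all _)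
      card_biUnion_le))))
  have h3 := (Nat.cast_le (α := ℝ)).2 h2
  push_cast at h3
  have h4 : ∑ i, 3 * (((D i).filter (cn G (g i))).card : ℝ) ≤ 3 * θ * (t * n) :=
    (sum_le_card_nsmul _ _ (3 * (θ * n)) fun i _ => mul_le_mul_of_nonneg_left (c4 i)
      (by norm_num)).trans_eq (by simp; ring)
  have h5 : (Λ.card : ℝ) * (3 * n) ≤ C * (3 * n) := by gcongr
  have h6 : ∑ k ∈ T, ((univ.filter fun f => (∃ i, kk G (g i) f) ∧ f.1 ∈ A k.1 ∧
      f.2 ∈ A k.2).card : ℝ) ≤ 11232 * ruzsaSzemerediNumberNat n * ((1 - θ ^ 2) ^ J + 3 * C / M) := by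
    refine le_of_mul_le_mul_right ?_ (pow_pos pn 2)
    rw [sum_mul]
    refine (sum_le_sum fun k _ => H.box' hn hM htM g _ _).trans ?_
    rw [← mul_sum, sum_add_distrib, sum_const, nsmul_eq_mul, mul_assoc _ _ ((n : ℝ) ^ 2), add_mul,
      show 3 * (C : ℝ) / M * n ^ 2 = C * (3 * n ^ 2 / M) by ring]
    gcongr
  linarith

end Pool.Agent.Lib.MP_9afdc0_co
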