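import Pool.Agent.Lib.MP_9afdc0_co.LlD
import Pool.Agent.Lib.MP_9afdc0_co.RsE

/-! The bound for four-cliques. -/

namespace Pool.Agent.Lib.MP_9afdc0_co

open Finset Filter Asymptotics

/-- Ordered four-cliques. -/
def lle_K {n : ℕ} (G : SimpleGraph (Fin n)) (a b c d : Fin n) : Prop :=
  G.Adj a b ∧ G.Adj a c ∧ G.Adj a d ∧ G.Adj b c ∧ G.Adj b d ∧ G.Adj c d

open Classical in
/-- The weight of an ordered four-clique. -/
noncomputable def lle_X {n : ℕ} (G : SimpleGraph (Fin n)) (a b c d : Fin n) : ℝ :=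
  if lle_K G a b c d then 1 / 3 else 0

theorem lle_wt {n : ℕ} {G : SimpleGraph (Fin n)} (H : Th G) : Wt (lle_X G) := by
  classical
  refine ⟨fun a b c d => ?_, fun a b c d => ?_, fun a b c d => ?_, fun a b c d => ?_,
    fun a b c => ?_⟩
  · unfold lle_X
    split_ifs <;> norm_num
  · exact if_congr ⟨fun ⟨h1, h2, h3, h4, h5, h6⟩ => ⟨h1.symm, h4, h5, h2, h3, h6⟩,
      fun ⟨h1, h2, h3, h4, h5, h6⟩ => ⟨h1.symm, h4, h5, h2, h3, h6⟩⟩ rfl rfl
  · exact if_congr ⟨fun ⟨h1, h2, h3, h4, h5, h6⟩ => ⟨h2, h1, h3, h4.symm, h6, h5⟩,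
      fun ⟨h1, h2, h3, h4, h5, h6⟩ => ⟨h2, h1, h3, h4.symm, h6, h5⟩⟩ rfl rfl
  · exact if_congr ⟨fun ⟨h1, h2, h3, h4, h5, h6⟩ => ⟨h1, h3, h2, h5, h4, h6.symm⟩,
      fun ⟨h1, h2, h3, h4, h5, h6⟩ => ⟨h1, h3, h2, h5, h4, h6.symm⟩⟩ rfl rfl
  · unfold lle_X
    rw [← sum_filter, sum_const, nsmul_eq_mul]
    have h : (univ.filter fun d => lle_K G a b c d).card ≤ 3 := by
      rcases (univ.filter fun d => lle_K G a b c d).eq_empty_or_nonempty with h | ⟨d, h⟩
      · rw [h, card_empty]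
        omega
      · obtain ⟨h1, h2, -, h4, -, -⟩ := (mem_filter.1 h).2
        refine (card_le_card fun e he => ?_).trans (H a b c h1 h2 h4)
        obtain ⟨-, -, h3, -, h5, h6⟩ := (mem_filter.1 he).2
        exact mem_filter.2 ⟨mem_univ _, h3, h5, h6⟩
    have h' := (Nat.cast_le (α := ℝ)).2 h
    push_cast at h'
    linarith

theorem lle_adj {n : ℕ} {G : SimpleGraph (Fin n)} {a b : Fin n} (h : mg (lle_X G) a b ≠ 0) :
    G.Adj a b := by
  by_contra hab
  refine h (div_eq_zero_iff.2 (Or.inl (sum_eq_zero fun c _ => sum_eq_zero fun d _ => ?_)))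
  exact if_neg fun hK => hab hK.1

theorem lle_prod {n : ℕ} {G : SimpleGraph (Fin n)} (H : Th G) (a b c d : Fin n) :
    mg (lle_X G) a b * mg (lle_X G) a c * mg (lle_X G) a d * mg (lle_X G) b c *
      mg (lle_X G) b d * mg (lle_X G) c d ≤ 3 * lle_X G a b c d := by
  have hu := (lle_wt H).ut
  by_cases h : lle_K G a b c d
  · rw [lle_X, if_pos h, mul_one_div_cancel three_ne_zero]
    exact mul_le_one₀ (mul_le_one₀ (mul_le_one₀ (mul_le_one₀ (mul_le_one₀ (hu a b).2 (hu a c).1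
      (hu a c).2) (hu a d).1 (hu a d).2) (hu b c).1 (hu b c).2) (hu b d).1 (hu b d).2)
      (hu c d).1 (hu c d).2
  · rw [lle_X, if_neg h, mul_zero]
    refine le_of_eq ?_
    by_contra hne
    simp only [mul_eq_zero, not_or] at hne
    obtain ⟨⟨⟨⟨⟨h1, h2⟩, h3⟩, h4⟩, h5⟩, h6⟩ := hne
    exact h ⟨lle_adj h1, lle_adj h2, lle_adj h3, lle_adj h4, lle_adj h5, lle_adj h6⟩

theorem lle_card {n : ℕ} (G : SimpleGraph (Fin n)) : ((cl G 4).card : ℝ) ≤ 3 * S4 (lle_X G) := by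
  classical
  have h1 : (cl G 4).card ≤ (univ.filter fun e : Fin n × Fin n × Fin n × Fin n =>
      lle_K G e.1 e.2.1 e.2.2.1 e.2.2.2).card := by
    refine le_trans (card_le_card fun K hK => ?_) (card_image_le
      (f := fun e : Fin n × Fin n × Fin n × Fin n => ({e.1, e.2.1, e.2.2.1, e.2.2.2} : Finset _)))
    rw [mem_cl] at hK
    obtain ⟨a, b, c, d, ab, ac, ad, bc, bd, cd, rfl⟩ := card_eq_four.1 hK.2
    exact mem_image.2 ⟨(a, b, c, d), mem_filter.2 ⟨mem_univ _, hK.1 (by simp) (by simp) ab,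
      hK.1 (by simp) (by simp) ac, hK.1 (by simp) (by simp) ad, hK.1 (by simp) (by simp) bc,
      hK.1 (by simp) (by simp) bd, hK.1 (by simp) (by simp) cd⟩, rfl⟩
  refine ((Nat.cast_le (α := ℝ)).2 h1).trans_eq ?_
  rw [card_filter]
  push_cast
  simp only [Fintype.sum_prod_type, S4, mul_sum, lle_X]
  refine sum_congr rfl fun a _ => sum_congr rfl fun b _ => sum_congr rfl fun c _ =>
    sum_congr rfl fun d _ => ?_
  split_ifs <;> norm_num

theorem lle_num {x : ℝ} (hx : 2 ≤ x) {p : ℕ} (h : x ≤ 2 ^ 2 ^ (60000 * (p + 1) ^ 2)) :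
    (1 / 2 : ℝ) ^ (p + 1) ≤ Real.exp (-(1 / 490) * √(Real.log (Real.log x))) := by
  have l2 : Real.log 2 ≤ 1 := by linarith [Real.log_two_lt_d9]
  have h1 : Real.log x ≤ 2 ^ (60000 * (p + 1) ^ 2) := by
    refine (Real.log_le_log (by linarith) h).trans ?_
    rw [Real.log_pow]
    push_cast
    exact mul_le_of_le_one_right (by positivity) l2
  have h2 : Real.log (Real.log x) ≤ (245 * (p + 1)) ^ 2 := by
    refine (Real.log_le_log (Real.log_pos (by linarith)) h1).trans ?_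
    rw [Real.log_pow]
    push_cast
    have h := sq_nonneg ((p : ℝ) + 1)
    refine (mul_le_of_le_one_right (by linarith) l2).trans ?_
    rw [mul_pow]
    linarith
  have h3 := Real.sqrt_le_iff.2 ⟨by linarith [Nat.cast_nonneg (α := ℝ) p], h2⟩
  have h4 : (1 / 2 : ℝ) ≤ Real.exp (-(1 / 2)) := by linarith [Real.add_one_le_exp (-(1 / 2))]
  refine (pow_le_pow_left₀ (by norm_num) h4 _).trans ?_
  rw [← Real.exp_nat_mul, Real.exp_le_exp]
  push_cast
  linarith

theorem Th.loglog {n : ℕ} {G : SimpleGraph (Fin n)} (H : Th G) (hn : 2 ≤ n) :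
    ((cl G 4).card : ℝ) ≤ 12 * (n ^ 3 * Real.exp (-(1 / 490) * √(Real.log (Real.log n)))) := by
  classical
  have : Nonempty (Fin n) := ⟨⟨0, by omega⟩⟩
  have hW := lle_wt H
  refine (lle_card G).trans ?_
  rcases le_or_gt (S4 (lle_X G)) 0 with h0 | h0
  · exact le_trans (by linarith : _ ≤ (0 : ℝ)) (by positivity)
  have pn : (0 : ℝ) < n ^ 3 := by positivity
  have hex : ∃ p : ℕ, (1 / 2 : ℝ) ^ p * n ^ 3 ≤ S4 (lle_X G) := by
    obtain ⟨p, hp⟩ := exists_pow_lt_of_lt_one (div_pos h0 pn) (show (1 / 2 : ℝ) < 1 by norm_num)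
    exact ⟨p, ((lt_div_iff₀ pn).1 hp).le⟩
  have h1 := Pool.Agent.Lib.MP_9afdc0_co.loglog hW (lle_prod H) (p := Nat.find hex)
    (by rw [Fintype.card_fin]; exact Nat.find_spec hex)
  rw [Fintype.card_fin] at h1
  have h2 := lle_num (by exact_mod_cast hn) h1
  have h3 : S4 (lle_X G) ≤ 4 * (1 / 2) ^ (Nat.find hex + 1) * n ^ 3 := by
    rcases h : Nat.find hex with _ | p
    · have h4 : S4 (lle_X G) ≤ n ^ 3 := by
        refine (sum_le_card_nsmul _ _ _ fun a _ => sum_le_card_nsmul _ _ _ fun b _ =>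
          sum_le_card_nsmul _ _ 1 fun c _ => hW.row a b c).trans_eq ?_
        simp only [card_univ, Fintype.card_fin, nsmul_eq_mul]
        ring
      linarith
    · refine (not_le.1 (Nat.find_min hex (show p < Nat.find hex by omega))).le.trans_eq ?_
      ring
  nlinarith [mul_le_mul_of_nonneg_left h2 pn.le]

theorem ex_four_loglog : (fun n : ℕ => (exRainbow 4 n : ℝ)) =O[atTop]
    fun n : ℕ => (n : ℝ) ^ 3 * Real.exp (-(1 / 490) * √(Real.log (Real.log n))) := by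
  refine IsBigO.of_bound 12 (eventually_atTop.2 ⟨2, fun n hn => ?_⟩)
  rw [Real.norm_of_nonneg (by positivity), Real.norm_of_nonneg (by positivity),
    ← Nat.le_floor_iff (by positivity)]
  exact ex_le fun G c hp hr => (Nat.le_floor_iff (by positivity)).2 ((th_of hp hr).loglog hn)

end Pool.Agent.Lib.MP_9afdc0_co
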