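import Pool.Agent.Lib.MP_9afdc0_co.Basic

namespace Pool.Agent.Lib.MP_9afdc0_co

open Finset

variable {n r : ℕ} {G : SimpleGraph (Fin n)} {c : Sym2 (Fin n) → ℕ}

/-- The part of the neighbourhood of `v` selected by the set of colours `l`. -/
def link (G : SimpleGraph (Fin n)) (c : Sym2 (Fin n) → ℕ) (v : Fin n) (l : Finset ℕ) :
    SimpleGraph (Fin n) where
  Adj a b := G.Adj a b ∧ c s(a, b) ∈ l ∧ (G.Adj v a ∧ c s(v, a) ∉ l) ∧ (G.Adj v b ∧ c s(v, b) ∉ l)
  symm := ⟨fun _ _ h => ⟨h.1.symm, Sym2.eq_swap ▸ h.2.1, h.2.2.2, h.2.2.1⟩⟩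
  loopless := ⟨fun _ h => G.irrefl h.1⟩

theorem link_le (hr : 2 ≤ r) (hp : IsProper G c)
    (hrb : ∀ K, G.IsNClique (r + 1) K → ¬ IsRainbow c K) (v : Fin n) (l : Finset ℕ) :
    (cl (link G c v l) r).card ≤ exRainbow r n := by
  classical
  refine le_ex (c := c) (fun u a b h1 h2 => hp u a b h1.1 h2.1) fun K hK hrain => ?_
  have hv : ∀ x ∈ K, G.Adj v x ∧ c s(v, x) ∉ l := fun x hx => by
    obtain ⟨y, hy, hyx⟩ := exists_mem_ne (s := K) (by rw [hK.2]; omega) x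
    exact (hK.1 hx hy hyx.symm).2.2.1
  have hin : ∀ x ∈ K, ∀ y ∈ K, x ≠ y → c s(x, y) ∈ l := fun x hx y hy h => (hK.1 hx hy h).2.1
  have hK' : G.IsNClique r K := ⟨fun x hx y hy h => (hK.1 hx hy h).1, hK.2⟩
  have h1 : ∀ b ∈ K, ∀ x ∈ insert v K, ∀ y ∈ insert v K, x ≠ y → c s(v, b) = c s(x, y) →
      s(v, b) = s(x, y) := by
    intro b hb x hx y hy hxy e
    rcases mem_insert.1 hx with rfl | hx'
    · have hy' := (mem_insert.1 hy).resolve_left hxy.symm
      by_contra hne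
      exact hp x b y (hv b hb).1 (hv y hy').1 (fun e' => hne (e' ▸ rfl)) e
    rcases mem_insert.1 hy with rfl | hy'
    · by_contra hne
      exact hp y b x (hv b hb).1 (hv x hx').1 (fun e' => hne (e' ▸ Sym2.eq_swap))
        (e.trans (congrArg c Sym2.eq_swap))
    · exact absurd (e ▸ hin x hx' y hy' hxy) (hv b hb).2
  refine hrb (insert v K) (hK'.insert fun b hb => (hv b hb).1)
    fun a ha b hb x hx y hy hab hxy e => ?_
  rcases mem_insert.1 ha with rfl | ha'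
  · exact h1 b ((mem_insert.1 hb).resolve_left hab.symm) x hx y hy hxy e
  rcases mem_insert.1 hb with rfl | hb'
  · exact Sym2.eq_swap.trans (h1 a ha' x hx y hy hxy ((congrArg c Sym2.eq_swap).trans e))
  rcases mem_insert.1 hx with rfl | hx'
  · exact (h1 y ((mem_insert.1 hy).resolve_left hxy.symm) a ha b hb hab e.symm).symm
  rcases mem_insert.1 hy with rfl | hy'
  · exact (h1 x hx' a ha b hb hab ((congrArg c Sym2.eq_swap).trans e.symm)).symm.trans
      Sym2.eq_swap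
  · exact hrain a ha' b hb' x hx' y hy' hab hxy e

theorem good_le (hr : 2 ≤ r) (hp : IsProper G c)
    (hrb : ∀ K, G.IsNClique (r + 1) K → ¬ IsRainbow c K) (v : Fin n)
    (X : Finset (Finset (Fin n))) (hX : ∀ K ∈ X, G.IsNClique r K ∧ (∀ x ∈ K, G.Adj v x) ∧
      ∀ u ∈ K, ∀ a ∈ K, ∀ b ∈ K, a ≠ b → c s(v, u) ≠ c s(a, b)) :
    X.card ≤ 2 ^ (r + r * r) * exRainbow r n := by
  classical
  let S : Finset ℕ := univ.image c
  let R : Finset (Fin n) → Finset ℕ → Prop := fun K l => K ∈ cl (link G c v l) r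
  have h1 : ∀ K ∈ X, 2 ^ S.card ≤ 2 ^ (r + r * r) * (S.powerset.bipartiteAbove R K).card := by
    intro K hK
    obtain ⟨hc, hv, hg⟩ := hX K hK
    let A : Finset ℕ := K.image fun u => c s(v, u)
    let B : Finset ℕ := K.offDiag.image fun p => c s(p.1, p.2)
    have hAB : (A ∪ B).card ≤ r + r * r := by
      refine (card_union_le _ _).trans (add_le_add (card_image_le.trans hc.2.le) ?_)
      refine card_image_le.trans ?_
      rw [offDiag_card, hc.2]
      exact Nat.sub_le _ _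
    have h2 : S.powerset.card ≤ ((A ∪ B).powerset ×ˢ S.powerset.bipartiteAbove R K).card := by
      refine card_le_card_of_injOn (fun l => (l ∩ (A ∪ B), (l \ (A ∪ B)) ∪ B)) (fun l hl => ?_)
        (fun l _ l' _ e => ?_)
      · rw [mem_coe, mem_powerset] at hl
        rw [mem_coe, mem_product, mem_bipartiteAbove, mem_powerset, mem_powerset]
        refine ⟨inter_subset_right, union_subset (sdiff_subset.trans hl) fun j hj => ?_, ?_⟩
        · obtain ⟨p, -, rfl⟩ := mem_image.1 hj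
          exact mem_image_of_mem _ (mem_univ _)
        · have h3 : ∀ x ∈ K, G.Adj v x ∧ c s(v, x) ∉ (l \ (A ∪ B)) ∪ B := fun x hx => by
            refine ⟨hv x hx, fun h => ?_⟩
            rcases mem_union.1 h with h | h
            · exact (mem_sdiff.1 h).2 (mem_union_left _ (mem_image_of_mem _ hx))
            · obtain ⟨p, hp', e⟩ := mem_image.1 h
              rw [mem_offDiag] at hp'
              exact hg x hx p.1 hp'.1 p.2 hp'.2.1 hp'.2.2 e.symm
          refine mem_cl.2 ⟨fun a ha b hb hab => ⟨hc.1 ha hb hab, ?_, h3 a ha, h3 b hb⟩, hc.2⟩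
          exact mem_union_right _ (mem_image.2 ⟨(a, b), mem_offDiag.2 ⟨ha, hb, hab⟩, rfl⟩)
      · have e1 : l ∩ (A ∪ B) = l' ∩ (A ∪ B) := congrArg Prod.fst e
        have e2 : (l \ (A ∪ B)) ∪ B = (l' \ (A ∪ B)) ∪ B := congrArg Prod.snd e
        ext j
        have f1 := Finset.ext_iff.1 e1 j
        have f2 := Finset.ext_iff.1 e2 j
        simp only [mem_inter, mem_union, mem_sdiff] at f1 f2
        tauto
    rw [card_product, card_powerset, card_powerset] at h2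
    exact h2.trans (Nat.mul_le_mul_right _ (Nat.pow_le_pow_right two_pos hAB))
  have h2 : ∀ l ∈ S.powerset, (X.bipartiteBelow R l).card ≤ exRainbow r n := fun l _ =>
    (card_le_card fun K hK => ((mem_bipartiteBelow R).1 hK).2).trans (link_le hr hp hrb v l)
  have h3 := sum_le_sum h1
  rw [← mul_sum, sum_card_bipartiteAbove_eq_sum_card_bipartiteBelow, sum_const, smul_eq_mul] at h3
  have h4 := sum_le_sum h2
  rw [sum_const, smul_eq_mul, card_powerset] at h4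
  refine Nat.le_of_mul_le_mul_right (c := 2 ^ S.card) ?_ (by positivity)
  calc X.card * 2 ^ S.card ≤ 2 ^ (r + r * r) * (2 ^ S.card * exRainbow r n) :=
        h3.trans (Nat.mul_le_mul_left _ h4)
    _ = _ := by ring

open Classical in
/-- The neighbour of `x` along an edge of colour `i`. -/
noncomputable def nb (G : SimpleGraph (Fin n)) (c : Sym2 (Fin n) → ℕ) (x : Fin n) (i : ℕ) : Fin n :=
  if h : ∃ y, G.Adj x y ∧ c s(x, y) = i then h.choose else x

theorem nb_eq (hp : IsProper G c) {x y : Fin n} {i : ℕ} (h : G.Adj x y) (hi : c s(x, y) = i) :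
    nb G c x i = y := by
  have h1 : ∃ y, G.Adj x y ∧ c s(x, y) = i := ⟨y, h, hi⟩
  rw [nb, dif_pos h1]
  by_contra hne
  exact hp x _ y h1.choose_spec.1 h hne (h1.choose_spec.2.trans hi.symm)

theorem exists_out (hp : IsProper G c) {K : Finset (Fin n)} (hK : G.IsClique (K : Set (Fin n)))
    (h : ¬ IsRainbow c K) (u a b : Fin n) : ∃ w ∈ K, ∃ q ∈ K, ∃ x ∈ K, ∃ y ∈ K,
      w ≠ u ∧ w ≠ a ∧ w ≠ b ∧ q ≠ w ∧ x ≠ w ∧ y ≠ w ∧ c s(q, w) = c s(x, y) := by
  obtain ⟨p, hp', q, hq, x, hx, y, hy, h1, h2, h3, h4, h5, h6, e⟩ := exists_four hp hK h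
  by_cases f1 : p ≠ u ∧ p ≠ a ∧ p ≠ b
  · exact ⟨p, hp', q, hq, x, hx, y, hy, f1.1, f1.2.1, f1.2.2, h1.symm, h3.symm, h4.symm,
      (congrArg c Sym2.eq_swap).trans e⟩
  by_cases f2 : q ≠ u ∧ q ≠ a ∧ q ≠ b
  · exact ⟨q, hq, p, hp', x, hx, y, hy, f2.1, f2.2.1, f2.2.2, h1, h5.symm, h6.symm, e⟩
  by_cases f3 : x ≠ u ∧ x ≠ a ∧ x ≠ b
  · exact ⟨x, hx, y, hy, p, hp', q, hq, f3.1, f3.2.1, f3.2.2, h2.symm, h3, h5,
      (congrArg c Sym2.eq_swap).trans e.symm⟩
  by_cases f4 : y ≠ u ∧ y ≠ a ∧ y ≠ b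
  · exact ⟨y, hy, x, hx, p, hp', q, hq, f4.1, f4.2.1, f4.2.2, h2, h4, h6, e.symm⟩
  exfalso
  simp only [ne_eq, Fin.ext_iff] at f1 f2 f3 f4 h1 h2 h3 h4 h5 h6
  omega

theorem bad_le (hp : IsProper G c) (v : Fin n)
    (X : Finset (Finset (Fin n))) (hX : ∀ K ∈ X, G.IsNClique (r + 2) K ∧ (∀ x ∈ K, G.Adj v x) ∧
      ¬ IsRainbow c K ∧ ∃ u ∈ K, ∃ a ∈ K, ∃ b ∈ K, a ≠ b ∧ c s(v, u) = c s(a, b)) :
    X.card ≤ n ^ r * r ^ 2 * (r + 1) ^ 3 := by
  classical
  let F₀ : Finset (Finset (Fin n)) := powersetCard r univ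
  let F₁ : Finset (Finset (Fin n)) := F₀.biUnion fun L =>
    (L ×ˢ L).image fun p => insert (nb G c v (c s(p.1, p.2))) L
  let F₂ : Finset (Finset (Fin n)) := F₁.biUnion fun L =>
    (L ×ˢ L ×ˢ L).image fun p => insert (nb G c p.1 (c s(p.2.1, p.2.2))) L
  have h0 : F₀.card ≤ n ^ r := by
    rw [card_powersetCard, card_univ, Fintype.card_fin]
    exact Nat.choose_le_pow _ _
  have h1 : F₁.card ≤ F₀.card * r ^ 2 := card_biUnion_le_card_mul _ _ _ fun L hL =>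
    card_image_le.trans (by rw [card_product, (mem_powersetCard.1 hL).2, sq])
  have h2 : F₂.card ≤ F₁.card * (r + 1) ^ 3 := card_biUnion_le_card_mul _ _ _ fun L hL => by
    obtain ⟨L₀, hL₀, hL⟩ := mem_biUnion.1 hL
    obtain ⟨p, -, rfl⟩ := mem_image.1 hL
    have h3 := card_insert_le (nb G c v (c s(p.1, p.2))) L₀
    rw [(mem_powersetCard.1 hL₀).2] at h3
    refine card_image_le.trans ?_
    rw [card_product, card_product]
    calc _ ≤ (r + 1) * ((r + 1) * (r + 1)) := Nat.mul_le_mul h3 (Nat.mul_le_mul h3 h3)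
      _ = _ := by ring
  refine (card_le_card (t := F₂) fun K hK => ?_).trans
    (h2.trans (Nat.mul_le_mul_right _ (h1.trans (Nat.mul_le_mul_right _ h0))))
  obtain ⟨hc, hv, hn, u, hu, a, ha, b, hb, hab, e⟩ := hX K hK
  obtain ⟨w, hw, q, hq, x, hx, y, hy, h3, h4, h5, h6, h7, h8, e'⟩ := exists_out hp hc.1 hn u a b
  have hvK : ∀ z ∈ K, v ≠ z := fun z hz => (hv z hz).ne
  have hau : a ≠ u := by
    rintro rfl
    exact hp a v b (hv a ha).symm (hc.1 ha hb hab) (hvK b hb) ((congrArg c Sym2.eq_swap).trans e)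
  have hbu : b ≠ u := by
    rintro rfl
    exact hp b v a (hv b hb).symm (hc.1 hb ha hab.symm) (hvK a ha)
      ((congrArg c Sym2.eq_swap).trans (e.trans (congrArg c Sym2.eq_swap)))
  have hu' : u ∈ K.erase w := mem_erase.2 ⟨h3.symm, hu⟩
  refine mem_biUnion.2 ⟨K.erase w, mem_biUnion.2 ⟨(K.erase w).erase u, ?_, ?_⟩, ?_⟩
  · rw [mem_powersetCard, card_erase_of_mem hu', card_erase_of_mem hw, hc.2]
    exact ⟨subset_univ _, rfl⟩
  · refine mem_image.2 ⟨(a, b), mem_product.2 ⟨mem_erase.2 ⟨hau, mem_erase.2 ⟨h4.symm, ha⟩⟩,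
      mem_erase.2 ⟨hbu, mem_erase.2 ⟨h5.symm, hb⟩⟩⟩, ?_⟩
    rw [nb_eq hp (hv u hu) e, insert_erase hu']
  · refine mem_image.2 ⟨(q, x, y), mem_product.2 ⟨mem_erase.2 ⟨h6, hq⟩,
      mem_product.2 ⟨mem_erase.2 ⟨h7, hx⟩, mem_erase.2 ⟨h8, hy⟩⟩⟩, ?_⟩
    rw [nb_eq hp (hc.1 hq hw h6) e', insert_erase hw]

theorem up_step (hr : 2 ≤ r) : exRainbow (r + 3) n ≤
    n * (2 ^ (r + 2 + (r + 2) * (r + 2)) * exRainbow (r + 2) n + n ^ r * r ^ 2 * (r + 1) ^ 3) := by
  classical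
  refine ex_le fun G c hp hrb => ?_
  let X : Fin n → Finset (Finset (Fin n)) := fun v =>
    (cl G (r + 2)).filter fun K => (∀ x ∈ K, G.Adj v x) ∧ ¬ IsRainbow c K
  have h1 : cl G (r + 3) ⊆ univ.biUnion fun v => (X v).image (insert v) := by
    intro K hK
    rw [mem_cl] at hK
    obtain ⟨a, ha, b, hb, x, hx, y, hy, h1, h2, h3, h4, -, -, e⟩ := exists_four hp hK.1 (hrb K hK)
    obtain ⟨v, hv, hv'⟩ := exists_mem_notMem_of_card_lt_card (s := ({a, b, x, y} : Finset (Fin n)))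
      (t := K) (lt_of_le_of_lt card_le_four (by rw [hK.2]; omega))
    simp only [mem_insert, mem_singleton, not_or] at hv'
    refine mem_biUnion.2 ⟨v, mem_univ _, mem_image.2 ⟨K.erase v, mem_filter.2 ⟨mem_cl.2 ?_,
      fun z hz => hK.1 hv (mem_of_mem_erase hz) (ne_of_mem_erase hz).symm, ?_⟩, insert_erase hv⟩⟩
    · exact ⟨hK.1.subset (coe_subset.2 (erase_subset _ _)), by rw [card_erase_of_mem hv, hK.2]; rfl⟩
    · exact not_rainbow (mem_erase.2 ⟨Ne.symm hv'.1, ha⟩) (mem_erase.2 ⟨Ne.symm hv'.2.1, hb⟩)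
        (mem_erase.2 ⟨Ne.symm hv'.2.2.1, hx⟩) (mem_erase.2 ⟨Ne.symm hv'.2.2.2, hy⟩) h1 h2 h3 h4 e
  refine (card_le_card h1).trans ((card_biUnion_le_card_mul _ _ _ fun v _ => ?_).trans
    (by rw [card_univ, Fintype.card_fin]))
  refine card_image_le.trans ?_
  rw [← card_filter_add_card_filter_not (s := X v)
    fun K => ∀ u ∈ K, ∀ a ∈ K, ∀ b ∈ K, a ≠ b → c s(v, u) ≠ c s(a, b)]
  refine add_le_add (good_le (by omega) hp hrb v _ fun K hK => ?_) (bad_le hp v _ fun K hK => ?_)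
  · rw [mem_filter, mem_filter, mem_cl] at hK
    exact ⟨hK.1.1, hK.1.2.1, hK.2⟩
  · rw [mem_filter, mem_filter, mem_cl] at hK
    refine ⟨hK.1.1, hK.1.2.1, hK.1.2.2, ?_⟩
    have h2 := hK.2
    push Not at h2
    exact h2

end Pool.Agent.Lib.MP_9afdc0_co
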