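import Pool.Agent.Lib.MP_9afdc0_co.LlB

/-! Means, trilinear forms and the layer cake bound. -/

namespace Pool.Agent.Lib.MP_9afdc0_co

open Finset
open scoped BigOperators

variable {α β γ : Type} [Fintype α] [Fintype β] [Fintype γ]

/-- The mean of a product. -/
noncomputable def ip (x y : α → ℝ) : ℝ := 𝔼 a, x a * y a

/-- The trilinear form of a weight. -/
noncomputable def Lam (w : α → β → γ → ℝ) (f : α → ℝ) (g : β → ℝ) (h : γ → ℝ) : ℝ :=
  𝔼 a, 𝔼 b, 𝔼 c, w a b c * (f a * g b * h c)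

/-- Bounded weights with bounded pair marginals and a bounded trilinear form. -/
structure Tri (w : α → β → γ → ℝ) (K t : ℝ) : Prop where
  pos : ∀ a b c, 0 ≤ w a b c
  top : ∀ a b c, w a b c ≤ t
  m3 : ∀ a b, 𝔼 c, w a b c ≤ K
  m2 : ∀ a c, 𝔼 b, w a b c ≤ K
  m1 : ∀ b c, 𝔼 a, w a b c ≤ K
  tri : ∀ f g h, ip f f ≤ 1 → ip g g ≤ 1 → ip h h ≤ 1 → Lam w f g h ≤ 2 ^ 12

theorem ip_comm (x y : α → ℝ) : ip x y = ip y x := expect_congr rfl fun _ _ => mul_comm _ _

theorem ip_pos (x : α → ℝ) : 0 ≤ ip x x := expect_nonneg fun _ _ => mul_self_nonneg _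

theorem ip_cs (x y : α → ℝ) : ip x y ^ 2 ≤ ip x x * ip y y := by
  simpa only [ip, sq] using expect_mul_sq_le_sq_mul_sq univ x y

theorem ip_smul (s : ℝ) (x y : α → ℝ) : ip (fun a => s * x a) y = s * ip x y := by
  simp only [ip, mul_expect, mul_assoc]

theorem ip_smul' (s : ℝ) (x y : α → ℝ) : ip x (fun a => s * y a) = s * ip x y := by
  rw [ip_comm, ip_smul, ip_comm]

theorem ip_add (x y z : α → ℝ) : ip (fun a => x a + y a) z = ip x z + ip y z := by
  simp only [ip, add_mul, expect_add_distrib]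

theorem ip_sub (x y z : α → ℝ) : ip (fun a => x a - y a) z = ip x z - ip y z := by
  simp only [ip, sub_mul, expect_sub_distrib]

theorem exists_unit {y : α → ℝ} (h : 0 < ip y y) :
    ∃ u : α → ℝ, ip u u = 1 ∧ ∀ a, y a = √(ip y y) * u a := by
  have hs := Real.sqrt_pos.2 h
  refine ⟨fun a => (√(ip y y))⁻¹ * y a, ?_, fun a => by field_simp⟩
  rw [ip_smul, ip_smul', ← mul_assoc, ← mul_inv, Real.mul_self_sqrt h.le, inv_mul_cancel₀ h.ne']

theorem dual {ρ : α → ℝ} {c : ℝ} (h : ∀ P, ip P P ≤ 1 → ip ρ P ≤ c) : ip ρ ρ ≤ c ^ 2 := by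
  rcases (ip_pos ρ).eq_or_lt with e | e
  · exact e ▸ sq_nonneg c
  · obtain ⟨u, hu, hy⟩ := exists_unit e
    have h1 : ip ρ u = √(ip ρ ρ) := by
      rw [show ip ρ u = ip (fun a => √(ip ρ ρ) * u a) u from congrArg (ip · u) (funext hy),
        ip_smul, hu, mul_one]
    rw [← Real.sq_sqrt e.le]
    exact pow_le_pow_left₀ (Real.sqrt_nonneg _) (h1 ▸ h u hu.le) 2

theorem Lam_swap12 (w : α → β → γ → ℝ) (f : α → ℝ) (g : β → ℝ) (h : γ → ℝ) :
    Lam (fun b a c => w a b c) g f h = Lam w f g h := by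
  unfold Lam
  rw [expect_comm]
  simp only [mul_comm (g _)]

theorem Lam_swap23 (w : α → β → γ → ℝ) (f : α → ℝ) (g : β → ℝ) (h : γ → ℝ) :
    Lam (fun a c b => w a b c) f h g = Lam w f g h := by
  refine expect_congr rfl fun a _ => (expect_comm _ _ _).trans ?_
  simp only [mul_right_comm (f a)]

theorem Lam_ip (w : α → β → γ → ℝ) (f : α → ℝ) (g : β → ℝ) (h : γ → ℝ) :
    Lam w f g h = ip f fun a => 𝔼 b, 𝔼 c, w a b c * (g b * h c) := by
  simp only [Lam, ip, mul_expect]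
  exact expect_congr rfl fun a _ => expect_congr rfl fun b _ => expect_congr rfl fun c _ => by ring

theorem Tri.swap12 {w : α → β → γ → ℝ} {K t : ℝ} (H : Tri w K t) :
    Tri (fun b a c => w a b c) K t :=
  ⟨fun b a c => H.pos a b c, fun b a c => H.top a b c, fun b a => H.m3 a b, H.m1, H.m2,
    fun g f h hg hf hh => (Lam_swap12 w f g h).trans_le (H.tri f g h hf hg hh)⟩

theorem Tri.swap23 {w : α → β → γ → ℝ} {K t : ℝ} (H : Tri w K t) :
    Tri (fun a c b => w a b c) K t :=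
  ⟨fun a c b => H.pos a b c, fun a c b => H.top a b c, H.m2, H.m3, fun c b => H.m1 b c,
    fun f h g hf hh hg => (Lam_swap23 w f g h).trans_le (H.tri f g h hf hg hh)⟩

end Pool.Agent.Lib.MP_9afdc0_co
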