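import Mathlib

/-! Top eigenvectors, nets of ellipsoids and the described power iteration. -/

namespace Pool.Agent.Lib.MP_9afdc0_co

open Finset
open scoped RealInnerProductSpace

variable {E : Type} [NormedAddCommGroup E] [InnerProductSpace ℝ E]

theorem pl_eigen [FiniteDimensional ℝ E] {S : E →ₗ[ℝ] E} (hS : S.IsSymmetric) {x : E}
    (hx : ‖x‖ ≤ 1) {θ : ℝ} (h0 : 0 < θ) (h : θ ≤ ⟪x, S x⟫) :
    ∃ (e : E) (σ : ℝ), ‖e‖ = 1 ∧ S e = σ • e ∧ θ ≤ σ := by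
  by_contra hc
  obtain ⟨b, hb⟩ : ∃ b, b = hS.eigenvectorBasis rfl := ⟨_, rfl⟩
  obtain ⟨l, hl⟩ : ∃ l, l = hS.eigenvalues rfl := ⟨_, rfl⟩
  have e1 : ∀ i, S (b i) = l i • b i := fun i => by
    rw [hb, hl]
    exact hS.apply_eigenvectorBasis rfl i
  have h1 : ∀ i, l i < θ := fun i => lt_of_not_ge fun g => hc ⟨_, _, b.orthonormal.1 i, e1 i, g⟩
  have h2 : ⟪x, S x⟫ = ∑ i, l i * ⟪x, b i⟫ ^ 2 := by
    rw [← b.sum_inner_mul_inner x (S x)]
    refine sum_congr rfl fun i _ => ?_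
    rw [← hS (b i) x, e1, real_inner_smul_left, real_inner_comm x (b i)]
    ring
  have h3 : ∑ i, ⟪x, b i⟫ ^ 2 = ‖x‖ ^ 2 := by
    rw [← real_inner_self_eq_norm_sq, ← b.sum_inner_mul_inner x x]
    refine sum_congr rfl fun i _ => ?_
    rw [real_inner_comm x (b i), sq]
  have h4 : ‖x‖ ^ 2 ≤ 1 := pow_le_one₀ (norm_nonneg _) hx
  have h5 : ∀ i ∈ (univ : Finset (Fin (Module.finrank ℝ E))), 0 ≤ (θ - l i) * ⟪x, b i⟫ ^ 2 :=
    fun i _ => mul_nonneg (sub_nonneg.2 (h1 i).le) (sq_nonneg _)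
  have h6 : ∑ i, (θ - l i) * ⟪x, b i⟫ ^ 2 = θ * ‖x‖ ^ 2 - ⟪x, S x⟫ := by
    rw [h2, ← h3, mul_sum, ← sum_sub_distrib]
    exact sum_congr rfl fun i _ => by ring
  have h7 : ∑ i, (θ - l i) * ⟪x, b i⟫ ^ 2 = 0 :=
    le_antisymm (by rw [h6]; nlinarith) (sum_nonneg h5)
  have h8 := (sum_eq_zero_iff_of_nonneg h5).1 h7
  have h9 : ⟪x, S x⟫ = 0 := by
    rw [h2]
    refine sum_eq_zero fun i hi => ?_
    rw [(mul_eq_zero.1 (h8 i hi)).resolve_left (sub_pos.2 (h1 i)).ne', mul_zero]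
  linarith

theorem pl_cs {α : Type} [Fintype α] {f c : α → ℝ} (hf : ∑ a, f a ^ 2 ≤ Fintype.card α) :
    (∑ a, f a * c a) ^ 2 ≤ (Fintype.card α : ℝ) * ∑ a, c a ^ 2 :=
  (sum_mul_sq_le_sq_mul_sq univ f c).trans (mul_le_mul_of_nonneg_right hf
    (sum_nonneg fun _ _ => sq_nonneg _))

/-- A net for the image of the ball under a map of bounded Hilbert-Schmidt norm. -/
theorem pl_net {α : Type} [Fintype α] {ε : ℝ} (hε : 0 < ε) {R : ℕ} (hR : 0 < R) (r : ℕ) :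
    r ≤ R → ∀ s : α → E, (Fintype.card α : ℝ) * ∑ a, ‖s a‖ ^ 2 ≤ r * ε ^ 2 →
      ∃ N : Finset E, N.card ≤ (2 * R ^ 2 + 1) ^ r ∧ ∀ f : α → ℝ, ∑ a, f a ^ 2 ≤ Fintype.card α →
        ∃ y ∈ N, ‖∑ a, f a • s a - y‖ ≤ ε + r * (ε / R) := by
  classical
  have hR' : (0 : ℝ) < R := Nat.cast_pos.2 hR
  have hμ : 0 < ε / R := div_pos hε hR'
  have triv : ∀ (r : ℕ) (s : α → E), (∀ f : α → ℝ, ∑ a, f a ^ 2 ≤ Fintype.card α → ‖∑ a, f a • s a‖ ≤ ε) →
      ∃ N : Finset E, N.card ≤ (2 * R ^ 2 + 1) ^ r ∧ ∀ f : α → ℝ, ∑ a, f a ^ 2 ≤ Fintype.card α →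
        ∃ y ∈ N, ‖∑ a, f a • s a - y‖ ≤ ε + r * (ε / R) := fun r s h =>
    ⟨{0}, by rw [card_singleton]; exact Nat.one_le_pow _ _ (by omega), fun f hf =>
      ⟨0, mem_singleton_self _, by
        rw [sub_zero]
        exact (h f hf).trans (le_add_of_nonneg_right (by positivity))⟩⟩
  have big : ∀ s : α → E, ¬ (∀ f : α → ℝ, ∑ a, f a ^ 2 ≤ Fintype.card α → ‖∑ a, f a • s a‖ ≤ ε) →
      ∃ e : E, ‖e‖ = 1 ∧ ε ^ 2 < (Fintype.card α : ℝ) * ∑ a, ⟪e, s a⟫ ^ 2 := by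
    intro s h
    simp only [not_forall, not_le] at h
    obtain ⟨f, hf, h⟩ := h
    have h1 : 0 < ‖∑ a, f a • s a‖ := hε.trans h
    refine ⟨‖∑ a, f a • s a‖⁻¹ • ∑ a, f a • s a, by
      rw [norm_smul, norm_inv, norm_norm, inv_mul_cancel₀ h1.ne'], ?_⟩
    refine lt_of_lt_of_le ?_ (pl_cs hf)
    have e : ∑ a, f a * ⟪‖∑ a, f a • s a‖⁻¹ • ∑ a, f a • s a, s a⟫ = ‖∑ a, f a • s a‖ := by
      simp only [← real_inner_smul_right, ← inner_sum]
      rw [real_inner_smul_left, real_inner_self_eq_norm_sq, sq, inv_mul_cancel_left₀ h1.ne']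
    rw [e]
    exact pow_lt_pow_left₀ h hε.le two_ne_zero
  have le1 : ∀ (s : α → E) (e : E), ‖e‖ = 1 → (Fintype.card α : ℝ) * ∑ a, ⟪e, s a⟫ ^ 2 ≤
      (Fintype.card α : ℝ) * ∑ a, ‖s a‖ ^ 2 := fun s e he =>
    mul_le_mul_of_nonneg_left (sum_le_sum fun a _ => by
      have := abs_real_inner_le_norm e (s a)
      rw [he, one_mul] at this
      exact sq_le_sq.2 (this.trans (le_abs_self _))) (Nat.cast_nonneg _)
  induction r with
  | zero =>
    intro _ s hs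
    refine triv 0 s (by_contra fun h => ?_)
    obtain ⟨e, he, h1⟩ := big s h
    have := le1 s e he
    rw [Nat.cast_zero, zero_mul] at hs
    nlinarith [sq_nonneg ε]
  | succ r ih =>
    intro hr s hs
    by_cases h : ∀ f : α → ℝ, ∑ a, f a ^ 2 ≤ Fintype.card α → ‖∑ a, f a • s a‖ ≤ ε
    · exact triv _ s h
    obtain ⟨e, he, h1⟩ := big s h
    have e1 : ∀ a, ‖s a - ⟪e, s a⟫ • e‖ ^ 2 = ‖s a‖ ^ 2 - ⟪e, s a⟫ ^ 2 := fun a => by
      rw [norm_sub_sq_real, real_inner_smul_right, norm_smul, he, mul_one, Real.norm_eq_abs,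
        sq_abs, real_inner_comm e (s a)]
      ring
    obtain ⟨N, hN, hy⟩ := ih (by omega) (fun a => s a - ⟪e, s a⟫ • e) (by
      simp only [e1, sum_sub_distrib]
      push_cast at hs
      nlinarith)
    refine ⟨(N ×ˢ Icc (-(R : ℤ) ^ 2) ((R : ℤ) ^ 2)).image
      fun q => q.1 + ((q.2 : ℝ) * (ε / R)) • e, ?_, fun f hf => ?_⟩
    · refine card_image_le.trans ?_
      rw [card_product, Int.card_Icc, pow_succ]
      refine Nat.mul_le_mul hN (Int.toNat_le.2 (le_of_eq ?_))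
      push_cast
      ring
    · obtain ⟨y, hyN, hy⟩ := hy f hf
      obtain ⟨c, hc⟩ : ∃ c, c = ∑ a, f a * ⟪e, s a⟫ := ⟨_, rfl⟩
      have h2 : c ^ 2 ≤ (R * ε) ^ 2 := by
        have h3 : ((r + 1 : ℕ) : ℝ) ≤ R := Nat.cast_le.2 hr
        have h4 : (1 : ℝ) ≤ R := Nat.one_le_cast.2 hR
        have h5 := (pl_cs (c := fun a => ⟪e, s a⟫) hf).trans ((le1 s e he).trans hs)
        rw [← hc] at h5
        have h6 : ((r + 1 : ℕ) : ℝ) ≤ R ^ 2 := by nlinarith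
        rw [mul_pow]
        exact h5.trans (mul_le_mul_of_nonneg_right h6 (sq_nonneg _))
      have h3 := abs_le.1 (abs_le_of_sq_le_sq h2 (by positivity))
      have h4 : (R : ℝ) ^ 2 * (ε / R) = R * ε := by field_simp
      refine ⟨_, mem_image.2 ⟨(y, ⌊c / (ε / R)⌋), mem_product.2 ⟨hyN, mem_Icc.2 ⟨?_, ?_⟩⟩, rfl⟩, ?_⟩
      · refine Int.le_floor.2 ?_
        push_cast
        rw [le_div_iff₀ hμ]
        linarith
      · refine Int.cast_le (R := ℝ).1 ((Int.floor_le _).trans ?_)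
        push_cast
        rw [div_le_iff₀ hμ]
        linarith
      · have e2 : ∑ a, f a • s a - (y + ((⌊c / (ε / R)⌋ : ℝ) * (ε / R)) • e) =
            (∑ a, f a • (s a - ⟪e, s a⟫ • e) - y) + (c - (⌊c / (ε / R)⌋ : ℝ) * (ε / R)) • e := by
          simp only [smul_sub, sum_sub_distrib, smul_smul, ← sum_smul, ← hc, sub_smul]
          abel
        rw [e2]
        refine (norm_add_le _ _).trans ?_
        rw [norm_smul, he, mul_one, Real.norm_eq_abs]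
        have h5 := (le_div_iff₀ hμ).1 (Int.floor_le (c / (ε / R)))
        have h6 := (div_lt_iff₀ hμ).1 (Int.lt_floor_add_one (c / (ε / R)))
        rw [abs_of_nonneg (sub_nonneg.2 h5)]
        push_cast
        linarith

/-- The described power iteration. -/
theorem pl_iter {ι : Type} (S : ι → E →ₗ[ℝ] E) (hS : ∀ f, (S f).IsSymmetric) {θ η : ℝ}
    (h0 : 0 < θ) (hη : 0 < η) (hη1 : η ≤ 1 / 4) {m : ℕ} (hm : 1 ≤ m)
    (net : ∀ x : E, ‖x‖ ≤ 1 → ∃ N : Finset E, N.card ≤ m ∧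
      ∀ f, ∃ y ∈ N, ‖S f x - y‖ ≤ θ * η / 2) (k : ℕ) :
    ∀ x : E, ‖x‖ ≤ 1 → ∃ P : Finset (E × E), P.card ≤ (2 * m) ^ k ∧
      (∀ q ∈ P, ‖q.1‖ ≤ 1 ∧ ‖q.2‖ ≤ 1) ∧ ∀ (f : ι) (e : E) (σ : ℝ), ‖e‖ = 1 → S f e = σ • e →
        θ ≤ σ → η ≤ ⟪x, e⟫ → 1 < ⟪x, e⟫ + k * η → ∃ q ∈ P, θ / 8 ≤ ⟪q.1, S f q.2⟫ := by
  classical
  induction k with
  | zero =>
    intro x hx
    refine ⟨∅, Nat.zero_le _, fun _ h => absurd h (notMem_empty _), fun f e σ he _ _ _ h => ?_⟩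
    have := real_inner_le_norm x e
    rw [he, mul_one] at this
    rw [Nat.cast_zero, zero_mul, add_zero] at h
    linarith
  | succ k ih =>
    intro x hx
    obtain ⟨N, hN, hy⟩ := net x hx
    have n1 : ∀ y : E, ‖y‖ ≤ θ / 4 → ‖(4 / θ) • y‖ ≤ 1 := fun y h => by
      rw [norm_smul, Real.norm_eq_abs, abs_of_pos (by positivity), div_mul_eq_mul_div,
        div_le_one h0]
      linarith
    choose G hG using fun y : {y : E // ‖y‖ ≤ θ / 4} => ih _ (n1 y.1 y.2)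
    let G' : E → Finset (E × E) := fun y => if h : ‖y‖ ≤ θ / 4 then G ⟨y, h⟩ else ∅
    refine ⟨N.image (fun y => (‖y‖⁻¹ • y, x)) ∪ N.biUnion G', ?_, fun q hq => ?_,
      fun f e σ he h1 h2 h3 h4 => ?_⟩
    · have c1 : (N.biUnion G').card ≤ N.card * (2 * m) ^ k :=
        card_biUnion_le_card_mul _ _ _ fun y _ => by
          simp only [G']
          split_ifs with h
          · exact (hG ⟨y, h⟩).1
          · exact Nat.zero_le _
      have c2 : 1 ≤ (2 * m) ^ k := Nat.one_le_pow _ _ (by omega)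
      have c3 := Nat.mul_le_mul_right ((2 * m) ^ k) hN
      have c4 := (card_image_le (s := N) (f := fun y => (‖y‖⁻¹ • y, x))).trans hN
      have c5 := Nat.mul_le_mul_left m c2
      refine (card_union_le _ _).trans ?_
      rw [pow_succ]
      nlinarith
    · rcases mem_union.1 hq with h | h
      · obtain ⟨y, -, rfl⟩ := mem_image.1 h
        refine ⟨?_, hx⟩
        rw [norm_smul, norm_inv, norm_norm]
        exact inv_mul_le_one
      · obtain ⟨y, -, h⟩ := mem_biUnion.1 h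
        simp only [G'] at h
        split_ifs at h with h'
        · exact (hG ⟨y, h'⟩).2.1 q h
        · exact absurd h (notMem_empty _)
    · obtain ⟨y, hyN, hy⟩ := hy f
      by_cases h : ‖y‖ ≤ θ / 4
      · have a1 : ⟪S f x, e⟫ = σ * ⟪x, e⟫ := by rw [hS f x e, h1, real_inner_smul_right]
        have a2 := real_inner_le_norm (S f x - y) e
        rw [he, mul_one, inner_sub_left, a1] at a2
        have a3 : θ * ⟪x, e⟫ ≤ σ * ⟪x, e⟫ := mul_le_mul_of_nonneg_right h2 (hη.le.trans h3)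
        have a4 : ⟪x, e⟫ + η ≤ ⟪(4 / θ) • y, e⟫ := by
          rw [real_inner_smul_left, div_mul_eq_mul_div, le_div_iff₀ h0]
          nlinarith
        obtain ⟨q, hq, h5⟩ := (hG ⟨y, h⟩).2.2 f e σ he h1 h2 (by linarith) (by
          push_cast at h4
          linarith)
        refine ⟨q, mem_union_right _ (mem_biUnion.2 ⟨y, hyN, ?_⟩), h5⟩
        simp only [G']
        rwa [dif_pos h]
      · refine ⟨_, mem_union_left _ (mem_image.2 ⟨y, hyN, rfl⟩), ?_⟩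
        have b0 : θ / 4 < ‖y‖ := lt_of_not_ge h
        have b1 : 0 < ‖y‖ := lt_trans (by positivity) b0
        have b2 := abs_real_inner_le_norm y (S f x - y)
        rw [inner_sub_right, real_inner_self_eq_norm_sq] at b2
        have b3 := (abs_le.1 b2).1
        have b4 := mul_le_mul_of_nonneg_left hy b1.le
        have b5 : θ * η ≤ θ * (1 / 4) := mul_le_mul_of_nonneg_left hη1 h0.le
        rw [real_inner_smul_left, inv_mul_eq_div, le_div_iff₀ b1]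
        nlinarith

end Pool.Agent.Lib.MP_9afdc0_co
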