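import Pool.Agent.Lib.MP_9afdc0_co.PlA

/-! The layer cake bound and the trilinear bound. -/

namespace Pool.Agent.Lib.MP_9afdc0_co

open Finset
open scoped BigOperators

variable {α β γ : Type} [Fintype α] [Fintype β] [Fintype γ]

open Classical in
/-- The indicator of a finite set. -/
noncomputable def ind (E : Finset α) (a : α) : ℝ := if a ∈ E then 1 else 0

/-- The density of a finite set. -/
noncomputable def dn (E : Finset α) : ℝ := 𝔼 a, ind E a

/-- The mass of every set is at most a multiple of the power two thirds of its density. -/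
def Bl (ρ : α → ℝ) (κ : ℝ) : Prop := ∀ E : Finset α, ip ρ (ind E) ^ 3 ≤ κ * dn E ^ 2

omit [Fintype α] in
theorem ind_pos (E : Finset α) (a : α) : 0 ≤ ind E a := by
  unfold ind
  split_ifs <;> norm_num

omit [Fintype α] in
theorem ind_le (E : Finset α) (a : α) : ind E a ≤ 1 := by
  unfold ind
  split_ifs <;> norm_num

theorem ind_univ (a : α) : ind univ a = 1 := if_pos (mem_univ a)

theorem ind_filter (p : α → Prop) [DecidablePred p] (a : α) :
    ind (univ.filter p) a = if p a then 1 else 0 := by simp [ind]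

theorem ex_le' [Nonempty α] {u : α → ℝ} {c : ℝ} (h : ∀ a, u a ≤ c) : 𝔼 a, u a ≤ c :=
  expect_le univ_nonempty fun a _ => h a

theorem ex_mono {u v : α → ℝ} (h : ∀ a, u a ≤ v a) : 𝔼 a, u a ≤ 𝔼 a, v a :=
  expect_le_expect fun a _ => h a

theorem ex_pos {u : α → ℝ} (h : ∀ a, 0 ≤ u a) : 0 ≤ 𝔼 a, u a := expect_nonneg fun a _ => h a

theorem dn_pos (E : Finset α) : 0 ≤ dn E := ex_pos (ind_pos E)

theorem dn_le [Nonempty α] (E : Finset α) : dn E ≤ 1 := ex_le' (ind_le E)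

theorem dn_univ [Nonempty α] : dn (univ : Finset α) = 1 := by simp [dn, ind_univ]

theorem dn_eq (E : Finset α) : dn E = E.card / Fintype.card α := by
  simp [dn, ind, Fintype.expect_eq_sum_div_card]

theorem ip_mono {ρ x y : α → ℝ} (h : ∀ a, 0 ≤ ρ a) (hx : ∀ a, x a ≤ y a) : ip ρ x ≤ ip ρ y :=
  ex_mono fun a => mul_le_mul_of_nonneg_left (hx a) (h a)

theorem layer [Nonempty α] {ρ P : α → ℝ} {c : ℝ} (h : ∀ a, 0 ≤ ρ a) (hc : 0 ≤ c)
    (hb : Bl ρ (c ^ 3)) (hP : ip P P ≤ 1) : ip ρ (fun a => |P a|) ≤ 15 * c := by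
  classical
  have key : ∀ N : ℕ, ip ρ (fun a => min |P a| (8 ^ N)) ≤ c * (15 - 14 * (1 / 2) ^ N) := by
    intro N
    induction N with
    | zero =>
      have h1 := hb univ
      rw [dn_univ, one_pow, mul_one] at h1
      refine (ip_mono h fun a => ?_).trans
        ((le_of_pow_le_pow_left₀ three_ne_zero hc h1).trans_eq (by ring))
      rw [ind_univ, pow_zero]
      exact min_le_right _ _
    | succ N ih =>
      obtain ⟨m, hm⟩ : ∃ m : ℝ, m = 2 ^ N := ⟨_, rfl⟩
      have pm : 0 < m := hm ▸ by positivity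
      have e8 : (8 : ℝ) ^ N = m ^ 3 := by rw [hm, ← pow_mul, mul_comm, pow_mul]; norm_num
      let E := univ.filter fun a => m ^ 3 < |P a|
      have h1 : m ^ 6 * dn E ≤ 1 := by
        refine le_trans ?_ hP
        rw [dn, mul_expect]
        refine ex_mono fun a => ?_
        rw [ind_filter]
        split_ifs with ha
        · have := pow_le_pow_left₀ (by positivity) ha.le 2
          rw [sq_abs] at this
          nlinarith
        · rw [mul_zero]
          exact mul_self_nonneg _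
      have h2 : m ^ 4 * ip ρ (ind E) ≤ c := by
        refine le_of_pow_le_pow_left₀ three_ne_zero hc ?_
        have h3 := pow_le_one₀ (n := 2) (mul_nonneg (by positivity) (dn_pos E)) h1
        have h4 := mul_le_mul_of_nonneg_left (hb E) (show 0 ≤ m ^ 12 by positivity)
        nlinarith [mul_le_mul_of_nonneg_left h3 (pow_nonneg hc 3)]
      have h3 : ip ρ (fun a => min |P a| (8 ^ (N + 1))) ≤
          ip ρ (fun a => min |P a| (8 ^ N)) + 7 * m ^ 3 * ip ρ (ind E) := by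
        rw [← ip_smul', ip_comm ρ (fun a => min |P a| (8 ^ N)), ip_comm ρ fun a => _ * _,
          ← ip_add, ip_comm _ ρ]
        refine ip_mono h fun a => ?_
        rw [ind_filter, pow_succ, e8]
        split_ifs with ha
        · rw [min_eq_right ha.le]
          exact (min_le_right _ _).trans (by linarith)
        · rw [min_eq_left (not_lt.1 ha)]
          exact (min_le_left _ _).trans (by linarith)
      have e2 : (1 / 2 : ℝ) ^ N = m⁻¹ := by rw [hm, one_div, inv_pow]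
      rw [pow_succ (1 / 2 : ℝ), e2]
      rw [e2] at ih
      have h4 : m ^ 3 * ip ρ (ind E) ≤ c * m⁻¹ := by
        rw [← div_eq_mul_inv, le_div_iff₀ pm]
        linarith
      linarith
  obtain ⟨N, hN⟩ := pow_unbounded_of_one_lt (∑ a, |P a|) (show (1 : ℝ) < 8 by norm_num)
  refine (ip_mono h fun a => ?_).trans ((key N).trans ?_)
  · exact le_min le_rfl ((single_le_sum (f := fun a => |P a|) (fun a _ => abs_nonneg _)
      (mem_univ a)).trans hN.le)
  · nlinarith [mul_nonneg hc (show (0 : ℝ) ≤ (1 / 2) ^ N by positivity)]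

theorem Bl.norm [Nonempty α] {ρ P : α → ℝ} {c : ℝ} (hb : Bl ρ (c ^ 3)) (h : ∀ a, 0 ≤ ρ a)
    (hc : 0 ≤ c) (hP : ip P P ≤ 1) : ip ρ P ≤ 15 * c :=
  (ip_mono h fun _ => le_abs_self _).trans (layer h hc hb hP)

theorem Lam_mono {w : α → β → γ → ℝ} (hw : ∀ a b c, 0 ≤ w a b c) {f f' : α → ℝ} {g g' : β → ℝ}
    {h h' : γ → ℝ} (H : ∀ a b c, f a * g b * h c ≤ f' a * g' b * h' c) :
    Lam w f g h ≤ Lam w f' g' h' :=
  ex_mono fun a => ex_mono fun b => ex_mono fun c => mul_le_mul_of_nonneg_left (H a b c) (hw a b c)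

theorem Lam_layer [Nonempty α] {w : α → β → γ → ℝ} (hw : ∀ a b c, 0 ≤ w a b c) {f : α → ℝ}
    {g : β → ℝ} {h : γ → ℝ} (hg : ∀ b, 0 ≤ g b) (hh : ∀ c, 0 ≤ h c) {κ : ℝ} (hκ : 0 ≤ κ)
    (H : ∀ E, Lam w (ind E) g h ^ 3 ≤ κ * dn E ^ 2) (hf : ip f f ≤ 1) :
    Lam w (fun a => |f a|) g h ^ 3 ≤ 15 ^ 3 * κ := by
  obtain ⟨c, hc, rfl⟩ : ∃ c : ℝ, 0 ≤ c ∧ κ = c ^ 3 :=
    ⟨κ ^ ((3 : ℕ) : ℝ)⁻¹, by positivity, (Real.rpow_inv_natCast_pow hκ three_ne_zero).symm⟩
  have hρ : ∀ a, 0 ≤ 𝔼 b, 𝔼 c, w a b c * (g b * h c) := fun a => ex_pos fun b => ex_pos fun c =>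
    mul_nonneg (hw a b c) (mul_nonneg (hg b) (hh c))
  rw [Lam_ip, ip_comm, ← mul_pow]
  refine pow_le_pow_left₀ (ex_pos fun a => mul_nonneg (hρ a) (abs_nonneg _))
    (layer hρ hc (fun E => ?_) hf) 3
  rw [ip_comm, ← Lam_ip]
  exact H E

theorem tri_of [Nonempty α] [Nonempty β] [Nonempty γ] {w : α → β → γ → ℝ}
    (hw : ∀ a b c, 0 ≤ w a b c)
    (H : ∀ E F G, Lam w (ind E) (ind F) (ind G) ^ 3 ≤ (dn E * dn F * dn G) ^ 2)
    (f : α → ℝ) (g : β → ℝ) (h : γ → ℝ) (hf : ip f f ≤ 1) (hg : ip g g ≤ 1) (hh : ip h h ≤ 1) :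
    Lam w f g h ≤ 2 ^ 12 := by
  have h1 : ∀ F G, Lam w (fun a => |f a|) (ind F) (ind G) ^ 3 ≤ 15 ^ 3 * (dn F * dn G) ^ 2 :=
    fun F G => Lam_layer hw (ind_pos F) (ind_pos G) (sq_nonneg _)
      (fun E => (H E F G).trans_eq (by ring)) hf
  have h2 : ∀ G, Lam w (fun a => |f a|) (fun b => |g b|) (ind G) ^ 3 ≤
      15 ^ 3 * (15 ^ 3 * dn G ^ 2) := fun G => by
    rw [← Lam_swap12]
    refine Lam_layer (fun b a c => hw a b c) (fun _ => abs_nonneg _) (ind_pos G) (by positivity)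
      (fun F => ?_) hg
    rw [Lam_swap12]
    exact (h1 F G).trans_eq (by ring)
  have h3 : Lam w (fun a => |f a|) (fun b => |g b|) (fun c => |h c|) ^ 3 ≤
      15 ^ 3 * (15 ^ 3 * 15 ^ 3) := by
    rw [← Lam_swap23, ← Lam_swap12]
    refine Lam_layer (fun c a b => hw a b c) (fun _ => abs_nonneg _) (fun _ => abs_nonneg _)
      (by positivity) (fun G => ?_) hh
    rw [Lam_swap12 (fun a c b => w a b c), Lam_swap23]
    exact (h2 G).trans_eq (by ring)
  refine (Lam_mono hw fun a b c => ?_).trans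
    (le_of_pow_le_pow_left₀ three_ne_zero (by norm_num) (h3.trans (by norm_num)))
  rw [← abs_mul, ← abs_mul]
  exact le_abs_self _

end Pool.Agent.Lib.MP_9afdc0_co
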