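import Pool.Agent.Lib.MP_9afdc0_co.PlB

/-! Weak regularity for two families of functions indexed by a partitioned set. -/

namespace Pool.Agent.Lib.MP_9afdc0_co

open Finset
open scoped BigOperators

variable {α β V : Type} [Fintype α] [Fintype β] [Fintype V]

/-- The average of a family of functions over the cell of the index. -/
noncomputable def avf (r : Setoid V) (φ : V → α → ℝ) (d : V) (a : α) : ℝ :=
  ∑ e, av r d e * φ e a

/-- The mean inner product of two families. -/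
noncomputable def ip2 (x y : V → α → ℝ) : ℝ := 𝔼 d, ip (x d) (y d)

omit [Fintype α] in
theorem avf_inv (s : Setoid V) (φ : V → α → ℝ) : s ≤ Setoid.ker (avf s φ) := fun _ _ h =>
  funext fun _ => sum_congr rfl fun e _ => by rw [av_congr s h e]

omit [Fintype α] in
theorem avf_fix {s : Setoid V} {φ : V → α → ℝ} (h : s ≤ Setoid.ker φ) : avf s φ = φ :=
  funext₂ fun d a => av_fix s (u := fun e => φ e a) (fun _ _ e => congrFun (h e) a) d

omit [Fintype α] in
theorem avf_avf {s s' : Setoid V} (h : s' ≤ s) (φ : V → α → ℝ) :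
    avf s (avf s' φ) = avf s φ := by
  funext d a
  simp only [avf, mul_sum, ← mul_assoc]
  rw [sum_comm]
  simp only [← sum_mul]
  exact sum_congr rfl fun e _ => by rw [← Matrix.mul_apply, mul_av h]

omit [Fintype α] in
theorem avf_mono (s : Setoid V) {φ ψ : V → α → ℝ} (h : ∀ d a, φ d a ≤ ψ d a) (d : V) (a : α) :
    avf s φ d a ≤ avf s ψ d a :=
  sum_le_sum fun e _ => mul_le_mul_of_nonneg_left (h e a) (av_pos s d e)

theorem av_bound (s : Setoid V) {u : V → ℝ} {c : ℝ} (h : ∀ e, u e ≤ c) (d : V) :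
    ∑ e, av s d e * u e ≤ c := by
  refine (sum_le_sum fun e _ => mul_le_mul_of_nonneg_left (h e) (av_pos s d e)).trans_eq ?_
  rw [← sum_mul, av_row, one_mul]

theorem ip_avf (s : Setoid V) (φ : V → α → ℝ) (d : V) (P : α → ℝ) :
    ip (avf s φ d) P = ∑ e, av s d e * ip (φ e) P := by
  simp only [ip, avf, sum_mul, mul_expect, mul_assoc]
  exact expect_sum_comm _ _ _

theorem ip2_comm (x y : V → α → ℝ) : ip2 x y = ip2 y x :=
  expect_congr rfl fun _ _ => ip_comm _ _

theorem ip2_avf (s : Setoid V) (x y : V → α → ℝ) : ip2 (avf s x) y = ip2 x (avf s y) := by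
  rw [ip2_comm x]
  simp only [ip2, ip_avf, Fintype.expect_eq_sum_div_card]
  rw [sum_comm]
  congr 1
  exact sum_congr rfl fun d _ => sum_congr rfl fun e _ => by rw [av_symm, ip_comm]

theorem ip2_sub (x y z : V → α → ℝ) : ip2 (fun d a => x d a - y d a) z = ip2 x z - ip2 y z := by
  simp only [ip2, ip_sub, expect_sub_distrib]

theorem ip2_cs (x y : V → α → ℝ) : ip2 x y ^ 2 ≤ ip2 x x * ip2 y y := by
  have e : ∀ x y : V → α → ℝ, ip2 x y = ip (fun p : V × α => x p.1 p.2) fun p => y p.1 p.2 :=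
    fun x y => by rw [ip, ← univ_product_univ, expect_product]; rfl
  simp only [e]
  exact ip_cs _ _

theorem ip2_pos (x : V → α → ℝ) : 0 ≤ ip2 x x := ex_pos fun _ => ip_pos _

theorem pyth {s s' : Setoid V} (h : s' ≤ s) (φ : V → α → ℝ) :
    ip2 (fun d a => avf s φ d a - avf s' φ d a) (fun d a => avf s φ d a - avf s' φ d a) =
      ip2 (avf s' φ) (avf s' φ) - ip2 (avf s φ) (avf s φ) := by
  have e : ip2 (avf s' φ) (avf s φ) = ip2 (avf s φ) (avf s φ) := by
    rw [ip2_avf s', ip2_avf s, avf_avf le_rfl, avf_fix (h.trans (avf_inv s φ))]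
  rw [ip2_sub, ip2_comm (avf s φ), ip2_comm (avf s' φ), ip2_sub, ip2_sub, e,
    ip2_comm (avf s φ) (avf s' φ), e]
  ring

theorem gain [Nonempty V] {s s' : Setoid V} (h : s' ≤ s) (φ : V → α → ℝ) {ψ : V → α → ℝ}
    (hψ : s' ≤ Setoid.ker ψ) (h1 : ∀ d, ip (ψ d) (ψ d) ≤ 1) :
    ip2 (fun d a => avf s φ d a - φ d a) ψ ^ 2 ≤
      ip2 (avf s' φ) (avf s' φ) - ip2 (avf s φ) (avf s φ) := by
  rw [← pyth h, ip2_sub, ← avf_fix hψ, ← ip2_avf s' φ, avf_fix hψ, ← ip2_sub]
  exact (ip2_cs _ _).trans (mul_le_of_le_one_right (ip2_pos _) (ex_le' h1))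

/-- No choice of labels correlates with the deviation from the averages. -/
def FkReg (r s : Setoid V) (Ψ : Finset (α → ℝ)) (f : V → α → ℝ) (η : ℝ) : Prop :=
  ∀ ψ : V → α → ℝ, r ≤ Setoid.ker ψ → (∀ d, ψ d ∈ Ψ ∧ ip (ψ d) (ψ d) ≤ 1) →
    ip2 (fun d a => avf s f d a - f d a) ψ ≤ η

theorem en_mono {s s' : Setoid V} (h : s' ≤ s) (φ : V → α → ℝ) :
    ip2 (avf s φ) (avf s φ) ≤ ip2 (avf s' φ) (avf s' φ) :=
  sub_nonneg.1 (pyth h φ ▸ ip2_pos _)

theorem fk [Nonempty V] (r : Setoid V) (f : V → α → ℝ) (g : V → β → ℝ) (Ψ : Finset (α → ℝ))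
    (Φ : Finset (β → ℝ)) {N η : ℝ} (hN : 1 ≤ N) (hΨ : Ψ.card ≤ N) (hΦ : Φ.card ≤ N) (hη : 0 ≤ η)
    (k : ℕ) (hk : ip2 f f + ip2 g g < k * η ^ 2) :
    ∃ s, r ≤ s ∧ tr s ≤ N ^ k ∧ FkReg r s Ψ f η ∧ FkReg r s Φ g η := by
  have key : ∀ k : ℕ, ∃ s, r ≤ s ∧ tr s ≤ N ^ k ∧ ((FkReg r s Ψ f η ∧ FkReg r s Φ g η) ∨
      k * η ^ 2 ≤ ip2 (avf s f) (avf s f) + ip2 (avf s g) (avf s g)) := by
    intro k
    induction k with
    | zero =>
      exact ⟨⊤, le_top, by rw [tr_top, pow_zero], Or.inr (by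
        rw [Nat.cast_zero, zero_mul]; exact add_nonneg (ip2_pos _) (ip2_pos _))⟩
    | succ k ih =>
      obtain ⟨s, h1, h2, h3⟩ := ih
      by_cases h4 : FkReg r s Ψ f η ∧ FkReg r s Φ g η
      · exact ⟨s, h1, h2.trans (pow_le_pow_right₀ hN k.le_succ), Or.inl h4⟩
      replace h3 := h3.resolve_left h4
      rcases not_and_or.1 h4 with h5 | h5 <;> simp only [FkReg, not_forall, not_le] at h5 <;>
        obtain ⟨ψ, p1, p2, p3⟩ := h5 <;>
        refine ⟨s ⊓ Setoid.ker ψ, le_inf h1 p1, (tr_inf s ψ _ fun d => (p2 d).1).trans ?_,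
          Or.inr ?_⟩
      · rw [pow_succ']
        exact mul_le_mul hΨ h2 (tr_pos s) (by linarith)
      · have := gain (inf_le_left (b := Setoid.ker ψ)) f inf_le_right (s := s) fun d => (p2 d).2
        have := en_mono (inf_le_left (a := s) (b := Setoid.ker ψ)) g
        have := pow_le_pow_left₀ hη p3.le 2
        push_cast
        linarith
      · rw [pow_succ']
        exact mul_le_mul hΦ h2 (tr_pos s) (by linarith)
      · have := gain (inf_le_left (b := Setoid.ker ψ)) g inf_le_right (s := s) fun d => (p2 d).2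
        have := en_mono (inf_le_left (a := s) (b := Setoid.ker ψ)) f
        have := pow_le_pow_left₀ hη p3.le 2
        push_cast
        linarith
  obtain ⟨s, h1, h2, h3 | h3⟩ := key k
  · exact ⟨s, h1, h2, h3⟩
  · have e1 := en_mono (bot_le (a := s)) f
    have e2 := en_mono (bot_le (a := s)) g
    rw [avf_fix bot_le] at e1 e2
    linarith

end Pool.Agent.Lib.MP_9afdc0_co
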