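import Pool.Agent.Lib.MP_9afdc0_co.PlA
import Pool.Agent.Lib.MP_9afdc0_co.PlAbs

/-! The cover lemma: few test functions detect every large trilinear form. -/

namespace Pool.Agent.Lib.MP_9afdc0_co

open Finset
open scoped BigOperators RealInnerProductSpace

variable {α β γ : Type} [Fintype α] [Fintype β] [Fintype γ]

theorem ip_sum [Nonempty α] {x : α → ℝ} (h : ip x x ≤ 1) : ∑ a, x a ^ 2 ≤ Fintype.card α := by
  have hn : (0 : ℝ) < Fintype.card α := Nat.cast_pos.2 Fintype.card_pos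
  rw [ip, Fintype.expect_eq_sum_div_card, div_le_one hn] at h
  simpa only [sq] using h

theorem plc_num {N t x : ℝ} (hN : 0 ≤ N) (ht : 1 ≤ t) (h0 : 0 < x) (h1 : x < 1)
    (h : ∀ j : ℕ, (N * x ^ 2 ^ j) ^ 2 ≤ t * (N + N ^ 2 * |x ^ 4| ^ 2 ^ j)) :
    N * x ^ 2 ≤ 8 * t ^ 3 := by
  classical
  have ex : ∃ j : ℕ, 2 * t * (x ^ 2 ^ j) ^ 2 ≤ 1 := by
    obtain ⟨j, hj⟩ := exists_pow_lt_of_lt_one (show 0 < 1 / (2 * t) by positivity) h1
    refine ⟨j, ?_⟩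
    have h2 : (x ^ 2 ^ j) ^ 2 ≤ x ^ j := by
      rw [← pow_mul]
      exact pow_le_pow_of_le_one h0.le h1.le (by have := @Nat.lt_two_pow_self j; omega)
    rw [lt_div_iff₀ (by positivity)] at hj
    nlinarith
  have h2 := Nat.find_spec ex
  have h3 := h (Nat.find ex)
  have h4 : x ^ 2 ≤ 4 * t ^ 2 * (x ^ 2 ^ Nat.find ex) ^ 2 := by
    have x2 : x ^ 2 ≤ 1 := pow_le_one₀ h0.le h1.le
    rcases e : Nat.find ex with _ | j
    · rw [pow_zero, pow_one]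
      exact le_mul_of_one_le_left (sq_nonneg x) (by nlinarith)
    · have h5 := lt_of_not_ge (Nat.find_min ex (show j < Nat.find ex by omega))
      rw [← pow_mul, ← pow_succ] at h5
      nlinarith
  rw [abs_of_nonneg (by positivity), ← pow_mul x 4, mul_comm 4, pow_mul] at h3
  obtain ⟨s, hs⟩ : ∃ s, s = x ^ 2 ^ Nat.find ex := ⟨_, rfl⟩
  rw [← hs] at h2 h3 h4
  rcases hN.eq_or_lt with rfl | hN
  · rw [zero_mul]
    positivity
  have h5 : t * (N ^ 2 * s ^ 4) ≤ N ^ 2 * s ^ 2 / 2 := by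
    nlinarith [mul_le_mul_of_nonneg_left h2 (show 0 ≤ N ^ 2 * s ^ 2 by positivity)]
  have h6 : N * s ^ 2 ≤ 2 * t := le_of_mul_le_mul_left (a := N) (by nlinarith) hN
  calc N * x ^ 2 ≤ N * (4 * t ^ 2 * s ^ 2) := mul_le_mul_of_nonneg_left h4 hN.le
    _ = 4 * t ^ 2 * (N * s ^ 2) := by ring
    _ ≤ 4 * t ^ 2 * (2 * t) := mul_le_mul_of_nonneg_left h6 (by positivity)
    _ = 8 * t ^ 3 := by ring

theorem Tri.few [Nonempty α] [Nonempty β] [Nonempty γ] {w : α → β → γ → ℝ} {K t : ℝ}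
    (H : Tri w K t) {Z : ℝ} (hZ : 2 ≤ Z) (hK : K ≤ Z) (ht : 1 ≤ t) {ι : Type} (F : Finset ι)
    (f : ι → α → ℝ) (u : ι → β → ℝ) (v : ι → γ → ℝ)
    (h1 : ∀ i ∈ F, ip (f i) (f i) ≤ 1 ∧ ip (u i) (u i) ≤ 1 ∧ ip (v i) (v i) ≤ 1 ∧
      (Z ^ 2)⁻¹ ≤ Lam w (f i) (u i) (v i))
    (h2 : ∀ i ∈ F, ∀ i' ∈ F, i ≠ i' → |ip (v i) (v i')| ≤ (Z ^ 12)⁻¹) :
    (F.card : ℝ) ≤ 8 * t ^ 3 * Z ^ 6 := by
  have ha : (0 : ℝ) < Fintype.card α := Nat.cast_pos.2 Fintype.card_pos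
  have hb : (0 : ℝ) < Fintype.card β := Nat.cast_pos.2 Fintype.card_pos
  have hc : (0 : ℝ) < Fintype.card γ := Nat.cast_pos.2 Fintype.card_pos
  have Z0 : 0 < Z := by linarith
  have Z3 : 1 < Z ^ 3 := one_lt_pow₀ (by linarith) (by norm_num)
  have key := plc_num (N := F.card) (x := (Z ^ 3)⁻¹) (Nat.cast_nonneg _) ht (by positivity)
    (inv_lt_one_of_one_lt₀ Z3) fun j => ?_
  · rw [inv_pow, ← pow_mul, ← div_eq_mul_inv, div_le_iff₀ (by positivity)] at key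
    exact key
  obtain ⟨n, hn⟩ : ∃ n : ℝ, n = Z * (Fintype.card α * Fintype.card β) := ⟨_, rfl⟩
  have n0 : 0 < n := by rw [hn]; positivity
  have e1 : ∀ g g' : γ → ℝ, (Fintype.card γ : ℝ)⁻¹ * ∑ c, g c * g' c = ip g g' := fun g g' => by
    rw [ip, Fintype.expect_eq_sum_div_card, div_eq_inv_mul]
  have h := Pool.Agent.Lib.MP_9afdc0_co.few (V := α × β) (ρ := fun _ => t / n)
    (fun _ => by positivity) F (ν := Fintype.card α * Fintype.card β) (by positivity) j γ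
    (Fintype.card γ : ℝ)⁻¹ (((Z ^ 3)⁻¹) ^ 4) (Z ^ 3)⁻¹ (fun c p q => w p.1 q.2 c / n) v
    (fun i p => f i p.1) (fun i p => u i p.2) (by positivity) (inv_mul_cancel₀ hc.ne').le
    (by positivity) (fun c => ⟨fun p => ?_, fun q => ?_, fun p q => ?_⟩) (fun i hi => ?_)
    (fun i hi i' hi' e => ?_) (fun i hi => ?_) (fun i hi => ?_) fun i hi => ?_
  · refine h.trans (mul_le_mul_of_nonneg_right ?_ (by positivity))
    rw [sum_const, card_univ, Fintype.card_prod, nsmul_eq_mul, Nat.cast_mul, hn, mul_div_assoc',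
      div_le_iff₀ (by positivity)]
    nlinarith [mul_pos (mul_pos ha hb) (show 0 < t by linarith)]
  · have := (H.m2 p.1 c).trans hK
    rw [Fintype.expect_eq_sum_div_card, div_le_iff₀ hb] at this
    simp only [abs_of_nonneg (div_nonneg (H.pos _ _ _) n0.le)]
    rw [Fintype.sum_prod_type]
    dsimp only
    rw [sum_const, card_univ, nsmul_eq_mul, ← sum_div, mul_div_assoc', div_le_one n0, hn]
    nlinarith
  · have := (H.m1 q.2 c).trans hK
    rw [Fintype.expect_eq_sum_div_card, div_le_iff₀ ha] at this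
    simp only [abs_of_nonneg (div_nonneg (H.pos _ _ _) n0.le)]
    rw [Fintype.sum_prod_type_right]
    dsimp only
    rw [sum_const, card_univ, nsmul_eq_mul, ← sum_div, mul_div_assoc', div_le_one n0, hn]
    nlinarith
  · rw [abs_of_nonneg (div_nonneg (H.pos _ _ _) n0.le)]
    exact div_le_div_of_nonneg_right (H.top _ _ _) n0.le
  · simp only [sq]
    rw [e1]
    exact (h1 i hi).2.2.1
  · rw [e1, inv_pow, ← pow_mul]
    exact h2 i hi i' hi' e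
  · rw [Fintype.sum_prod_type_right]
    dsimp only
    rw [sum_const, card_univ, nsmul_eq_mul, mul_comm]
    exact mul_le_mul_of_nonneg_right (ip_sum (h1 i hi).1) hb.le
  · rw [Fintype.sum_prod_type]
    dsimp only
    rw [sum_const, card_univ, nsmul_eq_mul]
    exact mul_le_mul_of_nonneg_left (ip_sum (h1 i hi).2.1) ha.le
  · have h3 := (h1 i hi).2.2.2
    have e2 : ∑ p : α × β, ∑ q : α × β, f i p.1 * u i q.2 * ((Fintype.card γ : ℝ)⁻¹ *
        ∑ c, v i c * (w p.1 q.2 c / n)) = Fintype.card α * Fintype.card β *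
          (Lam w (f i) (u i) (v i) / Z) := by
      rw [Fintype.sum_prod_type_right]
      simp only [Fintype.sum_prod_type (α₁ := α) (α₂ := β), sum_const, card_univ, nsmul_eq_mul,
        Lam, Fintype.expect_eq_sum_div_card, sum_div, mul_sum]
      refine sum_congr rfl fun a _ => sum_congr rfl fun b _ => sum_congr rfl fun c _ => ?_
      rw [hn]
      field_simp
    rw [e2, mul_comm]
    refine mul_le_mul_of_nonneg_left ?_ (by positivity)
    rw [le_div_iff₀ Z0]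
    refine le_trans (le_of_eq ?_) h3
    field_simp

theorem Tri.list [Nonempty α] [Nonempty β] [Nonempty γ] {w : α → β → γ → ℝ} {K t : ℝ}
    (H : Tri w K t) {Z : ℝ} (hZ : 2 ≤ Z) (hK : K ≤ Z) (ht : 1 ≤ t) :
    ∃ L : Finset (γ → ℝ), (L.card : ℝ) ≤ 8 * t ^ 3 * Z ^ 6 ∧ (∀ v ∈ L, ip v v ≤ 1) ∧
      ∀ f u v, ip f f ≤ 1 → ip u u ≤ 1 → ip v v ≤ 1 → (Z ^ 2)⁻¹ ≤ Lam w f u v →
        ∃ v₀ ∈ L, (Z ^ 12)⁻¹ ≤ |ip v₀ v| := by
  classical
  by_contra hc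
  have key : ∀ n : ℕ, ∃ F : Finset (ℕ × (α → ℝ) × (β → ℝ) × (γ → ℝ)), F.card = n ∧
      (∀ i ∈ F, i.1 < n) ∧ (∀ i ∈ F, ip i.2.1 i.2.1 ≤ 1 ∧ ip i.2.2.1 i.2.2.1 ≤ 1 ∧
        ip i.2.2.2 i.2.2.2 ≤ 1 ∧ (Z ^ 2)⁻¹ ≤ Lam w i.2.1 i.2.2.1 i.2.2.2) ∧
      ∀ i ∈ F, ∀ i' ∈ F, i ≠ i' → |ip i.2.2.2 i'.2.2.2| ≤ (Z ^ 12)⁻¹ := by
    intro n
    induction n with
    | zero =>
      exact ⟨∅, rfl, fun _ h => absurd h (notMem_empty _), fun _ h => absurd h (notMem_empty _),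
        fun _ h => absurd h (notMem_empty _)⟩
    | succ n ih =>
      obtain ⟨F, e, h0, h1, h2⟩ := ih
      have h3 := H.few hZ hK ht F _ _ _ h1 h2
      have h4 : ¬ ∀ f u v, ip f f ≤ 1 → ip u u ≤ 1 → ip v v ≤ 1 → (Z ^ 2)⁻¹ ≤ Lam w f u v →
          ∃ v₀ ∈ F.image fun i => i.2.2.2, (Z ^ 12)⁻¹ ≤ |ip v₀ v| := fun h =>
        hc ⟨_, (Nat.cast_le.2 card_image_le).trans h3, fun v hv => by
          obtain ⟨i, hi, rfl⟩ := mem_image.1 hv
          exact (h1 i hi).2.2.1, h⟩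
      simp only [not_forall, not_exists, not_and, not_le] at h4
      obtain ⟨f, u, v, hf, hu, hv, hl, h5⟩ := h4
      have h6 : ∀ i ∈ F, |ip i.2.2.2 v| ≤ (Z ^ 12)⁻¹ := fun i hi =>
        (h5 _ (mem_image_of_mem _ hi)).le
      refine ⟨insert (n, f, u, v) F, ?_, fun i hi => ?_, fun i hi => ?_, fun i hi i' hi' ne => ?_⟩
      · rw [card_insert_of_notMem fun h => lt_irrefl n (h0 _ h), e]
      · rcases mem_insert.1 hi with rfl | hi
        · exact Nat.lt_succ_self n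
        · exact (h0 i hi).trans (Nat.lt_succ_self n)
      · rcases mem_insert.1 hi with rfl | hi
        · exact ⟨hf, hu, hv, hl⟩
        · exact h1 i hi
      · rcases mem_insert.1 hi with rfl | hi <;> rcases mem_insert.1 hi' with rfl | hi'
        · exact absurd rfl ne
        · rw [ip_comm]
          exact h6 i' hi'
        · exact h6 i hi
        · exact h2 i hi i' hi' ne
  obtain ⟨n, hn⟩ := exists_nat_gt (8 * t ^ 3 * Z ^ 6)
  obtain ⟨F, e, -, h1, h2⟩ := key n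
  have h3 := H.few hZ hK ht F _ _ _ h1 h2
  rw [e] at h3
  exact absurd hn (not_lt.2 h3)

theorem Tri.hs [Nonempty β] {w : α → β → γ → ℝ} {K t : ℝ} (H : Tri w K t) (hK : 0 ≤ K)
    (r : γ → ℝ) : 𝔼 a, 𝔼 b, (𝔼 c, w a b c * r c) ^ 2 ≤ K ^ 2 * ip r r := by
  have h1 : ∀ a b, (𝔼 c, w a b c * r c) ^ 2 ≤ K * 𝔼 c, w a b c * (r c * r c) := fun a b => by
    have h := ip_cs (fun c => √(w a b c)) fun c => √(w a b c) * r c
    have e : ∀ c, √(w a b c) * √(w a b c) = w a b c := fun c => Real.mul_self_sqrt (H.pos a b c)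
    have e1 : ∀ c, √(w a b c) * (√(w a b c) * r c) = w a b c * r c := fun c => by
      rw [← mul_assoc, e]
    have e2 : ∀ c, √(w a b c) * r c * (√(w a b c) * r c) = w a b c * (r c * r c) := fun c => by
      rw [mul_mul_mul_comm, e]
    simp only [ip, e, e1, e2] at h
    exact h.trans (mul_le_mul_of_nonneg_right (H.m3 a b)
      (expect_nonneg fun c _ => mul_nonneg (H.pos a b c) (mul_self_nonneg _)))
  refine (expect_le_expect fun a _ => expect_le_expect fun b _ => h1 a b).trans ?_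
  simp only [← mul_expect]
  rw [sq, mul_assoc]
  refine mul_le_mul_of_nonneg_left ?_ hK
  rw [expect_comm]
  refine expect_le univ_nonempty fun b _ => ?_
  rw [expect_comm, ip, mul_expect]
  refine expect_le_expect fun c _ => ?_
  rw [← expect_mul]
  exact mul_le_mul_of_nonneg_right (H.m1 b c) (mul_self_nonneg _)

/-- The first block of a vector. -/
noncomputable def lft (x : EuclideanSpace ℝ (β ⊕ γ)) (b : β) : ℝ :=
  √(Fintype.card β) * x (Sum.inl b)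

/-- The second block of a vector. -/
noncomputable def rgt (x : EuclideanSpace ℝ (β ⊕ γ)) (c : γ) : ℝ :=
  √(Fintype.card γ) * x (Sum.inr c)

/-- The vector with given blocks. -/
noncomputable def mk2 (g : β → ℝ) (h : γ → ℝ) : EuclideanSpace ℝ (β ⊕ γ) :=
  WithLp.toLp 2 (Sum.elim (fun b => g b / √(Fintype.card β)) fun c => h c / √(Fintype.card γ))

theorem lft_mk2 [Nonempty β] (g : β → ℝ) (h : γ → ℝ) : lft (mk2 g h) = g := by
  have hb : 0 < √(Fintype.card β : ℝ) := Real.sqrt_pos.2 (Nat.cast_pos.2 Fintype.card_pos)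
  funext b
  exact mul_div_cancel₀ _ hb.ne'

theorem rgt_mk2 [Nonempty γ] (g : β → ℝ) (h : γ → ℝ) : rgt (mk2 g h) = h := by
  have hb : 0 < √(Fintype.card γ : ℝ) := Real.sqrt_pos.2 (Nat.cast_pos.2 Fintype.card_pos)
  funext b
  exact mul_div_cancel₀ _ hb.ne'

theorem plc_ip [Nonempty α] (x y : α → ℝ) : ip (fun a => √(Fintype.card α) * x a)
    (fun a => √(Fintype.card α) * y a) = ∑ a, y a * x a := by
  have hn : (0 : ℝ) < Fintype.card α := Nat.cast_pos.2 Fintype.card_pos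
  rw [ip_smul, ip_smul', ← mul_assoc, Real.mul_self_sqrt hn.le, ip_comm, ip,
    Fintype.expect_eq_sum_div_card, mul_div_cancel₀ _ hn.ne']

theorem plc_inner [Nonempty β] [Nonempty γ] (x y : EuclideanSpace ℝ (β ⊕ γ)) :
    ⟪x, y⟫ = ip (lft x) (lft y) + ip (rgt x) (rgt y) := by
  rw [PiLp.inner_apply, Fintype.sum_sum_type]
  exact congrArg₂ _ (plc_ip (fun b => x (Sum.inl b)) fun b => y (Sum.inl b)).symm
    (plc_ip (fun b => x (Sum.inr b)) fun b => y (Sum.inr b)).symm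

theorem plc_unit [Nonempty β] [Nonempty γ] {x : EuclideanSpace ℝ (β ⊕ γ)} (h : ‖x‖ ≤ 1) :
    ip (lft x) (lft x) ≤ 1 ∧ ip (rgt x) (rgt x) ≤ 1 := by
  have h1 := plc_inner x x
  have h2 : ‖x‖ ^ 2 ≤ 1 := pow_le_one₀ (norm_nonneg _) h
  rw [real_inner_self_eq_norm_sq] at h1
  exact ⟨by linarith [ip_pos (rgt x)], by linarith [ip_pos (lft x)]⟩

theorem plc_norm [Nonempty β] [Nonempty γ] {g : β → ℝ} {h : γ → ℝ} (e : ip g g + ip h h ≤ 1) :
    ‖mk2 g h‖ ≤ 1 := by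
  have h1 := plc_inner (mk2 g h) (mk2 g h)
  rw [real_inner_self_eq_norm_sq, lft_mk2, rgt_mk2] at h1
  exact (sq_le_one_iff₀ (norm_nonneg _)).1 (h1.trans_le e)

/-- The symmetric link operator of a vertex. -/
noncomputable def opA (w : α → β → γ → ℝ) (a : α) :
    EuclideanSpace ℝ (β ⊕ γ) →ₗ[ℝ] EuclideanSpace ℝ (β ⊕ γ) where
  toFun x := mk2 (fun b => 𝔼 c, w a b c * rgt x c) fun c => 𝔼 b, w a b c * lft x b
  map_add' x y := by
    ext i
    cases i <;> simp [mk2, lft, rgt, mul_add, expect_add_distrib, add_div]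
  map_smul' s x := by
    ext i
    cases i <;> simp [mk2, lft, rgt, mul_expect, mul_left_comm, ← mul_div_assoc]

/-- The symmetric operator of a function. -/
noncomputable def opS (w : α → β → γ → ℝ) (f : α → ℝ) :
    EuclideanSpace ℝ (β ⊕ γ) →ₗ[ℝ] EuclideanSpace ℝ (β ⊕ γ) :=
  ∑ a, f a • (Fintype.card α : ℝ)⁻¹ • opA w a

theorem opS_inner [Nonempty β] [Nonempty γ] (w : α → β → γ → ℝ) (f : α → ℝ)
    (x y : EuclideanSpace ℝ (β ⊕ γ)) :
    ⟪y, opS w f x⟫ = Lam w f (lft y) (rgt x) + Lam w f (lft x) (rgt y) := by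
  have e : ∀ a, ⟪y, opA w a x⟫ = 𝔼 b, 𝔼 c, w a b c * (lft y b * rgt x c) +
      𝔼 b, 𝔼 c, w a b c * (lft x b * rgt y c) := fun a => by
    rw [plc_inner]
    change ip _ (lft (mk2 _ _)) + ip _ (rgt (mk2 _ _)) = _
    rw [lft_mk2, rgt_mk2, expect_comm (f := fun b c => w a b c * (lft x b * rgt y c))]
    simp only [ip, mul_expect]
    exact congrArg₂ _ (expect_congr rfl fun _ _ => expect_congr rfl fun _ _ => by ring)
      (expect_congr rfl fun _ _ => expect_congr rfl fun _ _ => by ring)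
  rw [Lam_ip, Lam_ip, ip_comm f, ip_comm f, ← ip_add, ip, Fintype.expect_eq_sum_div_card, opS,
    LinearMap.sum_apply, inner_sum, sum_div]
  refine sum_congr rfl fun a _ => ?_
  rw [LinearMap.smul_apply, LinearMap.smul_apply, real_inner_smul_right, real_inner_smul_right, e]
  ring

theorem opS_symm [Nonempty β] [Nonempty γ] (w : α → β → γ → ℝ) (f : α → ℝ) :
    (opS w f).IsSymmetric := fun x y => by
  rw [real_inner_comm, opS_inner, opS_inner, add_comm]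

theorem Tri.net [Nonempty α] [Nonempty β] [Nonempty γ] {w : α → β → γ → ℝ} {K t : ℝ}
    (H : Tri w K t) {Z : ℕ} (hZ : 2 ≤ Z) (K0 : 0 ≤ K) (hK : K ≤ Z)
    (x : EuclideanSpace ℝ (β ⊕ γ)) (hx : ‖x‖ ≤ 1) :
    ∃ N : Finset (EuclideanSpace ℝ (β ⊕ γ)),
      N.card ≤ (2 * (16 * Z ^ 28) ^ 2 + 1) ^ (16 * Z ^ 28) ∧
      ∀ f : α → ℝ, ip f f ≤ 1 → ∃ y ∈ N, ‖opS w f x - y‖ ≤ ((Z : ℝ) ^ 13)⁻¹ / 2 := by
  have ha : (0 : ℝ) < Fintype.card α := Nat.cast_pos.2 Fintype.card_pos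
  have Z0 : (0 : ℝ) < Z := Nat.cast_pos.2 (by omega)
  obtain ⟨N, hN, hy⟩ := pl_net (ε := ((Z : ℝ) ^ 13)⁻¹ / 4) (by positivity) (R := 16 * Z ^ 28)
    (by positivity) _ le_rfl (fun a => (Fintype.card α : ℝ)⁻¹ • opA w a x) (by
      have e : ∀ a, ‖(Fintype.card α : ℝ)⁻¹ • opA w a x‖ ^ 2 = (Fintype.card α : ℝ)⁻¹ ^ 2 *
          (𝔼 b, (𝔼 c, w a b c * rgt x c) ^ 2 + 𝔼 c, (𝔼 b, w a b c * lft x b) ^ 2) := fun a => by
        rw [norm_smul, mul_pow, Real.norm_eq_abs, sq_abs, ← real_inner_self_eq_norm_sq, plc_inner]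
        change _ * (ip (lft (mk2 _ _)) (lft (mk2 _ _)) + ip (rgt (mk2 _ _)) (rgt (mk2 _ _))) = _
        rw [lft_mk2, rgt_mk2]
        simp only [ip, sq]
      have h1 := H.hs K0 (rgt x)
      have h2 := H.swap23.hs K0 (lft x)
      have h3 := plc_inner x x
      have h4 : ‖x‖ ^ 2 ≤ 1 := pow_le_one₀ (norm_nonneg _) hx
      have h5 : K ^ 2 ≤ (Z : ℝ) ^ 2 := pow_le_pow_left₀ K0 hK 2
      rw [real_inner_self_eq_norm_sq] at h3
      rw [Fintype.expect_eq_sum_div_card] at h1 h2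
      simp only [e]
      rw [← mul_sum, sum_add_distrib, ← mul_assoc, sq (_⁻¹ : ℝ), ← mul_assoc,
        mul_inv_cancel₀ ha.ne', one_mul, ← div_eq_inv_mul, add_div]
      have e2 : ((16 * Z ^ 28 : ℕ) : ℝ) * (((Z : ℝ) ^ 13)⁻¹ / 4) ^ 2 = Z ^ 2 := by
        push_cast
        field_simp
        norm_num
      rw [e2]
      nlinarith [sq_nonneg K])
  refine ⟨N, hN, fun f hf => ?_⟩
  obtain ⟨y, h1, h2⟩ := hy f (ip_sum hf)
  refine ⟨y, h1, ?_⟩
  rw [opS, LinearMap.sum_apply]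
  refine h2.trans_eq ?_
  rw [mul_div_cancel₀ _ (by positivity)]
  ring

theorem plc_nat {Z : ℕ} (hZ : 2 ≤ Z) :
    32 * Z ^ 6 * (2 * (2 * (16 * Z ^ 28) ^ 2 + 1) ^ (16 * Z ^ 28)) ^ Z ^ 12 ≤ 2 ^ Z ^ 80 := by
  obtain ⟨R, hR⟩ : ∃ R, R = 16 * Z ^ 28 := ⟨_, rfl⟩
  have h1 : 2 * R ^ 2 + 1 ≤ 2 ^ (2 * R + 2) := by
    have := Nat.pow_le_pow_left (@Nat.lt_two_pow_self R).le 2
    have h0 : 0 < 2 ^ R := by positivity
    rw [show 2 ^ (2 * R + 2) = 4 * (2 ^ R) ^ 2 by ring]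
    nlinarith
  have h2 : Z ^ 6 ≤ 2 ^ (6 * Z) := by
    rw [mul_comm, pow_mul]
    exact Nat.pow_le_pow_left (@Nat.lt_two_pow_self Z).le 6
  have h3 : 2 ^ 12 ≤ Z ^ 12 := Nat.pow_le_pow_left hZ 12
  have h4 : Z ≤ Z ^ 68 := Nat.le_self_pow (by norm_num) Z
  have h5 : Z ^ 12 ≤ Z ^ 68 := Nat.pow_le_pow_right (by omega) (by norm_num)
  have h6 : Z ^ 40 ≤ Z ^ 68 := Nat.pow_le_pow_right (by omega) (by norm_num)
  rw [← hR]
  calc 32 * Z ^ 6 * (2 * (2 * R ^ 2 + 1) ^ R) ^ Z ^ 12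
      ≤ 32 * 2 ^ (6 * Z) * (2 * (2 ^ (2 * R + 2)) ^ R) ^ Z ^ 12 := by gcongr
    _ = 2 ^ (5 + 6 * Z + (1 + (2 * R + 2) * R) * Z ^ 12) := by
      rw [← pow_mul 2 (2 * R + 2) R, ← pow_succ', ← pow_mul, show (32 : ℕ) = 2 ^ 5 by norm_num,
        ← pow_add, ← pow_add, add_comm 1]
    _ ≤ 2 ^ Z ^ 80 := by
      refine Nat.pow_le_pow_right (by norm_num) ?_
      have e1 : (1 + (2 * R + 2) * R) * Z ^ 12 = Z ^ 12 + 512 * Z ^ 68 + 32 * Z ^ 40 := by
        rw [hR]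
        ring
      have e2 : Z ^ 80 = Z ^ 12 * Z ^ 68 := by ring
      have h7 := Nat.mul_le_mul_right (Z ^ 68) h3
      omega

/-- The cover lemma. -/
theorem cover [Nonempty α] [Nonempty β] [Nonempty γ] {w : α → β → γ → ℝ} {K t θ : ℝ}
    (H : Tri w K t) (Z : ℕ) (hZ : 2 ≤ Z) (K0 : 0 < K) (hK : K ≤ Z) (ht : 1 ≤ t)
    (h1 : 1 / (Z : ℝ) ≤ θ) (h2 : θ ≤ 1 / 2) :
    ∃ Ψ : Finset (α → ℝ), (Ψ.card : ℝ) ≤ t ^ 3 * 2 ^ (Z ^ 80) ∧
      ∀ f g h, ip f f ≤ 1 → ip g g ≤ 1 → ip h h ≤ 1 → θ ≤ Lam w f g h →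
        ∃ ψ ∈ Ψ, ip ψ ψ ≤ 1 ∧ θ ^ 2 / 2 ^ 31 ≤ ip f ψ := by
  classical
  have Z2 : (2 : ℝ) ≤ Z := by exact_mod_cast hZ
  have Z0 : (0 : ℝ) < Z := by linarith
  have h0 : 0 < θ := lt_of_lt_of_le (by positivity) h1
  obtain ⟨L, hL, L1, L2⟩ := H.list Z2 hK ht
  obtain ⟨m, hm⟩ : ∃ m, m = (2 * (16 * Z ^ 28) ^ 2 + 1) ^ (16 * Z ^ 28) := ⟨_, rfl⟩
  have η0 : (0 : ℝ) < ((Z : ℝ) ^ 12)⁻¹ := by positivity
  have η1 : ((Z : ℝ) ^ 12)⁻¹ ≤ 1 / 4 := by
    rw [one_div]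
    exact inv_anti₀ (by norm_num) (le_trans (by norm_num) (pow_le_pow_left₀ zero_le_two Z2 12))
  have it := pl_iter (ι := {f : α → ℝ // ip f f ≤ 1}) (fun f => opS w f.1)
    (fun f => opS_symm w f.1) h0 η0 η1 (m := m) (hm ▸ Nat.one_le_pow _ _ (by omega))
    (fun x hx => by
      obtain ⟨N, hN, hy⟩ := H.net hZ K0.le hK x hx
      refine ⟨N, hm ▸ hN, fun f => ?_⟩
      obtain ⟨y, hy1, hy2⟩ := hy f.1 f.2
      refine ⟨y, hy1, hy2.trans (div_le_div_of_nonneg_right ?_ zero_le_two)⟩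
      refine le_trans (le_of_eq ?_) (mul_le_mul_of_nonneg_right h1 η0.le)
      field_simp) (Z ^ 12)
  choose! G hG using it
  let ψ : (β → ℝ) → (γ → ℝ) → α → ℝ := fun g h a =>
    (2 ^ 12)⁻¹ * 𝔼 b, 𝔼 c, w a b c * (g b * h c)
  have p1 : ∀ f g h, ip f (ψ g h) = (2 ^ 12)⁻¹ * Lam w f g h := fun f g h => by
    rw [Lam_ip, ← ip_smul']
  have p2 : ∀ g h, ip g g ≤ 1 → ip h h ≤ 1 → ip (ψ g h) (ψ g h) ≤ 1 := fun g h hg hh => by
    refine (dual (c := 1) fun P hP => ?_).trans_eq (one_pow 2)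
    rw [ip_comm, p1, inv_mul_le_iff₀ (by positivity), mul_one]
    exact H.tri P g h hP hg hh
  have z0 : ∀ y : β → ℝ, ip (0 : β → ℝ) y = 0 := fun y => by simp [ip]
  have n1 : ∀ v ∈ L, ‖mk2 (0 : β → ℝ) v‖ ≤ 1 := fun v hv =>
    plc_norm (by rw [z0, zero_add]; exact L1 v hv)
  let X : Finset (EuclideanSpace ℝ (β ⊕ γ)) :=
    L.image (fun v => mk2 0 v) ∪ L.image fun v => -mk2 0 v
  have n2 : ∀ x ∈ X, ‖x‖ ≤ 1 := fun x hx => by
    rcases mem_union.1 hx with h | h <;> obtain ⟨v, hv, rfl⟩ := mem_image.1 h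
    · exact n1 v hv
    · rw [norm_neg]
      exact n1 v hv
  refine ⟨(X.biUnion G).image (fun q => ψ (lft q.1) (rgt q.2)) ∪
    (X.biUnion G).image fun q => ψ (lft q.2) (rgt q.1), ?_, fun f g h hf hg hh hl => ?_⟩
  · have c1 : (X.biUnion G).card ≤ X.card * (2 * m) ^ Z ^ 12 :=
      card_biUnion_le_card_mul _ _ _ fun x hx => (hG x (n2 x hx)).1
    have c2 : X.card ≤ L.card + L.card :=
      (card_union_le _ _).trans (add_le_add card_image_le card_image_le)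
    have c3 := (card_union_le ((X.biUnion G).image fun q => ψ (lft q.1) (rgt q.2))
      ((X.biUnion G).image fun q => ψ (lft q.2) (rgt q.1))).trans
      (add_le_add (card_image_le.trans c1) (card_image_le.trans c1))
    have c4 := Nat.mul_le_mul_right ((2 * m) ^ Z ^ 12) c2
    have c5 := plc_nat hZ
    rw [← hm] at c5
    obtain ⟨M, hM⟩ : ∃ M, M = (2 * m) ^ Z ^ 12 := ⟨_, rfl⟩
    rw [← hM] at c3 c4 c5
    have c6 : ((32 * Z ^ 6 * M : ℕ) : ℝ) ≤ ((2 ^ Z ^ 80 : ℕ) : ℝ) := Nat.cast_le.2 c5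
    refine (Nat.cast_le.2 (c3.trans (add_le_add c4 c4))).trans ?_
    push_cast at c6 ⊢
    have c7 := mul_le_mul_of_nonneg_right hL (Nat.cast_nonneg (α := ℝ) M)
    have c8 := mul_le_mul_of_nonneg_left c6 (show 0 ≤ t ^ 3 by positivity)
    linarith
  · have s2 : √2⁻¹ * √2⁻¹ = (2⁻¹ : ℝ) := Real.mul_self_sqrt (by norm_num)
    have a1 : ‖√2⁻¹ • mk2 g h‖ ≤ 1 := by
      refine (sq_le_one_iff₀ (norm_nonneg _)).1 ?_
      rw [← real_inner_self_eq_norm_sq, real_inner_smul_left, real_inner_smul_right, ← mul_assoc,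
        s2, plc_inner, lft_mk2, rgt_mk2]
      linarith
    obtain ⟨e, σ, he, hσ, h3⟩ := pl_eigen (opS_symm w f) a1 h0 (by
      rw [map_smul, real_inner_smul_left, real_inner_smul_right, ← mul_assoc, s2, opS_inner,
        lft_mk2, rgt_mk2]
      linarith)
    have a2 := opS_inner w f e e
    rw [hσ, real_inner_smul_right, real_inner_self_eq_norm_sq, he] at a2
    obtain ⟨v, hv, h4⟩ := L2 f (lft e) (rgt e) hf (plc_unit he.le).1 (plc_unit he.le).2 (by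
      have : ((Z : ℝ) ^ 2)⁻¹ ≤ 1 / (Z : ℝ) / 2 := by
        rw [div_div, one_div]
        exact inv_anti₀ (by positivity) (by nlinarith)
      linarith)
    have a3 : ⟪mk2 (0 : β → ℝ) v, e⟫ = ip v (rgt e) := by
      rw [plc_inner, lft_mk2, rgt_mk2, z0, zero_add]
    obtain ⟨x, hx, h5⟩ : ∃ x ∈ X, ((Z : ℝ) ^ 12)⁻¹ ≤ ⟪x, e⟫ := by
      rcases le_abs.1 h4 with h5 | h5
      · exact ⟨_, mem_union_left _ (mem_image_of_mem _ hv), a3 ▸ h5⟩
      · exact ⟨_, mem_union_right _ (mem_image_of_mem _ hv), by rw [inner_neg_left, a3]; exact h5⟩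
    obtain ⟨q, hq, h6⟩ := (hG x (n2 x hx)).2.2 ⟨f, hf⟩ e σ he hσ h3 h5 (by
      push_cast
      rw [mul_inv_cancel₀ (by positivity)]
      linarith)
    obtain ⟨q1, q2⟩ := (hG x (n2 x hx)).2.1 q hq
    have hq' : q ∈ X.biUnion G := mem_biUnion.2 ⟨x, hx, hq⟩
    rw [opS_inner] at h6
    have a4 : θ ^ 2 ≤ θ := by nlinarith
    by_cases h7 : θ / 16 ≤ Lam w f (lft q.1) (rgt q.2)
    · refine ⟨_, mem_union_left _ (mem_image_of_mem _ hq'),
        p2 _ _ (plc_unit q1).1 (plc_unit q2).2, ?_⟩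
      rw [p1]
      linarith
    · refine ⟨_, mem_union_right _ (mem_image_of_mem _ hq'),
        p2 _ _ (plc_unit q2).1 (plc_unit q1).2, ?_⟩
      rw [p1]
      linarith

end Pool.Agent.Lib.MP_9afdc0_co
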