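import Pool.Agent.Lib.MP_9afdc0_co.PlC

/-! Passing to averages over a regular partition, and the final counting. -/

namespace Pool.Agent.Lib.MP_9afdc0_co

open Finset
open scoped BigOperators

variable {α β γ V : Type} [Fintype α] [Fintype β] [Fintype γ] [Fintype V]

/-- A list of test functions that detects large values of the trilinear form. -/
def Cov (w : α → β → γ → ℝ) (Ψ : Finset (α → ℝ)) (θ κ : ℝ) : Prop :=
  ∀ f g h, ip f f ≤ 1 → ip g g ≤ 1 → ip h h ≤ 1 →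
    ∃ ψ ∈ Ψ, ip ψ ψ ≤ 1 ∧ κ * (Lam w f g h - θ) ≤ ip f ψ

theorem Lam_smul (w : α → β → γ → ℝ) (f : α → ℝ) (g : β → ℝ) (h : γ → ℝ) (x y z : ℝ) :
    Lam w (fun a => x * f a) (fun b => y * g b) (fun c => z * h c) = x * y * z * Lam w f g h := by
  simp only [Lam, mul_expect]
  exact expect_congr rfl fun a _ => expect_congr rfl fun b _ => expect_congr rfl fun c _ => by ring

theorem Lam_sub (w : α → β → γ → ℝ) (f f' : α → ℝ) (g : β → ℝ) (h : γ → ℝ) :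
    Lam w (fun a => f a - f' a) g h = Lam w f g h - Lam w f' g h := by
  simp only [Lam_ip, ip_sub]

theorem ip_unit {x : α → ℝ} {μ : ℝ} (hμ : 0 < μ) (h : ip x x ≤ μ ^ 2) :
    ip (fun a => μ⁻¹ * x a) (fun a => μ⁻¹ * x a) ≤ 1 := by
  rw [ip_smul, ip_smul', ← mul_assoc, ← sq, inv_pow, inv_mul_le_iff₀ (by positivity), mul_one]
  exact h

theorem ip_diff {x y : α → ℝ} {μ : ℝ} (h : ip x x ≤ μ ^ 2) (h' : ip y y ≤ μ ^ 2) :
    ip (fun a => x a - y a) (fun a => x a - y a) ≤ (2 * μ) ^ 2 := by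
  have : ip (fun a => x a - y a) (fun a => x a - y a) ≤ 2 * ip x x + 2 * ip y y := by
    simp only [ip, mul_expect, ← expect_add_distrib]
    exact ex_mono fun a => by nlinarith [sq_nonneg (x a + y a)]
  linarith

theorem avf_norm (s : Setoid V) {f : V → α → ℝ} {μ : ℝ} (hμ : 0 ≤ μ)
    (h : ∀ d, ip (f d) (f d) ≤ μ ^ 2) (d : V) : ip (avf s f d) (avf s f d) ≤ μ ^ 2 := by
  refine dual fun P hP => (ip_avf s f d P).trans_le (av_bound s (fun e => ?_) d)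
  exact le_of_pow_le_pow_left₀ two_ne_zero hμ ((ip_cs _ _).trans
    ((mul_le_of_le_one_right (ip_pos _) hP).trans (h e)))

theorem reg_lam [Nonempty V] {w : α → β → γ → ℝ} {Ψ : Finset (α → ℝ)} {θ κ μ : ℝ}
    (hc : Cov w Ψ θ κ) (hκ : 0 < κ) (hμ : 0 < μ) {r s : Setoid V} (hs : r ≤ s) {f : V → α → ℝ}
    {g : V → β → ℝ} {h : V → γ → ℝ} (f1 : r ≤ Setoid.ker f) (g1 : r ≤ Setoid.ker g)
    (h1 : r ≤ Setoid.ker h) (f2 : ∀ d, ip (f d) (f d) ≤ μ ^ 2) (g2 : ∀ d, ip (g d) (g d) ≤ μ ^ 2)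
    (h2 : ∀ d, ip (h d) (h d) ≤ μ ^ 2) (hR : FkReg r s Ψ f (2 * μ * κ * θ)) :
    𝔼 d, Lam w (avf s f d) (g d) (h d) ≤ 𝔼 d, Lam w (f d) (g d) (h d) + 4 * μ ^ 3 * θ := by
  have hc' : ∀ f g h, ∃ ψ, ip f f ≤ 1 → ip g g ≤ 1 → ip h h ≤ 1 →
      (ψ ∈ Ψ ∧ ip ψ ψ ≤ 1) ∧ κ * (Lam w f g h - θ) ≤ ip f ψ := fun f g h => by
    by_cases e : ip f f ≤ 1 ∧ ip g g ≤ 1 ∧ ip h h ≤ 1
    · obtain ⟨ψ, p1, p2, p3⟩ := hc f g h e.1 e.2.1 e.2.2
      exact ⟨ψ, fun _ _ _ => ⟨⟨p1, p2⟩, p3⟩⟩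
    · exact ⟨0, fun p1 p2 p3 => absurd ⟨p1, p2, p3⟩ e⟩
  choose L hL using hc'
  have p := fun d => hL _ _ _ (ip_unit (by positivity) (ip_diff (avf_norm s hμ.le f2 d) (f2 d)))
    (ip_unit hμ (g2 d)) (ip_unit hμ (h2 d))
  have h3 := hR _ (fun d e hde => by
    have e1 : f d = f e := f1 hde
    have e2 : g d = g e := g1 hde
    have e3 : h d = h e := h1 hde
    have e4 : avf s f d = avf s f e := avf_inv s f (hs hde)
    simp only [Setoid.ker_def, e1, e2, e3, e4]) fun d => (p d).1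
  have h4 := ex_mono fun d => (p d).2
  simp only [Lam_smul, ip_smul, Lam_sub, ← mul_expect, expect_sub_distrib,
    Fintype.expect_const] at h4
  have h5 := h4.trans (mul_le_mul_of_nonneg_left h3 (by positivity))
  rw [show (2 * μ)⁻¹ * (2 * μ * κ * θ) = κ * θ by field_simp, mul_le_mul_iff_right₀ hκ,
    show (2 * μ)⁻¹ * μ⁻¹ * μ⁻¹ = (2 * μ ^ 3)⁻¹ by field_simp, sub_le_iff_le_add,
    inv_mul_le_iff₀ (by positivity)] at h5
  linarith

theorem last_lam (w : α → β → γ → ℝ) {s : Setoid V} {f : V → α → ℝ} {g : V → β → ℝ}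
    (h : V → γ → ℝ) (f1 : s ≤ Setoid.ker f) (g1 : s ≤ Setoid.ker g) :
    𝔼 d, Lam w (f d) (g d) (avf s h d) = 𝔼 d, Lam w (f d) (g d) (h d) := by
  have e : ∀ h : V → γ → ℝ, 𝔼 d, Lam w (f d) (g d) (h d) =
      ip2 h fun d c => 𝔼 a, 𝔼 b, w a b c * (f d a * g d b) := fun h =>
    expect_congr rfl fun d _ => by rw [← Lam_swap23, ← Lam_swap12, Lam_ip]
  rw [e, e, ip2_avf, avf_fix fun d d' hd => ?_]
  have e1 : f d = f d' := f1 hd
  have e2 : g d = g d' := g1 hd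
  simp only [Setoid.ker_def, e1, e2]

theorem small {μ x : ℝ} (hx : 0 ≤ x) (h : μ ^ 3 ≤ x ^ 2) : μ ≤ 1 / 4 + 2 * x := by
  by_contra h1
  have h2 := pow_lt_pow_left₀ (show 2 * x < μ by linarith) (by positivity) two_ne_zero
  nlinarith [mul_pos (show 0 < μ - 1 / 4 by linarith) (show 0 < μ ^ 2 by nlinarith)]

open Classical in
theorem low [Nonempty α] {f : α → ℝ} {Γ : ℝ} (hΓ : 1 ≤ Γ) (hb : Bl f (Γ ^ 3)) :
    dn (univ.filter fun a => f a < 1 / 3) ≤ 3 * (Γ - 𝔼 a, f a) := by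
  have x0 := dn_pos (univ.filter fun a => f a < 1 / 3)
  have x1 := dn_le (univ.filter fun a => f a < 1 / 3)
  have e : dn (univ.filter fun a => ¬ f a < 1 / 3) = 1 - dn (univ.filter fun a => f a < 1 / 3) := by
    rw [eq_sub_iff_add_eq, dn, dn, ← expect_add_distrib, ← Fintype.expect_const (ι := α) (1 : ℝ)]
    refine expect_congr rfl fun a _ => ?_
    rw [ind_filter, ind_filter]
    split_ifs <;> norm_num
  have h1 : 𝔼 a, f a ≤ 1 / 3 * dn (univ.filter fun a => f a < 1 / 3) +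
      ip f (ind (univ.filter fun a => ¬ f a < 1 / 3)) := by
    rw [dn, ip, mul_expect, ← expect_add_distrib]
    refine ex_mono fun a => ?_
    rw [ind_filter, ind_filter]
    split_ifs with ha <;> linarith
  have h2 := hb (univ.filter fun a => ¬ f a < 1 / 3)
  rw [e] at h2
  generalize dn (univ.filter fun a => f a < 1 / 3) = x at *
  have h3 : (1 - x) ^ 2 ≤ (1 - 2 * x / 3) ^ 3 := by
    nlinarith [mul_nonneg (sq_nonneg x) (sub_nonneg.2 x1), sq_nonneg x]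
  have h4 := le_of_pow_le_pow_left₀ three_ne_zero (show 0 ≤ Γ * (1 - 2 * x / 3) by nlinarith)
    (h2.trans ((mul_le_mul_of_nonneg_left h3 (by positivity)).trans_eq (mul_pow _ _ _).symm))
  nlinarith

theorem big_lam [Nonempty α] [Nonempty β] [Nonempty γ] {w : α → β → γ → ℝ}
    (hw : ∀ a b c, 0 ≤ w a b c) (h1 : Lam w (ind univ) (ind univ) (ind univ) = 1)
    (H : ∀ E F G, Lam w (ind E) (ind F) (ind G) ^ 3 ≤ (dn E * dn F * dn G) ^ 2) {Γ : ℝ}
    (hΓ : 1 ≤ Γ) {f : α → ℝ} {g : β → ℝ} {h : γ → ℝ} (f0 : ∀ a, 0 ≤ f a) (g0 : ∀ b, 0 ≤ g b)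
    (h0 : ∀ c, 0 ≤ h c) (fb : Bl f (Γ ^ 3)) (gb : Bl g (Γ ^ 3)) (hb : Bl h (Γ ^ 3)) :
    1 / 4 - 18 * Γ + 6 * (𝔼 a, f a + 𝔼 b, g b + 𝔼 c, h c) ≤ 27 * Lam w f g h := by
  classical
  have a1 := low hΓ fb
  have a2 := low hΓ gb
  have a3 := low hΓ hb
  have b1 := H (univ.filter fun a => f a < 1 / 3) univ univ
  have b2 := H univ (univ.filter fun b => g b < 1 / 3) univ
  have b3 := H univ univ (univ.filter fun c => h c < 1 / 3)
  simp only [dn_univ, mul_one, one_mul] at b1 b2 b3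
  have c1 := small (dn_pos _) b1
  have c2 := small (dn_pos _) b2
  have c3 := small (dn_pos _) b3
  have key : Lam w (ind univ) (ind univ) (ind univ) ≤ 27 * Lam w f g h +
      Lam w (ind (univ.filter fun a => f a < 1 / 3)) (ind univ) (ind univ) +
      Lam w (ind univ) (ind (univ.filter fun b => g b < 1 / 3)) (ind univ) +
      Lam w (ind univ) (ind univ) (ind (univ.filter fun c => h c < 1 / 3)) := by
    simp only [Lam, mul_expect, ← expect_add_distrib, ind_univ, ind_filter, mul_one, one_mul]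
    refine ex_mono fun a => ex_mono fun b => ex_mono fun c => ?_
    have p0 := hw a b c
    have p1 := mul_nonneg p0 (mul_nonneg (mul_nonneg (f0 a) (g0 b)) (h0 c))
    split_ifs with e1 e2 e3 <;> try linarith
    have p2 := mul_le_mul (mul_le_mul (not_lt.1 e1) (not_lt.1 ‹¬ g b < 1 / 3›) (by norm_num) (f0 a))
      (not_lt.1 ‹¬ h c < 1 / 3›) (by norm_num) (mul_nonneg (f0 a) (g0 b))
    nlinarith
  linarith

end Pool.Agent.Lib.MP_9afdc0_co
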