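import Pool.Agent.Lib.MP_9afdc0_co.PlD

/-! One step of the descent over scales. -/

namespace Pool.Agent.Lib.MP_9afdc0_co

open Finset
open scoped BigOperators

variable {α β γ V : Type} [Fintype α] [Fintype β] [Fintype γ] [Fintype V]

/-- A family of link densities whose averages over large cells are spread. -/
structure Src (F : V → α → ℝ) (K R : ℝ) (q : ℕ) : Prop where
  pos : ∀ d a, 0 ≤ F d a
  top : ∀ d a, F d a ≤ K
  one : 𝔼 d, 𝔼 a, F d a = 1
  bl : ∀ (s : Setoid V) (d : V) (m Γ : ℝ), 0 ≤ Γ →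
    Fintype.card V * av s d d ≤ Real.exp (m * R) → m + 1 ≤ Γ ^ (3 * q) → Bl (avf s F d) (Γ ^ 3)

/-- A spread minorant of the averaged family that keeps most of the mass. -/
structure Slot (r : Setoid V) (F f : V → α → ℝ) (Γ a : ℝ) : Prop where
  inv : r ≤ Setoid.ker f
  pos : ∀ d x, 0 ≤ f d x
  le : ∀ d x, f d x ≤ avf r F d x
  bl : ∀ d, Bl (f d) (Γ ^ 3)
  mass : 1 - a ≤ 𝔼 d, 𝔼 x, f d x

open Classical in
/-- The averaged family, set to zero on small cells. -/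
noncomputable def cut (s : Setoid V) (T : ℝ) (f : V → α → ℝ) (d : V) (a : α) : ℝ :=
  if Fintype.card V * av s d d ≤ T then avf s f d a else 0

omit [Fintype α] in
theorem avf_pos (s : Setoid V) {f : V → α → ℝ} (h : ∀ d x, 0 ≤ f d x) (d : V) (x : α) :
    0 ≤ avf s f d x := sum_nonneg fun e _ => mul_nonneg (av_pos s d e) (h e x)

omit [Fintype α] in
theorem cut_le (s : Setoid V) (T : ℝ) {f : V → α → ℝ} (h : ∀ d x, 0 ≤ f d x) (d : V) (x : α) :
    0 ≤ cut s T f d x ∧ cut s T f d x ≤ avf s f d x := by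
  unfold cut
  split_ifs
  exacts [⟨avf_pos s h d x, le_rfl⟩, ⟨le_rfl, avf_pos s h d x⟩]

theorem Slot.norm [Nonempty α] {r : Setoid V} {F f : V → α → ℝ} {Γ a μ : ℝ} (h : Slot r F f Γ a)
    (hΓ : 0 ≤ Γ) (hμ : 15 * Γ ≤ μ) (d : V) : ip (f d) (f d) ≤ μ ^ 2 :=
  dual fun _ hP => ((h.bl d).norm (h.pos d) hΓ hP).trans hμ

theorem Slot.step [Nonempty α] [Nonempty V] {F f : V → α → ℝ} {K R Γ Γ' a ε m : ℝ} {q : ℕ}
    {r s : Setoid V} (h : Slot r F f Γ a) (hF : Src F K R q) (hs : r ≤ s) (hK : 0 ≤ K)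
    (hT : K * tr s ≤ ε * Real.exp (m * R)) (hΓ : 0 ≤ Γ') (hm : m + 1 ≤ Γ' ^ (3 * q)) :
    Slot s F (cut s (Real.exp (m * R)) f) Γ' (a + ε) := by
  have hle : ∀ d x, avf s f d x ≤ avf s F d x := fun d x =>
    (avf_mono s h.le d x).trans_eq (by rw [avf_avf hs])
  have pT := Real.exp_pos (m * R)
  refine ⟨fun d e hde => funext fun x => ?_, fun d x => (cut_le s _ h.pos d x).1,
    fun d x => (cut_le s _ h.pos d x).2.trans (hle d x), fun d E => ?_, ?_⟩
  · have e1 : avf s f d = avf s f e := avf_inv s f hde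
    rw [cut, cut, e1, av_congr s hde d, av_symm s e d, av_congr s hde e]
  · by_cases e : Fintype.card V * av s d d ≤ Real.exp (m * R)
    · refine le_trans (pow_le_pow_left₀ (ex_pos fun x => mul_nonneg (cut_le s _ h.pos d x).1
        (ind_pos E x)) (ex_mono fun x => mul_le_mul_of_nonneg_right
          ((cut_le s _ h.pos d x).2.trans (hle d x)) (ind_pos E x)) 3) (hF.bl s d m Γ' hΓ e hm E)
    · simp only [ip, cut, if_neg e, zero_mul, expect_const_zero]
      rw [zero_pow three_ne_zero]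
      positivity
  · have e1 : 𝔼 d, 𝔼 x, avf s f d x = 𝔼 d, 𝔼 x, f d x := by
      have := ip2_avf s f fun _ _ => 1
      rw [avf_fix (φ := fun _ _ => 1) fun _ _ _ => rfl] at this
      simpa only [ip2, ip, mul_one] using this
    have e2 : 𝔼 d, 𝔼 x, avf s f d x ≤ 𝔼 d, (𝔼 x, cut s (Real.exp (m * R)) f d x +
        K / Real.exp (m * R) * (Fintype.card V * av s d d)) := by
      refine ex_mono fun d => ?_
      by_cases e : Fintype.card V * av s d d ≤ Real.exp (m * R)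
      · simp only [cut, if_pos e]
        exact le_add_of_nonneg_right (mul_nonneg (by positivity)
          (mul_nonneg (Nat.cast_nonneg _) (av_pos s d d)))
      · simp only [cut, if_neg e, expect_const_zero, zero_add]
        refine (ex_le' fun x => (hle d x).trans (av_bound s (fun e => hF.top e x) d)).trans ?_
        rw [div_mul_eq_mul_div, le_div_iff₀ pT]
        exact mul_le_mul_of_nonneg_left (not_le.1 e).le hK
    rw [expect_add_distrib, ← mul_expect, ← mul_expect, Fintype.card_mul_expect, e1] at e2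
    have e3 : K / Real.exp (m * R) * ∑ d, av s d d ≤ ε := by
      rw [div_mul_eq_mul_div, div_le_iff₀ pT]
      exact hT
    linarith [h.mass]

/-- The invariant of the descent. -/
def St (w : α → β → γ → ℝ) (F : V → α → ℝ) (G : V → β → ℝ) (H : V → γ → ℝ) (Γ a : ℝ) : Prop :=
  ∃ r f g h, Slot r F f Γ a ∧ Slot r G g Γ a ∧ Slot r H h Γ a ∧
    𝔼 d, Lam w (f d) (g d) (h d) ≤ a

variable [Nonempty α] [Nonempty β] [Nonempty γ] [Nonempty V] {w : α → β → γ → ℝ} {F : V → α → ℝ}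
  {G : V → β → ℝ} {H : V → γ → ℝ}

theorem St.step {K R Γ Γ' a ε θ κ μ : ℝ} {q k : ℕ} (hS : St w F G H Γ a)
    (hw : ∀ a b c, 0 ≤ w a b c) (hF : Src F K R q) (hG : Src G K R q) (hH : Src H K R q)
    {Ψ : Finset (α → ℝ)} {Φ : Finset (β → ℝ)} (c1 : Cov w Ψ θ κ)
    (c2 : Cov (fun b a c => w a b c) Φ θ κ) (n1 : Ψ.card ≤ Real.exp (4 * R))
    (n2 : Φ.card ≤ Real.exp (4 * R)) (hR : 0 ≤ R) (hK : 0 ≤ K) (hθ : 0 < θ) (hκ : 0 < κ)
    (hΓ : 0 < Γ) (hμ : 15 * Γ ≤ μ) (hk : 1 < 2 * k * (κ * θ) ^ 2) (hε : 8 * μ ^ 3 * θ ≤ ε)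
    (hε' : K ≤ ε * Real.exp R) (hΓ' : 0 ≤ Γ') (hq : 4 * k + 2 ≤ Γ' ^ (3 * q)) :
    St w F G H Γ' (a + ε) := by
  obtain ⟨r, f, g, h, sf, sg, sh, hL⟩ := hS
  have pμ : 0 < μ := by linarith
  have f2 := sf.norm hΓ.le hμ
  have g2 := sg.norm hΓ.le hμ
  have h2 := sh.norm hΓ.le hμ
  obtain ⟨s, hs, ht, r1, r2⟩ := fk r f g Ψ Φ (η := 2 * μ * κ * θ) (Real.one_le_exp (by linarith))
    n1 n2 (by positivity) k ((add_le_add (ex_le' f2) (ex_le' g2)).trans_lt (by
      nlinarith [mul_lt_mul_of_pos_left hk (show 0 < 2 * μ ^ 2 by positivity)]))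
  have hT : K * tr s ≤ ε * Real.exp ((4 * k + 1) * R) := by
    refine (mul_le_mul hε' ht (tr_pos s) (hK.trans hε')).trans_eq ?_
    rw [mul_assoc, ← Real.exp_nat_mul, ← Real.exp_add]
    congr 2
    ring
  have hm : 4 * k + 1 + 1 ≤ Γ' ^ (3 * q) := by linarith
  refine ⟨s, _, _, _, sf.step hF hs hK hT hΓ' hm, sg.step hG hs hK hT hΓ' hm,
    sh.step hH hs hK hT hΓ' hm, ?_⟩
  have e1 := reg_lam c1 hκ pμ hs sf.inv sg.inv sh.inv f2 g2 h2 r1
  have e2 := reg_lam c2 hκ pμ hs sg.inv (hs.trans (avf_inv s f)) sh.inv g2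
    (avf_norm s pμ.le f2) h2 r2
  simp only [Lam_swap12] at e2
  have e3 := last_lam w h (avf_inv s f) (avf_inv s g)
  refine (ex_mono fun d => Lam_mono hw fun a b c => ?_).trans (e3.trans_le (by linarith))
  have p1 := cut_le s (Real.exp ((4 * k + 1) * R)) sf.pos d a
  have p2 := cut_le s (Real.exp ((4 * k + 1) * R)) sg.pos d b
  have p3 := cut_le s (Real.exp ((4 * k + 1) * R)) sh.pos d c
  exact mul_le_mul (mul_le_mul p1.2 p2.2 p2.1 (p1.1.trans p1.2)) p3.2 p3.1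
    (mul_nonneg (p1.1.trans p1.2) (p2.1.trans p2.2))

theorem St.last {Γ a : ℝ} (hS : St w F G H Γ a) (hw : ∀ a b c, 0 ≤ w a b c)
    (h1 : Lam w (ind univ) (ind univ) (ind univ) = 1)
    (h3 : ∀ E F G, Lam w (ind E) (ind F) (ind G) ^ 3 ≤ (dn E * dn F * dn G) ^ 2) (hΓ : 1 ≤ Γ) :
    1 / 4 ≤ 18 * (Γ - 1) + 45 * a := by
  obtain ⟨r, f, g, h, sf, sg, sh, hL⟩ := hS
  have := ex_mono fun d => big_lam hw h1 h3 hΓ (sf.pos d) (sg.pos d) (sh.pos d) (sf.bl d)
    (sg.bl d) (sh.bl d)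
  simp only [expect_add_distrib, ← mul_expect, Fintype.expect_const] at this
  linarith [sf.mass, sg.mass, sh.mass]

omit [Nonempty V] in
theorem St.start {K R a : ℝ} {q : ℕ} (hF : Src F K R q) (hG : Src G K R q) (hH : Src H K R q)
    (ha : 0 ≤ a) (hL : 𝔼 d, Lam w (F d) (G d) (H d) ≤ a) : St w F G H K a := by
  have key : ∀ {α : Type} [Fintype α] [Nonempty α] {F : V → α → ℝ}, Src F K R q →
      Slot ⊥ F F K a := fun hF => by
    refine ⟨bot_le, hF.pos, fun d x => by rw [avf_fix bot_le], fun d E => ?_, by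
      linarith [hF.one]⟩
    obtain ⟨x⟩ := ‹Nonempty _›
    have h0 := (hF.pos d x).trans (hF.top d x)
    have h1 := ex_mono fun x => mul_le_mul_of_nonneg_right (hF.top d x) (ind_pos E x)
    rw [← mul_expect] at h1
    refine (pow_le_pow_left₀ (ex_pos fun x => mul_nonneg (hF.pos d x) (ind_pos E x)) h1 3).trans ?_
    rw [mul_pow]
    exact mul_le_mul_of_nonneg_left (pow_le_pow_of_le_one (dn_pos E) (dn_le E) (by norm_num))
      (by positivity)
  exact ⟨⊥, F, G, H, key hF, key hG, key hH, hL⟩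

end Pool.Agent.Lib.MP_9afdc0_co
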