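import Pool.Agent.Lib.MP_9afdc0_co.PlE
import Pool.Agent.Lib.MP_9afdc0_co.PlCover

/-! The descent over scales. -/

namespace Pool.Agent.Lib.MP_9afdc0_co

open Finset
open scoped BigOperators

variable {α β γ V : Type} [Fintype α] [Fintype β] [Fintype γ] [Fintype V]
  [Nonempty α] [Nonempty β] [Nonempty γ] {w : α → β → γ → ℝ}

theorem cov_of {K R θ : ℝ} (H : Tri w K (Real.exp R)) (Z : ℕ) (hZ : 2 ≤ Z) (hK : 0 < K)
    (hKZ : K ≤ Z) (h1 : 1 / (Z : ℝ) ≤ θ) (h2 : θ ≤ 1 / 2) (hR : (Z : ℝ) ^ 81 ≤ R) :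
    ∃ Ψ : Finset (α → ℝ), Ψ.card ≤ Real.exp (4 * R) ∧ Cov w Ψ θ (θ ^ 2 / 2 ^ 43) := by
  classical
  have z2 : (2 : ℝ) ≤ Z := by exact_mod_cast hZ
  have t1 : 1 ≤ Real.exp R := Real.one_le_exp (le_trans (by positivity) hR)
  obtain ⟨Ψ, c1, c2⟩ := cover H Z hZ hK hKZ t1 h1 h2
  refine ⟨insert 0 Ψ, ?_, fun f g h hf hg hh => ?_⟩
  · have e1 : ((insert 0 Ψ).card : ℝ) ≤ Ψ.card + 1 := by exact_mod_cast card_insert_le 0 Ψ
    have e2 : (1 : ℝ) ≤ Real.exp R ^ 3 * 2 ^ (Z ^ 80) :=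
      one_le_mul_of_one_le_of_one_le (one_le_pow₀ t1) (one_le_pow₀ one_le_two)
    have e3 : (2 : ℝ) ^ (Z ^ 80 + 1) ≤ Real.exp R := by
      refine (pow_le_pow_left₀ zero_le_two (by linarith [Real.add_one_le_exp 1] :
        2 ≤ Real.exp 1) _).trans ?_
      rw [← Real.exp_nat_mul, mul_one, Real.exp_le_exp]
      refine le_trans ?_ hR
      push_cast
      have := one_le_pow₀ (n := 80) (one_le_two.trans z2)
      rw [pow_succ (Z : ℝ) 80]
      nlinarith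
    have e4 : Real.exp (4 * R) = Real.exp R ^ 3 * Real.exp R := by
      rw [← pow_succ, ← Real.exp_nat_mul]
      norm_num
    rw [pow_succ] at e3
    nlinarith [mul_le_mul_of_nonneg_left e3 (show 0 ≤ Real.exp R ^ 3 by positivity)]
  · have p0 : 0 < θ := lt_of_lt_of_le (by positivity) h1
    rcases le_or_gt θ (Lam w f g h) with e | e
    · obtain ⟨ψ, p1, p2, p3⟩ := c2 f g h hf hg hh e
      refine ⟨ψ, mem_insert_of_mem p1, p2, le_trans ?_ p3⟩
      refine (mul_le_mul_of_nonneg_left (show _ ≤ (2 : ℝ) ^ 12 by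
        linarith [H.tri f g h hf hg hh]) (by positivity)).trans_eq (by ring)
    · refine ⟨0, mem_insert_self _ _, by simp [ip], le_of_le_of_eq
        (mul_nonpos_of_nonneg_of_nonpos (by positivity) (by linarith)) (by simp [ip])⟩

variable [Nonempty V] {F : V → α → ℝ} {G : V → β → ℝ} {H : V → γ → ℝ}

theorem St.scale {M K q : ℕ} {R Γ' a : ℝ} (hS : St w F G H ((M : ℝ) ^ 2) a) (hM : 2 ≤ M)
    (hK : M ^ 2 ≤ K) (hT : Tri w K (Real.exp R)) (hR : (K : ℝ) ^ 891 ≤ R) (hF : Src F K R q)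
    (hG : Src G K R q) (hH : Src H K R q) (hΓ : 0 ≤ Γ')
    (hq : 2 ^ 179 * (M : ℝ) ^ 42 ≤ Γ' ^ (3 * q)) : St w F G H Γ' (a + 1 / M) := by
  have m2 : (2 : ℝ) ≤ M := by exact_mod_cast hM
  have k2 : (M : ℝ) ^ 2 ≤ K := by exact_mod_cast hK
  have k1 : (2 : ℝ) ≤ K := by nlinarith
  have z1 : (K : ℝ) ≤ (K ^ 11 : ℕ) := by
    push_cast
    exact le_self_pow₀ (by linarith) (by norm_num)
  have z2 : 2 ≤ K ^ 11 := by exact_mod_cast k1.trans z1
  have z3 : 1 / ((K ^ 11 : ℕ) : ℝ) ≤ 1 / (2 ^ 15 * (M : ℝ) ^ 7) := by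
    refine one_div_le_one_div_of_le (by positivity) ?_
    push_cast
    refine le_trans ?_ (pow_le_pow_left₀ (by positivity) k2 11)
    rw [← pow_mul, show 2 * 11 = 15 + 7 from rfl, pow_add]
    exact mul_le_mul_of_nonneg_right (pow_le_pow_left₀ zero_le_two m2 15) (by positivity)
  have z4 : 1 / (2 ^ 15 * (M : ℝ) ^ 7) ≤ 1 / 2 := one_div_le_one_div_of_le two_pos (by
    nlinarith [one_le_pow₀ (n := 7) (one_le_two.trans m2)])
  have z5 : ((K ^ 11 : ℕ) : ℝ) ^ 81 ≤ R := by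
    rw [Nat.cast_pow, ← pow_mul, show 11 * 81 = 891 by norm_num]
    exact hR
  obtain ⟨Ψ, n1, c1⟩ := cov_of hT _ z2 (by linarith) z1 z3 z4 z5
  obtain ⟨Φ, n2, c2⟩ := cov_of hT.swap12 _ z2 (by linarith) z1 z3 z4 z5
  have r0 : (K : ℝ) ^ 2 ≤ R := (pow_le_pow_right₀ (by linarith) (by norm_num)).trans hR
  refine hS.step (μ := 16 * (M : ℝ) ^ 2) (k := 2 ^ 176 * M ^ 42) hT.pos hF hG hH c1 c2 n1 n2
    (le_trans (by positivity) r0) (by linarith) (by positivity) (by positivity) (by positivity)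
    (by nlinarith) (one_lt_two.trans_eq ?_) (le_of_eq ?_) ?_ hΓ (le_trans ?_ hq)
  · push_cast
    field_simp
    norm_num
  · field_simp
    norm_num
  · rw [one_div, ← div_eq_inv_mul, le_div_iff₀ (by linarith)]
    nlinarith [Real.add_one_le_exp R]
  · push_cast
    nlinarith [one_le_pow₀ (n := 42) (one_le_two.trans m2)]

theorem descend {K : ℕ} {R : ℝ} (hT : Tri w K (Real.exp R)) (hR : (K : ℝ) ^ 891 ≤ R)
    (h1 : Lam w (ind univ) (ind univ) (ind univ) = 1)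
    (h3 : ∀ E F G, Lam w (ind E) (ind F) (ind G) ^ 3 ≤ (dn E * dn F * dn G) ^ 2)
    (hF : Src F K R 90000) (hG : Src G K R 90000) (hH : Src H K R 90000) (j : ℕ) :
    ∀ M : ℕ, M = 2048 ^ 2 ^ j → M ^ 2 ≤ K → ¬ St w F G H ((M : ℝ) ^ 2) (4 / (M : ℝ) ^ 2) := by
  induction j with
  | zero =>
    rintro M rfl hK hS
    have h4 : (2 : ℝ) ≤ (1 + 1 / 400) ^ 400 :=
      le_trans (by norm_num) (one_add_mul_le_pow (by norm_num) 400)
    have h5 := (hS.scale (Γ' := 1 + 1 / 400) (by norm_num) hK hT hR hF hG hH (by norm_num) (by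
      rw [show 3 * 90000 = 400 * 675 from rfl, pow_mul]
      refine le_trans ?_ (pow_le_pow_left₀ zero_le_two h4 675)
      rw [show ((2048 ^ 2 ^ 0 : ℕ) : ℝ) = 2 ^ 11 by norm_num, ← pow_mul, ← pow_add]
      exact pow_le_pow_right₀ one_le_two (by norm_num))).last hT.pos h1 h3 (by norm_num)
    norm_num at h5
  | succ j ih =>
    intro M hM hK hS
    have e : M = (2048 ^ 2 ^ j) ^ 2 := by rw [hM, ← pow_mul, pow_succ]
    have m2 : 2 ≤ M := hM ▸ le_trans (by norm_num) (le_self_pow₀ (by norm_num) (by positivity))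
    have m3 : (2 : ℝ) ≤ M := by exact_mod_cast m2
    obtain ⟨r, f, g, h, sf, sg, sh, hL⟩ := hS.scale (Γ' := M) m2 hK hT hR hF hG hH (by linarith) (by
      refine (mul_le_mul_of_nonneg_right (pow_le_pow_left₀ zero_le_two m3 179)
        (by positivity)).trans ?_
      rw [← pow_add]
      exact pow_le_pow_right₀ (by linarith) (by norm_num))
    have h4 : 4 / (M : ℝ) ^ 2 + 1 / M ≤ 4 / M := by
      rw [div_add_div _ _ (by positivity) (by positivity), div_le_div_iff₀ (by positivity)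
        (by positivity)]
      nlinarith [mul_nonneg (sub_nonneg.2 m3) (sq_nonneg (M : ℝ))]
    refine ih _ rfl (e ▸ (le_self_pow₀ (by omega) two_ne_zero).trans hK) ?_
    rw [← Nat.cast_pow, ← e]
    exact ⟨r, f, g, h, ⟨sf.1, sf.2, sf.3, sf.4, by linarith [sf.5]⟩,
      ⟨sg.1, sg.2, sg.3, sg.4, by linarith [sg.5]⟩, ⟨sh.1, sh.2, sh.3, sh.4, by linarith [sh.5]⟩,
      hL.trans h4⟩

end Pool.Agent.Lib.MP_9afdc0_co
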