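import Pool.Agent.Lib.MP_9afdc0_co.PlF

/-! No normalised extremal box exists when the fourth side is large. -/

namespace Pool.Agent.Lib.MP_9afdc0_co

open Finset
open scoped BigOperators

variable {α β γ V : Type} [Fintype α] [Fintype β] [Fintype γ] [Fintype V]

/-- The marginal on the first variable. -/
noncomputable def mar (w : α → β → γ → ℝ) (a : α) : ℝ := 𝔼 b, 𝔼 c, w a b c

theorem Lam_mar (w : α → β → γ → ℝ) (f : α → ℝ) :
    Lam w f (ind univ) (ind univ) = ip (mar w) f := by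
  simp only [Lam_ip, ind_univ, mul_one, ip_comm f]
  rfl

theorem ex3 (u : V → α → β → γ → ℝ) :
    𝔼 d, 𝔼 a, 𝔼 b, 𝔼 c, u d a b c = 𝔼 a, 𝔼 b, 𝔼 c, 𝔼 d, u d a b c := by
  rw [expect_comm]
  refine expect_congr rfl fun a _ => (expect_comm _ _ _).trans ?_
  exact expect_congr rfl fun b _ => expect_comm _ _ _

theorem Lam_avg (Y : V → α → β → γ → ℝ) (f : α → ℝ) (g : β → ℝ) (h : γ → ℝ) :
    Lam (fun a b c => 𝔼 d, Y d a b c) f g h = 𝔼 d, Lam (Y d) f g h := by
  simp only [Lam, expect_mul]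
  exact (ex3 _).symm

theorem src_of {F : V → α → ℝ} {K R : ℝ} {q : ℕ} (hq : q ≠ 0) (hR : 0 < R)
    (h0 : ∀ d a, 0 ≤ F d a) (h1 : ∀ d a, F d a ≤ K) (h2 : 𝔼 d, ip (F d) (ind univ) = 1)
    (h3 : ∀ (E : Finset α) (y : Finset V), y.Nonempty →
      ((𝔼 d, ind y d * ip (F d) (ind E)) ^ 3) ^ q * R ≤
        (dn E ^ 2 * dn y ^ 3) ^ q * (R - Real.log (dn y))) : Src F K R q := by
  classical
  refine ⟨h0, h1, by simpa only [ip, ind_univ, mul_one] using h2, fun s d m Γ hΓ hm hm' E => ?_⟩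
  have hn : (0 : ℝ) < Fintype.card V := Nat.cast_pos.2 (Fintype.card_pos_iff.2 ⟨d⟩)
  have hc := lla_card s d
  obtain ⟨y, hy⟩ : ∃ y, y = univ.filter fun x => s d x := ⟨_, rfl⟩
  have hav : ∀ e, av s d e = ind y e / y.card := fun e => by
    rw [hy, ind_filter, av, Matrix.of_apply]
    split_ifs <;> simp
  rw [← hy] at hc
  have pd : 0 < dn y := by rw [dn_eq]; positivity
  have e1 : 𝔼 e, ind y e * ip (F e) (ind E) = dn y * ip (avf s F d) (ind E) := by
    rw [ip_avf, dn_eq, Fintype.expect_eq_sum_div_card, mul_sum, sum_div]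
    refine sum_congr rfl fun e _ => ?_
    rw [hav]
    field_simp
  have e2 : -Real.log (dn y) ≤ m * R := by
    rw [← Real.log_inv, Real.log_le_iff_le_exp (inv_pos.2 pd), dn_eq, inv_div]
    refine le_trans (le_of_eq ?_) hm
    rw [hav, hy, ind_filter, if_pos (s.refl d), mul_one_div]
  have h4 := h3 E y (Nat.cast_pos.1 hc |> card_pos.1)
  have p0 := sq_nonneg (dn E)
  have h5 : R - Real.log (dn y) ≤ (Γ ^ 3) ^ q * R := by
    rw [← pow_mul]
    nlinarith
  replace h4 := h4.trans (mul_le_mul_of_nonneg_left h5 (by positivity))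
  rw [← mul_assoc, mul_le_mul_iff_left₀ hR, ← mul_pow, e1] at h4
  have h6 := le_of_pow_le_pow_left₀ hq (by positivity) h4
  refine le_of_mul_le_mul_left ?_ (pow_pos pd 3)
  rw [← mul_pow]
  exact h6.trans_eq (by ring)

theorem box_false [Nonempty α] [Nonempty β] [Nonempty γ] [Nonempty V] {Y : V → α → β → γ → ℝ}
    {J K : ℕ} (hK : K = (2048 ^ 2 ^ J) ^ 2) {R : ℝ} (hR : (K : ℝ) ^ 891 ≤ R)
    (h0 : ∀ d a b c, 0 ≤ Y d a b c) (h1 : 𝔼 d, Lam (Y d) (ind univ) (ind univ) (ind univ) = 1)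
    (m1 : ∀ d b c, 𝔼 a, Y d a b c ≤ K) (m2 : ∀ d a c, 𝔼 b, Y d a b c ≤ K)
    (m3 : ∀ d a b, 𝔼 c, Y d a b c ≤ K) (m4 : ∀ a b c, 𝔼 d, Y d a b c ≤ Real.exp R)
    (hb : ∀ E F G (y : Finset V), y.Nonempty →
      ((𝔼 d, ind y d * Lam (Y d) (ind E) (ind F) (ind G)) ^ 3) ^ 90000 * R ≤
        ((dn E * dn F * dn G) ^ 2 * dn y ^ 3) ^ 90000 * (R - Real.log (dn y)))
    (u : α → β → γ → V → ℝ) (u0 : ∀ a b c d, 0 ≤ u a b c d) (u1 : ∀ a b c, ∑ d, u a b c d ≤ 3)
    (u2 : ∀ a b c d, (∃ d', Y d' a b c ≠ 0) → (∃ b' c', Y d a b' c' ≠ 0) →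
      (∃ a' c', Y d a' b c' ≠ 0) → (∃ a' b', Y d a' b' c ≠ 0) → 1 ≤ u a b c d)
    (hV : (K : ℝ) ^ 4 ≤ Fintype.card V) : False := by
  have pK : (0 : ℝ) < K := Nat.cast_pos.2 (hK ▸ by positivity)
  have pR : 0 < R := lt_of_lt_of_le (by positivity) hR
  have w0 : ∀ a b c, 0 ≤ 𝔼 d, Y d a b c := fun a b c => ex_pos fun d => h0 d a b c
  have h3 : ∀ E F G, Lam (fun a b c => 𝔼 d, Y d a b c) (ind E) (ind F) (ind G) ^ 3 ≤
      (dn E * dn F * dn G) ^ 2 := fun E F G => by
    have := hb E F G univ univ_nonempty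
    simp only [ind_univ, dn_univ, one_mul, one_pow, mul_one, Real.log_one, sub_zero,
      mul_le_mul_iff_left₀ pR, ← Lam_avg] at this
    exact le_of_pow_le_pow_left₀ (by norm_num) (sq_nonneg _) this
  have hT : Tri (fun a b c => 𝔼 d, Y d a b c) K (Real.exp R) := ⟨w0, m4,
    fun a b => (expect_comm _ _ _).trans_le (ex_le' fun d => m3 d a b),
    fun a c => (expect_comm _ _ _).trans_le (ex_le' fun d => m2 d a c),
    fun b c => (expect_comm _ _ _).trans_le (ex_le' fun d => m1 d b c), tri_of w0 h3⟩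
  have sF : Src (fun d => mar (Y d)) K R 90000 := src_of (by norm_num) pR
    (fun d a => ex_pos fun b => ex_pos fun c => h0 d a b c) (fun d a => ex_le' fun b => m3 d a b)
    (by simpa only [Lam_mar] using h1) fun E y hy => by
      simpa only [Lam_mar, dn_univ, mul_one] using hb E univ univ y hy
  have sG : Src (fun d => mar fun b a c => Y d a b c) K R 90000 := src_of (by norm_num) pR
    (fun d b => ex_pos fun a => ex_pos fun c => h0 d a b c) (fun d b => ex_le' fun a => m3 d a b)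
    (by simpa only [← Lam_mar, Lam_swap12] using h1) fun E y hy => by
      simpa only [← Lam_mar, Lam_swap12, dn_univ, mul_one, one_mul] using hb univ E univ y hy
  have e : ∀ d f g h, Lam (fun c a b => Y d a b c) h f g = Lam (Y d) f g h := fun d f g h => by
    rw [Lam_swap12 (fun a c b => Y d a b c), Lam_swap23]
  have sH : Src (fun d => mar fun c a b => Y d a b c) K R 90000 := src_of (by norm_num) pR
    (fun d c => ex_pos fun a => ex_pos fun b => h0 d a b c) (fun d c => ex_le' fun a => m2 d a c)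
    (by simpa only [← Lam_mar, e] using h1) fun E y hy => by
      simpa only [← Lam_mar, e, dn_univ, mul_one, one_mul] using hb univ univ E y hy
  rw [← Lam_avg] at h1
  refine descend hT hR h1 h3 sF sG sH J _ rfl hK.ge ?_
  rw [← Nat.cast_pow, ← hK]
  refine St.start sF sG sH (by positivity) ?_
  rw [← mul_one (4 / (K : ℝ)), ← h1]
  simp only [Lam, ind_univ, mul_one, mul_expect _ _ (4 / (K : ℝ))]
  rw [ex3]
  refine ex_mono fun a => ex_mono fun b => ex_mono fun c => ?_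
  rw [← mul_expect, ← mul_expect, mul_comm]
  rcases (w0 a b c).eq_or_lt with e0 | e0
  · rw [← e0, mul_zero, mul_zero]
  refine mul_le_mul_of_nonneg_right ?_ e0.le
  obtain ⟨d', -, hd'⟩ := exists_ne_zero_of_expect_ne_zero e0.ne'
  have ne : ∀ {α β γ : Type} [Fintype α] [Fintype β] [Fintype γ] (w : α → β → γ → ℝ) (a : α),
      mar w a ≠ 0 → ∃ b c, w a b c ≠ 0 := fun w a h => by
    obtain ⟨b, -, hb⟩ := exists_ne_zero_of_expect_ne_zero h
    obtain ⟨c, -, hc⟩ := exists_ne_zero_of_expect_ne_zero hb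
    exact ⟨b, c, hc⟩
  refine (ex_mono fun d => (?_ : _ ≤ (K : ℝ) ^ 3 * u a b c d)).trans ?_
  · by_cases z : mar (Y d) a * mar (fun b a c => Y d a b c) b * mar (fun c a b => Y d a b c) c = 0
    · exact z.trans_le (mul_nonneg (by positivity) (u0 a b c d))
    simp only [mul_eq_zero, not_or] at z
    refine le_trans ?_ (le_mul_of_one_le_right (by positivity)
      (u2 a b c d ⟨d', hd'⟩ (ne _ _ z.1.1) (ne _ _ z.1.2) (ne _ _ z.2)))
    exact (mul_le_mul (mul_le_mul (sF.top d a) (sG.top d b) (sG.pos d b) pK.le) (sH.top d c)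
      (sH.pos d c) (by positivity)).trans_eq (by ring)
  · rw [← mul_expect, Fintype.expect_eq_sum_div_card, ← mul_div_assoc,
      div_le_div_iff₀ (lt_of_lt_of_le (by positivity) hV) pK]
    nlinarith [mul_le_mul_of_nonneg_left (u1 a b c) (show 0 ≤ (K : ℝ) ^ 4 by positivity),
      show 0 ≤ (K : ℝ) ^ 4 by positivity]

end Pool.Agent.Lib.MP_9afdc0_co
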