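import Pool.Agent.Lib.MP_9afdc0_co.PlG

/-! The extremal box. -/

namespace Pool.Agent.Lib.MP_9afdc0_co

open Finset
open scoped BigOperators

/-- The mass of a box. -/
def Kb {α β γ δ : Type} (X : α → β → γ → δ → ℝ) (A : Finset α) (B : Finset β) (C : Finset γ)
    (D : Finset δ) : ℝ := ∑ a ∈ A, ∑ b ∈ B, ∑ c ∈ C, ∑ d ∈ D, X a b c d

theorem ex_ind {α : Type} [Fintype α] (E : Finset α) (u : α → ℝ) :
    𝔼 a, ind E a * u a = (Fintype.card α : ℝ)⁻¹ * ∑ a ∈ E, u a := by
  simp [ind, Fintype.expect_eq_sum_div_card, div_eq_inv_mul]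

theorem ex_box {α β γ δ : Type} [Fintype α] [Fintype β] [Fintype γ] [Fintype δ]
    (X : α → β → γ → δ → ℝ) (s : ℝ) (E : Finset α) (F : Finset β) (G : Finset γ) (y : Finset δ) :
    𝔼 d, ind y d * Lam (fun a b c => s * X a b c d) (ind E) (ind F) (ind G) =
      s / (Fintype.card α * Fintype.card β * Fintype.card γ * Fintype.card δ) * Kb X E F G y := by
  have e : ∀ a b c d, ind y d * (s * X a b c d * (ind E a * ind F b * ind G c)) =
      s * (ind E a * (ind F b * (ind G c * (ind y d * X a b c d)))) := fun a b c d => by ring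
  simp only [Lam, mul_expect]
  rw [ex3]
  simp only [e, ← mul_expect, ex_ind, ← mul_sum, Kb]
  ring

variable {V : Type} [Fintype V] {X : V → V → V → V → ℝ}

theorem Wt.r4 (h : Wt X) (D : Finset V) (a b c : V) : ∑ d ∈ D, X a b c d ≤ 1 :=
  (sum_le_sum_of_subset_of_nonneg (subset_univ D) fun d _ _ => h.pos a b c d).trans (h.row a b c)

theorem Wt.r3 (h : Wt X) (C : Finset V) (a b d : V) : ∑ c ∈ C, X a b c d ≤ 1 :=
  (sum_congr rfl fun c _ => h.s3 a b c d).trans_le (h.r4 C a b d)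

theorem Wt.r2 (h : Wt X) (B : Finset V) (a c d : V) : ∑ b ∈ B, X a b c d ≤ 1 :=
  (sum_congr rfl fun b _ => h.s2 a b c d).trans_le (h.r3 B a c d)

theorem Wt.r1 (h : Wt X) (A : Finset V) (b c d : V) : ∑ a ∈ A, X a b c d ≤ 1 :=
  (sum_congr rfl fun a _ => h.s1 a b c d).trans_le (h.r2 A b c d)

theorem Wt.k3 (h : Wt X) (A B C D : Finset V) : Kb X A B C D ≤ A.card * B.card * D.card := by
  refine (sum_le_card_nsmul _ _ _ fun a _ => sum_le_card_nsmul _ _ _ fun b _ =>
    sum_comm.trans_le (sum_le_card_nsmul _ _ 1 fun d _ => h.r3 C a b d)).trans_eq ?_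
  simp only [nsmul_eq_mul]
  ring

theorem Wt.k2 (h : Wt X) (A B C D : Finset V) : Kb X A B C D ≤ A.card * C.card * D.card := by
  refine le_of_eq_of_le (sum_congr rfl fun a _ => sum_comm.trans ?_) (h.k3 A C B D)
  simp only [h.s2 a _ _ _]

theorem Wt.k1 (h : Wt X) (A B C D : Finset V) : Kb X A B C D ≤ B.card * C.card * D.card := by
  refine le_of_eq_of_le (sum_comm.trans ?_) (h.k2 B A C D)
  exact sum_congr rfl fun b _ => sum_congr rfl fun a _ => by simp only [h.s1 a b]

omit [Fintype V] in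
theorem Kb_map {A B C D : Finset V} (E : Finset A) (F : Finset B) (G : Finset C) (y : Finset D) :
    Kb (fun (a : A) (b : B) (c : C) (d : D) => X a b c d) E F G y =
      Kb X (E.map (.subtype _)) (F.map (.subtype _)) (G.map (.subtype _)) (y.map (.subtype _)) := by
  simp only [Kb, sum_map, Function.Embedding.coe_subtype]

omit [Fintype V] in
theorem ex_row {A : Finset V} {u : V → ℝ} {s K : ℝ} (hA : A.Nonempty) (hs : 0 ≤ s)
    (h : ∑ a ∈ A, u a ≤ 1) (hK : s ≤ K * A.card) : 𝔼 a : A, s * u a ≤ K := by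
  rw [← mul_expect, Fintype.expect_eq_sum_div_card, sum_coe_sort, Fintype.card_coe,
    ← mul_div_assoc, div_le_iff₀ (Nat.cast_pos.2 hA.card_pos)]
  exact (mul_le_of_le_one_right hs h).trans hK

/-- The potential of a box. -/
noncomputable def pot (X : V → V → V → V → ℝ) (q : ℕ) (L : ℝ) (A B C D : Finset V) : ℝ :=
  (Kb X A B C D ^ 3 / (((A.card : ℝ) * B.card * C.card) ^ 2 * D.card ^ 3)) ^ q /
    (Real.log (Fintype.card V / D.card) + L)

theorem ext_false (hX : Wt X)
    (hc : ∀ a b c d, (∃ d', X a b c d' ≠ 0) → (∃ b' c', X a b' c' d ≠ 0) →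
      (∃ a' c', X a' b c' d ≠ 0) → (∃ a' b', X a' b' c d ≠ 0) → 1 ≤ 3 * X a b c d)
    {J K : ℕ} (hK : K = (2048 ^ 2 ^ J) ^ 2) {A B C D : Finset V} (hA : A.Nonempty)
    (hB : B.Nonempty) (hC : C.Nonempty) (hD : D.Nonempty) {q : ℕ} (hq : q = 90000)
    (hm : ∀ E F G y : Finset V, E.Nonempty → F.Nonempty → G.Nonempty → y.Nonempty →
      pot X q (K ^ 891) E F G y ≤ pot X q (K ^ 891) A B C D)
    (hk : ((A.card : ℝ) * B.card * C.card) ^ 2 * D.card ^ 3 ≤ K * Kb X A B C D ^ 3)
    (hV : (K : ℝ) ^ 4 ≤ D.card) : False := by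
  have := hA.coe_sort
  have := hB.coe_sort
  have := hC.coe_sort
  have := hD.coe_sort
  have pa : (0 : ℝ) < A.card := Nat.cast_pos.2 hA.card_pos
  have pb : (0 : ℝ) < B.card := Nat.cast_pos.2 hB.card_pos
  have pc : (0 : ℝ) < C.card := Nat.cast_pos.2 hC.card_pos
  have pd : (0 : ℝ) < D.card := Nat.cast_pos.2 hD.card_pos
  have pK : (1 : ℝ) ≤ K := Nat.one_le_cast.2 (Nat.succ_le_of_lt (hK ▸ by positivity))
  have cn : ∀ y : Finset V, (y.card : ℝ) ≤ Fintype.card V := fun y =>
    Nat.cast_le.2 (card_le_univ y)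
  have k1 := hX.k1 A B C D
  have k2 := hX.k2 A B C D
  have k3 := hX.k3 A B C D
  have e0 : Kb (fun (a : A) (b : B) (c : C) (d : D) => X a b c d) univ univ univ univ =
      Kb X A B C D := by simp only [Kb_map, univ_eq_attach, attach_map_val]
  simp only [pot] at hm
  generalize Kb X A B C D = k at *
  have pk : 0 < k := by
    have h1 : 0 < (K : ℝ) * k ^ 3 := lt_of_lt_of_le (by positivity) hk
    exact (Odd.pow_pos_iff (by decide)).1 ((pos_iff_pos_of_mul_pos h1).1 (by linarith))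
  have aux : ∀ x y z : ℝ, 0 ≤ x → k ≤ y → k ≤ z → x * y * z ≤ K * k ^ 3 → x ≤ K * k :=
    fun x y z hx hy hz h => le_of_mul_le_mul_right (a := k * k) (by
      nlinarith [mul_le_mul_of_nonneg_left (mul_le_mul hy hz pk.le (pk.le.trans hy)) hx])
      (by positivity)
  have q3 := aux (A.card * B.card * D.card) _ _ (by positivity) k1 k2 (by linarith)
  have q2 := aux (A.card * C.card * D.card) _ _ (by positivity) k1 k3 (by linarith)
  have q1 := aux (B.card * C.card * D.card) _ _ (by positivity) k2 k3 (by linarith)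
  obtain ⟨s, hs⟩ : ∃ s : ℝ, s = A.card * B.card * C.card * D.card / k := ⟨_, rfl⟩
  have ps : 0 < s := hs ▸ by positivity
  have l0 := Real.log_nonneg ((one_le_div pd).2 (cn D))
  have eb : ∀ E F G y, 𝔼 d : D, ind y d * Lam (fun (a : A) (b : B) (c : C) => s * X a b c d)
      (ind E) (ind F) (ind G) = Kb (fun (a : A) (b : B) (c : C) (d : D) => X a b c d) E F G y / k :=
    fun E F G y => by
      rw [ex_box (fun (a : A) (b : B) (c : C) (d : D) => X a b c d), hs]
      simp only [Fintype.card_coe]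
      field_simp
  have pL : (0 : ℝ) < K ^ 891 := by positivity
  refine box_false (Y := fun (d : D) (a : A) (b : B) (c : C) => s * X a b c d) hK
    (R := Real.log (Fintype.card V / D.card) + K ^ 891) (by linarith)
    (fun d a b c => mul_nonneg ps.le (hX.pos _ _ _ _)) ?_
    (fun d b c => ex_row hA ps.le (hX.r1 A b c d) ?_)
    (fun d a c => ex_row hB ps.le (hX.r2 B a c d) ?_)
    (fun d a b => ex_row hC ps.le (hX.r3 C a b d) ?_)
    (fun a b c => ex_row hD ps.le (hX.r4 D a b c) ?_)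
    (fun E F G y hy => ?_) (fun a b c d => 3 * X a b c d)
    (fun a b c d => mul_nonneg zero_le_three (hX.pos _ _ _ _)) (fun a b c => ?_)
    (fun a b c d ⟨d', h1⟩ ⟨b', c', h2⟩ ⟨a', c'', h3⟩ ⟨a'', b'', h4⟩ => hc a b c d
      ⟨d', right_ne_zero_of_mul h1⟩ ⟨b', c', right_ne_zero_of_mul h2⟩
      ⟨a', c'', right_ne_zero_of_mul h3⟩ ⟨a'', b'', right_ne_zero_of_mul h4⟩)
    (by rwa [Fintype.card_coe])
  · have := eb univ univ univ univ
    simp only [ind_univ, one_mul] at this
    rw [this, e0, div_self pk.ne']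
  · rw [hs, div_le_iff₀ pk]
    nlinarith [mul_le_mul_of_nonneg_left q1 pa.le]
  · rw [hs, div_le_iff₀ pk]
    nlinarith [mul_le_mul_of_nonneg_left q2 pb.le]
  · rw [hs, div_le_iff₀ pk]
    nlinarith [mul_le_mul_of_nonneg_left q3 pc.le]
  · rw [hs, div_le_iff₀ pk, Real.exp_add, Real.exp_log (div_pos (pd.trans_le (cn D)) pd),
      mul_right_comm _ (Real.exp _) (D.card : ℝ), div_mul_cancel₀ _ pd.ne']
    have h1 : (K : ℝ) ≤ Real.exp (K ^ 891) := by
      linarith [Real.add_one_le_exp ((K : ℝ) ^ 891), le_self_pow₀ pK (n := 891) (by norm_num)]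
    nlinarith [mul_le_mul (cn C) (q3.trans (mul_le_mul_of_nonneg_right h1 pk.le)) (by positivity)
      (Nat.cast_nonneg _)]
  · rw [eb, ← hq]
    have py : (0 : ℝ) < y.card := Nat.cast_pos.2 hy.card_pos
    have ly : Real.log (dn y) ≤ 0 := Real.log_nonpos (dn_pos y) (dn_le y)
    by_cases z : E.Nonempty ∧ F.Nonempty ∧ G.Nonempty
    · have pe : (0 : ℝ) < E.card := Nat.cast_pos.2 z.1.card_pos
      have pf : (0 : ℝ) < F.card := Nat.cast_pos.2 z.2.1.card_pos
      have pg : (0 : ℝ) < G.card := Nat.cast_pos.2 z.2.2.card_pos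
      have h1 := hm _ _ _ _ (z.1.map (f := .subtype _)) (z.2.1.map (f := .subtype _))
        (z.2.2.map (f := .subtype _)) (hy.map (f := .subtype _))
      have e1 : Real.log (Fintype.card V / y.card) + K ^ 891 =
          Real.log (Fintype.card V / D.card) + K ^ 891 - Real.log (dn y) := by
        rw [dn_eq, Fintype.card_coe, Real.log_div (pd.trans_le (cn D)).ne' py.ne',
          Real.log_div (pd.trans_le (cn D)).ne' pd.ne', Real.log_div py.ne' pd.ne']
        ring
      simp only [card_map, ← Kb_map] at h1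
      rw [e1, div_le_div_iff₀ (by linarith) (by linarith)] at h1
      generalize Kb _ E F G y = k' at *
      have h2 := mul_le_mul_of_nonneg_left h1 (show 0 ≤ (((E.card : ℝ) * F.card * G.card) ^ 2 *
        y.card ^ 3 / k ^ 3) ^ q by positivity)
      rw [← mul_assoc, ← mul_assoc, ← mul_pow, ← mul_pow] at h2
      refine le_of_eq_of_le ?_ (h2.trans_eq ?_) <;> congr 2
      · field_simp
      · simp only [dn_eq, Fintype.card_coe]
        field_simp
    · have e1 : Kb (fun (a : A) (b : B) (c : C) (d : D) => X a b c d) E F G y = 0 := by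
        simp only [not_and_or, not_nonempty_iff_eq_empty] at z
        rcases z with rfl | rfl | rfl <;> simp [Kb]
      rw [e1, zero_div, zero_pow three_ne_zero, zero_pow (by omega), zero_mul]
      exact mul_nonneg (pow_nonneg (mul_nonneg (sq_nonneg _) (pow_nonneg (dn_pos y) 3)) q)
        (by linarith)
  · rw [← mul_sum, sum_coe_sort D fun d => X a b c d]
    linarith [hX.r4 D a b c]

theorem polylog [Nonempty V] (hX : Wt X)
    (hc : ∀ a b c d, (∃ d', X a b c d' ≠ 0) → (∃ b' c', X a b' c' d ≠ 0) →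
      (∃ a' c', X a' b c' d ≠ 0) → (∃ a' b', X a' b' c d ≠ 0) → 1 ≤ 3 * X a b c d)
    {J K : ℕ} (hK : K = (2048 ^ 2 ^ J) ^ 2) {q : ℕ} (hq : q = 90000)
    (hS : (Fintype.card V : ℝ) ^ 9 ≤ K * S4 X ^ 3) :
    Real.log (Fintype.card V) ≤ (K : ℝ) ^ (q + 892) := by
  classical
  obtain ⟨⟨A, B, C, D⟩, hQ, hm⟩ := exists_max_image
    (univ.filter fun Q : Finset V × Finset V × Finset V × Finset V =>
      Q.1.Nonempty ∧ Q.2.1.Nonempty ∧ Q.2.2.1.Nonempty ∧ Q.2.2.2.Nonempty)
    (fun Q => pot X q (K ^ 891) Q.1 Q.2.1 Q.2.2.1 Q.2.2.2) ⟨(univ, univ, univ, univ), by simp⟩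
  obtain ⟨hA, hB, hC, hD⟩ : A.Nonempty ∧ B.Nonempty ∧ C.Nonempty ∧ D.Nonempty :=
    (mem_filter.1 hQ).2
  have pa : (0 : ℝ) < A.card := Nat.cast_pos.2 hA.card_pos
  have pb : (0 : ℝ) < B.card := Nat.cast_pos.2 hB.card_pos
  have pc : (0 : ℝ) < C.card := Nat.cast_pos.2 hC.card_pos
  have pd : (0 : ℝ) < D.card := Nat.cast_pos.2 hD.card_pos
  have pn : (0 : ℝ) < Fintype.card V := Nat.cast_pos.2 Fintype.card_pos
  have k5 : (5 : ℝ) ≤ K := by
    have : 2048 ≤ K := hK ▸ (le_self_pow₀ (by norm_num) (by positivity)).trans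
      (le_self_pow₀ (Nat.succ_le_of_lt (by positivity)) two_ne_zero)
    exact_mod_cast le_trans (by norm_num) this
  have pK : (0 : ℝ) < K := by linarith
  have pL : (0 : ℝ) < K ^ 891 := by positivity
  have l0 := Real.log_nonneg ((one_le_div pd).2 (Nat.cast_le.2 (card_le_univ D)))
  have hu : pot X q (K ^ 891) univ univ univ univ ≤ pot X q (K ^ 891) A B C D :=
    hm (univ, univ, univ, univ) (by simp)
  have h0 : 0 ≤ Kb X A B C D := sum_nonneg fun a _ => sum_nonneg fun b _ => sum_nonneg fun c _ =>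
    sum_nonneg fun d _ => hX.pos a b c d
  have h1 : Kb X A B C D ^ 3 / (((A.card : ℝ) * B.card * C.card) ^ 2 * D.card ^ 3) ≤ 1 := by
    rw [div_le_one (by positivity)]
    refine le_of_eq_of_le (by ring) ((mul_le_mul (mul_le_mul (hX.k1 A B C D) (hX.k2 A B C D) h0
      (by positivity)) (hX.k3 A B C D) h0 (by positivity)).trans_eq (by ring))
  have h2 : (K : ℝ)⁻¹ ^ q / K ^ 891 ≤ pot X q (K ^ 891) univ univ univ univ := by
    rw [pot, card_univ, div_self pn.ne', Real.log_one, zero_add]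
    refine div_le_div_of_nonneg_right (pow_le_pow_left₀ (by positivity) ?_ q) pL.le
    rw [le_div_iff₀ (by positivity), inv_mul_le_iff₀ pK]
    exact le_of_eq_of_le (by ring) hS
  replace h2 := h2.trans hu
  rw [pot, div_le_div_iff₀ pL (by linarith)] at h2
  have p1 : 0 ≤ Kb X A B C D ^ 3 / (((A.card : ℝ) * B.card * C.card) ^ 2 * D.card ^ 3) := by
    positivity
  have h3 := le_of_pow_le_pow_left₀ (show q ≠ 0 by omega) p1 (le_of_mul_le_mul_right
    ((mul_le_mul_of_nonneg_left (le_add_of_nonneg_left l0) (by positivity)).trans h2) pL)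
  rw [le_div_iff₀ (by positivity), inv_mul_le_iff₀ pK] at h3
  have h4 := not_le.1 (ext_false hX hc hK hA hB hC hD hq (fun E F G y p1 p2 p3 p4 =>
    hm (E, F, G, y) (mem_filter.2 ⟨mem_univ _, p1, p2, p3, p4⟩)) h3)
  replace h2 := h2.trans (mul_le_of_le_one_left pL.le (pow_le_one₀ p1 h1))
  rw [inv_pow, inv_mul_le_iff₀ (by positivity), ← pow_add, Real.log_div pn.ne' pd.ne'] at h2
  have h5 := Real.log_le_log pd h4.le
  rw [Real.log_pow] at h5
  have h6 := Real.log_le_sub_one_of_pos pK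
  have h7 := le_self_pow₀ (show (1 : ℝ) ≤ K by linarith) (n := q + 891) (by omega)
  rw [pow_succ (K : ℝ) (q + 891)]
  push_cast at h5
  nlinarith

end Pool.Agent.Lib.MP_9afdc0_co
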