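import Pool.Agent.Lib.MP_9afdc0_co.PlH
import Pool.Agent.Lib.MP_9afdc0_co.LlE

/-! The polylogarithmic saving for four-cliques. -/

namespace Pool.Agent.Lib.MP_9afdc0_co

open Finset Filter Asymptotics

theorem pli_K {n : ℕ} {G : SimpleGraph (Fin n)} {a b c d : Fin n} (h : lle_X G a b c d ≠ 0) :
    lle_K G a b c d := by
  by_contra e
  exact h (if_neg e)

theorem Th.polylog {n : ℕ} {G : SimpleGraph (Fin n)} (H : Th G) (hn : 2 ≤ n) :
    ((cl G 4).card : ℝ) ≤ 48 * (n ^ 3 * Real.log n ^ (-(1 / 600000) : ℝ)) := by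
  classical
  have : Nonempty (Fin n) := ⟨⟨0, by omega⟩⟩
  have hW := lle_wt H
  have pl : 0 < Real.log n := Real.log_pos (by exact_mod_cast hn)
  refine (lle_card G).trans ?_
  rcases le_or_gt (S4 (lle_X G)) 0 with h0 | h0
  · exact le_trans (by linarith : _ ≤ (0 : ℝ)) (by positivity)
  have pn : (0 : ℝ) < n := Nat.cast_pos.2 (by omega)
  obtain ⟨ρ, hρ⟩ : ∃ ρ : ℝ, ρ = n ^ 3 / S4 (lle_X G) := ⟨_, rfl⟩
  have r1 : 1 ≤ ρ := by
    rw [hρ, one_le_div h0]
    refine (sum_le_card_nsmul _ _ _ fun a _ => sum_le_card_nsmul _ _ _ fun b _ =>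
      sum_le_card_nsmul _ _ 1 fun c _ => hW.row a b c).trans_eq ?_
    simp only [card_univ, Fintype.card_fin, nsmul_eq_mul]
    ring
  have hex : ∃ J : ℕ, ρ ^ 3 ≤ (((2048 ^ 2 ^ J) ^ 2 : ℕ) : ℝ) := by
    obtain ⟨J, hJ⟩ := exists_nat_ge (ρ ^ 3)
    refine ⟨J, hJ.trans (Nat.cast_le.2 ?_)⟩
    exact (Nat.lt_two_pow_self.trans (Nat.lt_pow_self (by norm_num))).le.trans
      (le_self_pow₀ (Nat.succ_le_of_lt (by positivity)) two_ne_zero)
  obtain ⟨q, hq⟩ : ∃ q : ℕ, q = 90000 := ⟨_, rfl⟩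
  have h1 := Pool.Agent.Lib.MP_9afdc0_co.polylog hW (fun a b c d ⟨_, h1⟩ ⟨_, _, h2⟩ ⟨_, _, h3⟩
    ⟨_, _, h4⟩ => by
      rw [lle_X, if_pos ⟨(pli_K h1).1, (pli_K h1).2.1, (pli_K h2).2.2.1, (pli_K h1).2.2.2.1,
        (pli_K h3).2.2.2.2.1, (pli_K h4).2.2.2.2.2⟩]
      norm_num) (J := Nat.find hex) rfl hq (by
    have h2 := Nat.find_spec hex
    generalize Nat.find hex = J at h2 ⊢
    rw [hρ, div_pow, div_le_iff₀ (by positivity), ← pow_mul] at h2
    rwa [Fintype.card_fin])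
  rw [Fintype.card_fin] at h1
  have h2 : (((2048 ^ 2 ^ Nat.find hex) ^ 2 : ℕ) : ℝ) ≤ (16 * ρ) ^ 6 := by
    have h3 := one_le_pow₀ (n := 6) r1
    rcases h : Nat.find hex with _ | p
    · rw [mul_pow]
      push_cast
      nlinarith
    · have h4 := pow_le_pow_left₀ (Nat.cast_nonneg _)
        (not_le.1 (Nat.find_min hex (show p < Nat.find hex by omega))).le 2
      rw [pow_succ 2 p, pow_mul, Nat.cast_pow, mul_pow]
      refine h4.trans ?_
      nlinarith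
  have h3 : Real.log n ≤ (16 * ρ) ^ (600000 : ℕ) := by
    refine h1.trans ((pow_le_pow_left₀ (Nat.cast_nonneg _) h2 _).trans ?_)
    rw [← pow_mul]
    exact pow_le_pow_right₀ (by linarith) (by omega)
  have h4 := Real.rpow_le_rpow pl.le h3 (show (0 : ℝ) ≤ ((600000 : ℕ) : ℝ)⁻¹ by positivity)
  rw [Real.pow_rpow_inv_natCast (by linarith) (by norm_num), hρ, ← mul_div_assoc,
    le_div_iff₀ h0] at h4
  rw [Real.rpow_neg pl.le, one_div, ← div_eq_mul_inv, ← mul_div_assoc,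
    le_div_iff₀ (Real.rpow_pos_of_pos pl _)]
  push_cast at h4
  linarith

theorem ex_four_polylog : (fun n : ℕ => (exRainbow 4 n : ℝ)) =O[atTop]
    fun n : ℕ => (n : ℝ) ^ 3 * Real.log n ^ (-(1 / 600000) : ℝ) := by
  refine IsBigO.of_bound 48 (eventually_atTop.2 ⟨2, fun n hn => ?_⟩)
  have pl : 0 < Real.log n := Real.log_pos (by exact_mod_cast hn)
  rw [Real.norm_of_nonneg (by positivity), Real.norm_of_nonneg (by positivity),
    ← Nat.le_floor_iff (by positivity)]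
  exact ex_le fun G c hp hr => (Nat.le_floor_iff (by positivity)).2 ((th_of hp hr).polylog hn)

end Pool.Agent.Lib.MP_9afdc0_co
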