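import Pool.Agent.Lib.MP_9afdc0_co.RsE

/-! The bound for four-cliques. -/

namespace Pool.Agent.Lib.MP_9afdc0_co

open Finset Filter Asymptotics

theorem rs_small {η : ℝ} (h : 0 < η) :
    ∀ᶠ n : ℕ in atTop, (ruzsaSzemerediNumberNat n : ℝ) ≤ η * n ^ 2 := by
  have hc := SimpleGraph.triangleRemovalBound_pos h
  filter_upwards [tendsto_natCast_atTop_atTop.eventually_gt_atTop
    (1 / SimpleGraph.triangleRemovalBound η)] with n hn
  by_contra hlt
  obtain ⟨G, _, h1, h2⟩ := ruzsaSzemerediNumber_spec (α := Fin n)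
  have h3 := (h2.edgeDisjointTriangles.farFromTriangleFree (ε := η) (by
    rw [h1, Fintype.card_fin]
    push_cast
    exact (not_le.1 hlt).le)).le_card_cliqueFinset
  have h4 := G.card_edgeFinset_le_card_choose_two.trans (Nat.choose_le_pow _ _)
  rw [h2.card_edgeFinset, Fintype.card_fin] at h4
  rw [Fintype.card_fin] at h3
  have h5 := (Nat.cast_le (α := ℝ)).2 h4
  push_cast at h5
  have pn : (0 : ℝ) < n := lt_trans (by positivity) hn
  rw [div_lt_iff₀ hc] at hn
  nlinarith [mul_lt_mul_of_pos_right hn (pow_pos pn 2), pow_pos pn 2]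

theorem rs_big (L : ℝ) : ∀ᶠ n : ℕ in atTop, L * n ≤ (ruzsaSzemerediNumberNat n : ℝ) := by
  obtain ⟨c, hc, h⟩ := ruzsaSzemerediNumberNat_asymptotic_lower_bound.exists_pos
  have ht := Real.tendsto_sqrt_atTop.comp
    (Real.tendsto_log_atTop.comp (tendsto_natCast_atTop_atTop (R := ℝ)))
  filter_upwards [h.bound, ht.eventually_ge_atTop 5, ht.eventually_ge_atTop (c * L),
    eventually_gt_atTop 0] with n h1 h2 h3 h4
  simp only [Function.comp] at h2 h3
  rw [Real.norm_of_nonneg (by positivity), Real.norm_of_nonneg (by positivity)] at h1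
  have pn : (0 : ℝ) < n := by positivity
  have h5 : c * L ≤ n * Real.exp (-4 * √(Real.log n)) := by
    have e := Real.mul_self_sqrt (Real.log_natCast_nonneg n)
    nth_rw 1 [← Real.exp_log pn]
    rw [← Real.exp_add]
    refine le_trans ?_ (Real.add_one_le_exp _)
    nlinarith
  refine le_of_mul_le_mul_left (le_trans ?_ h1) hc
  nlinarith [mul_le_mul_of_nonneg_right h5 pn.le]

theorem four_small {ε : ℝ} (hε : 0 < ε) : ∀ᶠ n : ℕ in atTop, ∀ G : SimpleGraph (Fin n), Th G →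
    ((cl G 4).card : ℝ) ≤ ε * (n * ruzsaSzemerediNumberNat n) := by
  classical
  obtain ⟨η, h0, h1, h2⟩ : ∃ η : ℝ, 0 < η ∧ η ≤ 1 ∧ 300000 * η ≤ ε :=
    ⟨min 1 (ε / 300000), by positivity, min_le_left _ _, by
      linarith [min_le_right 1 (ε / 300000)]⟩
  obtain ⟨J, hJ⟩ := exists_pow_lt_of_lt_one h0 (show 1 - η ^ 2 < 1 by nlinarith)
  obtain ⟨C, hC⟩ := stepC h0.le h1 J
  obtain ⟨N, hN⟩ := exists_hit h0 h1
  obtain ⟨M, hM⟩ := exists_nat_gt (3 * C / η)
  have pM : (0 : ℝ) < M := lt_of_le_of_lt (by positivity) hM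
  have hM' : 3 * C / M ≤ η := by
    rw [div_le_iff₀ pM, mul_comm η, ← div_le_iff₀ h0]
    exact hM.le
  filter_upwards [eventually_ge_atTop N, eventually_ge_atTop 3, eventually_ge_atTop (2 * (M * M)),
    rs_small (show (0 : ℝ) < 1 / (11232 * (M * M)) by positivity), rs_big ((24 + 12 * C) / η)]
    with n n1 n2 n3 n4 n5 G H
  have pn : (0 : ℝ) < n := by positivity
  obtain ⟨S, s1, s2⟩ := hN n n1 G H
  obtain ⟨F, f1, f2⟩ := H.stepA n2 (by positivity) S s1
  obtain ⟨R, hR⟩ : ∃ R, R = ruzsaSzemerediNumberNat n := ⟨_, rfl⟩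
  have t1 : 5616 * R ≤ (5616 * R / n + 1) * n :=
    (Nat.lt_mul_div_succ _ (by omega)).le.trans_eq (mul_comm _ _)
  have t2 : (5616 * R / n + 1) * n ≤ 5616 * R + n := by
    rw [add_mul, one_mul]
    exact Nat.add_le_add_right (Nat.div_mul_le_self _ _) _
  obtain ⟨t, ht⟩ : ∃ t, t = 5616 * R / n + 1 := ⟨_, rfl⟩
  rw [← ht] at t1 t2
  rw [← hR] at f1 f2 n4 n5 ⊢
  replace t2 := (Nat.cast_le (α := ℝ)).2 t2
  replace n3 := (Nat.cast_le (α := ℝ)).2 n3
  push_cast at t2 n3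
  rw [div_mul_eq_mul_div, le_div_iff₀ (by positivity)] at n4
  rw [div_mul_eq_mul_div, div_le_iff₀ h0] at n5
  have t3 : t * (M * M) ≤ n := by
    rw [← Nat.cast_le (α := ℝ)]
    push_cast
    refine le_of_mul_le_mul_right ?_ pn
    nlinarith [mul_le_mul_of_nonneg_right t2 (mul_self_nonneg (M : ℝ)),
      mul_le_mul_of_nonneg_right n3 pn.le]
  obtain ⟨g, hg⟩ := H.stepB n2 F (f1.trans t1)
  have c1 := hC n G H n2 t M (ht ▸ Nat.succ_pos _) (by exact_mod_cast pM) t3 g
  rw [← hR] at c1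
  have c2 := (Nat.cast_le (α := ℝ)).2 (cl_le S s2)
  push_cast at c2
  have pR : (0 : ℝ) ≤ R := by positivity
  have c3 : 6 * η * (t * n) + 3 * C * n + 11232 * R * ((1 - η ^ 2) ^ J + 3 * C / M) ≤
      56161 * η * R := by
    nlinarith [mul_le_mul_of_nonneg_left t2 h0.le, mul_le_mul_of_nonneg_left hJ.le pR,
      mul_le_mul_of_nonneg_left hM' pR, mul_le_mul_of_nonneg_right h1 pn.le]
  have c4 := mul_le_mul_of_nonneg_left (c1.trans c3) pn.le
  nlinarith [mul_le_mul_of_nonneg_right h2 (mul_nonneg pn.le pR),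
    mul_nonneg h0.le (mul_nonneg pn.le pR)]

theorem ex_four : (fun n : ℕ => (exRainbow 4 n : ℝ)) =o[atTop]
    fun n : ℕ => (n : ℝ) * (ruzsaSzemerediNumberNat n : ℝ) := by
  refine isLittleO_iff.2 fun ε hε => ?_
  filter_upwards [four_small hε] with n hn
  rw [Real.norm_of_nonneg (by positivity), Real.norm_of_nonneg (by positivity),
    ← Nat.le_floor_iff (by positivity)]
  exact ex_le fun G c hp hr => (Nat.le_floor_iff (by positivity)).2 (hn G (th_of hp hr))

end Pool.Agent.Lib.MP_9afdc0_co
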